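import Pool.Agent.N179.GR.Fin

/-!
# Families of representations which split off from each other
-/

set_option autoImplicit false
set_option linter.unusedSectionVars false

open CategoryTheory AlgebraicGeometry

universe u

namespace Pool.Agent.U233.FG

open Module Pool.Agent.TH125.Gal Pool.Agent.N179.GR Pool.Agent.N179.GR.S

section Rep

variable {K : Type} [Field K] {Γ : Type} [Group Γ]

/-- the operators are semisimple, and the representations split off from each other -/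
structure Fam {ι : Type} (V : ι → GRep K Γ) : Prop where
  semisimple : ∀ i, Semisimple (endo (V i))
  pair : ∀ i j, i ≠ j → Spl (fl (V i)) {fl (V j)}

variable [CharZero K]

theorem fam_bound (e : K ≃+* ℂ) {ι : Type} {V : ι → GRep K Γ} (hV : Fam V) (U : GRep K Γ) :
    (Exc V U).Finite ∧ (Exc V U).ncard + (semiSpan U).dim ≤ dim U ∧
      ((∃ B : Form U, InvForm B) → 2 * (Exc V U).ncard + (semiSpan U).dim ≤ dim U) := by
  classical
  have hT : ∀ N ∈ ({fl U} : Set (PRep K Γ)), IsFull N := by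
    rintro N rfl
    exact isFull_full _
  choose s hs using fun i => exists_piece (r := (V i).hom) (semiS_endo (hV.semisimple i)) hT
  have hrank : ∀ F : Finset ι, (F : Set ι) ⊆ Exc V U →
      F.card + (semiSpan U).dim ≤ dim U ∧
        ((∃ B : Form U, InvForm B) → 2 * F.card + (semiSpan U).dim ≤ dim U) := by
    intro F hF
    have h1 := rank_le e (V := fun i => (V i).V) (r := fun i => (V i).hom) (t := U.hom) F
      (fun i _ => hs i) (fun i hi => (hs i).ne_bot (hF hi))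
      (fun i _ j _ hij => hV.pair i j hij)
    rw [dim_semiSpan] at h1
    refine ⟨h1.1, fun ⟨B, hnd, μ, hB⟩ => h1.2 ⟨μ, B, hnd, hB⟩⟩
  have hfin : (Exc V U).Finite := by
    by_contra hinf
    obtain ⟨F, hF, hc⟩ := Set.Infinite.exists_subset_card_eq hinf (dim U + 1)
    have h1 := (hrank F hF).1
    omega
  refine ⟨hfin, ?_, ?_⟩
  · have h1 := (hrank hfin.toFinset (by rw [Set.Finite.coe_toFinset])).1
    rwa [Set.ncard_eq_toFinset_card _ hfin]
  · intro hB
    have h1 := (hrank hfin.toFinset (by rw [Set.Finite.coe_toFinset])).2 hB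
    rwa [Set.ncard_eq_toFinset_card _ hfin]

end Rep

open Pool.Agent.H914 Pool.Agent.H914.VarClass Pool.Agent.H914.VarClass.Obj
  Pool.Agent.H914.WeilCohomology Pool.Agent.W552 Pool.Agent.H281R3.HT

variable {k : Type u} [Field k] {𝒱 : VarClass k} {ops : CycleOps 𝒱}
  {W : WeilCohomology.{u, 0} ops} {Γ : Type} [Group Γ]

section tower

variable {ι : Type} {V : ι → GRep W.K Γ} {Z : GVar W Γ} {L : List (ι × GVar W Γ)} {Y : GVar W Γ}

theorem tower_spl (hV : Fam V) {m : ℕ} {U : Fin m → GRep W.K Γ} (hZ : GeneratedBy U Z)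
    (hY : Tower V Z L Y) {i : ι} (hi : ∀ a, i ∉ Exc V (U a)) (hL : ∀ x ∈ L, x.1 ≠ i) :
    Spl (fl (V i)) {full (W.H Y.X) (algR Y.act)} := by
  classical
  have h1 : Spl (fl (V i)) (⋃ a ∈ (Finset.univ : Finset (Fin m)), {fl (U a)}) :=
    Spl.iUnion Finset.univ (fun a => {fl (U a)}) fun a _ => by
      by_contra h
      exact hi a h
  have h2 : Spl (fl (V i)) (⋃ j ∈ (L.map Prod.fst).toFinset, {fl (V j)}) :=
    Spl.iUnion _ (fun j => {fl (V j)}) fun j hj => by
      obtain ⟨x, hx, rfl⟩ := List.mem_map.1 (List.mem_toFinset.1 hj)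
      exact hV.pair i x.1 (hL x hx).symm
  refine (h1.union h2).detect1 fun D hD h0 N hN => ?_
  rw [Set.mem_singleton_iff.1 hN]
  refine tower_kill hZ hY hD (fun a => h0 _ (Or.inl ?_)) fun x hx => h0 _ (Or.inr ?_)
  · exact Set.mem_iUnion₂.2 ⟨a, Finset.mem_univ a, rfl⟩
  · exact Set.mem_iUnion₂.2 ⟨x.1, List.mem_toFinset.2 (List.mem_map.2 ⟨x, hx, rfl⟩), rfl⟩

theorem slices [IsAlgClosed W.K] (hV : Fam V) {m : ℕ} {U : Fin m → GRep W.K Γ}
    (hZ : GeneratedBy U Z) (hY : Tower V Z L Y) {i : ι} (hi : ∀ a, i ∉ Exc V (U a))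
    (hL : ∀ x ∈ L, x.1 ≠ i) {P : GVar W Γ} {υ : Acts P Y} (hP : OfType (V i) P)
    (hυ : ProdAct P Y υ) {z : W.H (P.X.prod Y.X)}
    (hz : (full (W.H (P.X.prod Y.X)) (algR υ)).Eig z) (ψ : W.H Y.X →ₗ[W.K] W.K) :
    ctr2 ψ z ∈ Submodule.span W.K {y | (full (W.H P.X) (algR P.act)).Eig y} := by
  obtain ⟨k, hk⟩ := slice_mem hυ.1 hυ.2 (gen_of hP.1) (tower_spl hV hZ hY hi hL)
  exact inv_le (semiS_coh hP.2) k (hk z hz ψ)

theorem tower_tate [IsAlgClosed W.K] {χ : Γ →* W.Kˣ} (hV : Fam V) {m : ℕ}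
    {U : Fin m → GRep W.K Γ} (hZ : GeneratedBy U Z) (hpt : HasPoint Z) (hY : Tower V Z L Y) :
    (∀ x ∈ L, x.1 ∉ (⋃ a, Exc V (U a)) ∧ Twisted χ x.2 ∧ HasPoint x.2) →
    (TateConjecture χ Y ↔ TateConjecture χ Z ∧ ∀ x ∈ L, TateConjecture χ x.2) := by
  induction hY with
  | base => exact fun _ => ⟨fun h => ⟨h, by simp⟩, fun h => h.1⟩
  | @step L Y i P υ hT hi hP hυ ih =>
    intro hL
    have hL' : ∀ x ∈ L, x.1 ∉ (⋃ a, Exc V (U a)) ∧ Twisted χ x.2 ∧ HasPoint x.2 :=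
      fun x hx => hL x (List.mem_cons_of_mem _ hx)
    have hPL := hL (i, P) List.mem_cons_self
    constructor
    · intro h
      have hYp : HasPoint Y := tower_point hT hpt fun x hx => (hL' x hx).2.2
      have h1 : TateConjecture χ Y := tate_snd hυ.2 hPL.2.2 h
      have h2 : TateConjecture χ P := tate_fst hυ.1 hYp h
      obtain ⟨h3, h4⟩ := (ih hL').1 h1
      refine ⟨h3, fun x hx => ?_⟩
      rcases List.mem_cons.1 hx with rfl | hx
      · exact h2
      · exact h4 x hx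
    · rintro ⟨h3, h4⟩
      have h1 : TateConjecture χ Y := (ih hL').2 ⟨h3, fun x hx => h4 x (List.mem_cons_of_mem _ hx)⟩
      have h2 : TateConjecture χ P := h4 (i, P) List.mem_cons_self
      rintro j z hzj ⟨Δ, hΔ, hz⟩
      refine tate_step hυ.1 hυ.2 h2 h1 hzj hΔ hz fun ψ => ?_
      have h5 := slices hV hZ hT (i := i) (fun a ha => hPL.1 (Set.mem_iUnion.2 ⟨a, ha⟩)) hi hP
        hυ (z := z) ⟨Δ, hΔ, fun g hg => ⟨_, hz g hg⟩⟩ ψ
      exact (Submodule.span_le.2 fun y hy => hPL.2.1 y hy) h5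

end tower

/-- **The theorem.** -/
theorem fam_final (hK : Nonempty (W.K ≃+* ℂ)) (χ : Γ →* W.Kˣ) {ι : Type} {V : ι → GRep W.K Γ}
    (hV : Fam V) :
    (∀ U, (Exc V U).Finite ∧ (Exc V U).ncard + (semiSpan U).dim ≤ dim U) ∧
    (∀ i, Exc V (V i) ⊆ {i}) ∧
    (∀ Z : GVar W Γ, TraceInv χ Z →
      2 * (Exc V (coh Z)).ncard + (semiSpan (coh Z)).dim ≤ dim (coh Z)) ∧
    ∀ (m : ℕ) (U : Fin m → GRep W.K Γ) (Z : GVar W Γ), GeneratedBy U Z →
      Outside χ V Z (⋃ a, Exc V (U a)) := by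
  obtain ⟨e⟩ := hK
  have halg : IsAlgClosed W.K := IsAlgClosed.of_ringEquiv ℂ W.K e.symm
  refine ⟨fun U => ⟨(fam_bound e hV U).1, (fam_bound e hV U).2.1⟩, ?_, ?_, fun m U Z hZ => ⟨?_, ?_⟩⟩
  · intro j i hi
    by_contra h
    exact hi (hV.pair i j h)
  · intro Z hZ
    refine (fam_bound e hV (coh Z)).2.2
      ⟨(LinearMap.mul W.K (W.H Z.X)).compr₂ (W.tr Z.X), fun x hx => W.nondeg x fun y => hx y,
        χ ^ Z.X.dim, fun g (x y : W.H Z.X) => ?_⟩
    have h1 := hZ g (x * y)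
    rw [map_mul] at h1
    rw [MonoidHom.pow_apply, Units.val_pow_eq_pow_val]
    exact h1
  · intro L Y hY hE i P υ hi hL hP hυ z hz
    have h1 := semi_step hυ.1 hυ.2 hz fun ψ => slices hV hZ hY
      (fun a ha => hi (Set.mem_iUnion.2 ⟨a, ha⟩)) hL hP hυ hz ψ
    refine Submodule.span_mono ?_ h1
    rintro x ⟨u, v, hu, hv, rfl⟩
    exact ⟨u, hu, v, hv, rfl⟩
  · intro L Y hY hL hpt
    exact tower_tate hV hZ hpt hY hL

end Pool.Agent.U233.FG
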