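import Pool.Agent.U233.FG.Tws
import Pool.Agent.U233.FG.Fam

/-!
# Families of structures with full Hodge groups: the assembly
-/

set_option autoImplicit false
set_option linter.unusedSectionVars false

open CategoryTheory AlgebraicGeometry TensorProduct

universe u

namespace Pool.Agent.U233.HG

open Module Pool.Agent.N179 Pool.Agent.N179.DB Pool.Agent.N179.GR.S
open Pool.Agent.N179.DB.S (Cx tens gal bc cx_ind tens_add tens_smul smul_tens exists_tens
  inF_tens bx_apply bc_tens bc_gal gal_add gal_tens galB gal_mul gr' gr'_eq gal_gr' mem_of_base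
  span_alg algS algT base_mul)
open Pool.Agent.H914 Pool.Agent.H914.VarClass Pool.Agent.H914.VarClass.Obj
  Pool.Agent.H914.WeilCohomology Pool.Agent.TH125.Gal
open Pool.Agent.U233.HG.St (Theory coho prd)
open Pool.Agent.Y133.Per (Base baseMap baseTr tm base_ind baseTr_tm)

variable {k : Type u} [Field k] {𝒱 : VarClass k} {ops : CycleOps 𝒱} (T : Theory ops)

noncomputable section

theorem charK (K : Type) [Field K] [Algebra K ℂ] : CharZero K := (algebraMap K ℂ).charZero

/-- the theorem for families which split off -/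
theorem splitFam {ι : Type} {V : ι → HS T.W.K} (hF : FG.Fam (fun i => rep (V i))) :
    SplitG T V (fun U => Exc (fun i => rep (V i)) (rep U)) := by
  obtain ⟨h1, h2, h3, h4⟩ := FG.fam_final (W := baseW T.W ℂ) ⟨RingEquiv.refl ℂ⟩ (ch T)
    (V := fun i => (rep (V i) : GRep (baseW T.W ℂ).K (HGp T.W.K))) hF
  refine ⟨fun U => (h1 (rep U)).1, fun U => ?_,
    fun i => h2 i, fun Z => ?_, fun m U Z hZ => ⟨fun i P L hL => ?_, fun L hL => ?_⟩⟩
  · have h1 := (h1 (rep U)).2
    have h2 := cmDim_eq T U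
    have h3 := dim_coh T U
    change (Exc (fun i => rep (V i)) (rep U)).ncard + (semiSpan (rep U)).dim ≤ dim (rep U) at h1
    rwa [h2, h3] at h1
  · have h1 := h3 (var T Z) (traceInv T Z)
    rw [coh_var T Z] at h1
    have h2 := cmDim_eq T (coh T Z)
    have h3 := dim_coh T (coh T Z)
    change 2 * (Exc (fun i => rep (V i)) (rep (coh T Z))).ncard +
      (semiSpan (rep (coh T Z))).dim ≤ dim (rep (coh T Z)) at h1
    rwa [h2, h3] at h1
  · obtain ⟨h1, h2⟩ := hL
    have h3 := h1
    rw [List.map_cons, List.nodup_cons] at h3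
    have hT := towerG T V Z L h3.2 fun x hx => (h2 x (List.mem_cons_of_mem _ hx)).2
    have hP := (h2 (i, P) List.mem_cons_self).2
    refine kunneth_of T hP.2 ?_
    refine (h4 m (fun a => rep (U a)) (var T Z) (gen_var T hZ)).semi (lst T L) _ hT ?_ i
      (var T P) _ (h2 (i, P) List.mem_cons_self).1 ?_ hP.1 (prodAct T P (prd L Z))
    · intro x hx
      obtain ⟨y, hy, rfl⟩ := List.mem_map.1 hx
      exact (h2 y (List.mem_cons_of_mem _ hy)).1
    · intro x hx hxi
      obtain ⟨y, hy, rfl⟩ := List.mem_map.1 hx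
      exact h3.1 (List.mem_map.2 ⟨y, hy, hxi⟩)
  · have hT' := towerG T V Z L hL.1 fun x hx => (hL.2 x hx).2
    have h1 := (h4 m (fun a => rep (U a)) (var T Z) (gen_var T hZ)).tate (lst T L) _ hT'
      (by
        intro x hx
        obtain ⟨y, hy, rfl⟩ := List.mem_map.1 hx
        exact ⟨(hL.2 y hy).1, (hL.2 y hy).2.2, point_of T _⟩)
      (point_of T Z)
    rw [tate_iff, tate_iff] at h1
    rw [h1]
    refine and_congr Iff.rfl ⟨fun h x hx => ?_, fun h x hx => ?_⟩
    · rw [← tate_iff]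
      exact h (x.1, var T x.2) (List.mem_map.2 ⟨x, hx, rfl⟩)
    · obtain ⟨y, hy, rfl⟩ := List.mem_map.1 hx
      rw [tate_iff]
      exact h y hy

/-- **Families with full Hodge groups.** -/
theorem splitF {ι : Type} {V : ι → HS T.W.K} {d : ι → ℤ}
    (hV : ∀ i, ∃ ψ, FullL (V i) (d i) ψ) (hap : ∀ i j, i ≠ j → Apart (V i) (V j)) :
    ∃ E : HS T.W.K → Set ι, SplitG T V E ∧
      ∀ U i, Polarisable U → Wt U → Lvl U (d i) → Apart (V i) U → i ∉ E U := by
  have hK := charK T.W.K
  refine ⟨_, splitFam T ⟨fun i => ?_, fun i j hij => ?_⟩, fun U i h1 h2 h3 h4 hi => ?_⟩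
  · obtain ⟨ψ, hψ⟩ := hV i
    exact hψ.pol.semisimple_endo
  · obtain ⟨ψ, hψ⟩ := hV i
    obtain ⟨ψ', hψ'⟩ := hV j
    exact spl_full hψ hψ' (hap i j hij) (hap j i hij.symm)
  · obtain ⟨ψ, hψ⟩ := hV i
    exact hi (spl_level hψ h1 h2 h3 h4)

end

end Pool.Agent.U233.HG
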