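import Pool.Agent.U233.FG.DefF
import Pool.Agent.U233.FG.Asm
import Pool.Agent.U233.HG.StFin

/-!
# The proofs of the statements
-/

set_option autoImplicit false
set_option linter.unusedSectionVars false

open CategoryTheory AlgebraicGeometry TensorProduct

universe u

namespace Pool.Agent.U233.HG

open Module Pool.Agent.N179.DB
open Pool.Agent.N179.DB.S (Cx tens gal bc cx_ind)

section HS

variable {K : Type} [Field K] [Algebra K ℂ]

/-- a polarisation is nondegenerate -/
theorem pol_nd {M : HS K} {ψ : M.V →ₗ[K] M.V →ₗ[K] K} (h : IsPol M ψ) (x : Cx K M.V)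
    (hx : ∀ y, formC ψ x y = 0) : x = 0 := by
  classical
  by_contra hx0
  obtain ⟨r, hr, hr0⟩ : ∃ r ∈ Finset.univ.image M.t, part M x r ≠ 0 := by
    by_contra hcon
    push Not at hcon
    apply hx0
    rw [sum_part x]
    exact Finset.sum_eq_zero hcon
  have h1 : gal cc h.real (part M x r) ∈ M.pq r.2 r.1 :=
    h.conj r.1 r.2 _ ((M.mem' r _).2 (part_typ x r))
  have h2 : formC ψ x (gal cc h.real (part M x r)) =
      formC ψ (part M x r) (gal cc h.real (part M x r)) := by
    have h3 : formC ψ x = ∑ s ∈ Finset.univ.image M.t, formC ψ (part M x s) := by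
      rw [← map_sum, ← sum_part x]
    rw [h3, LinearMap.sum_apply, Finset.sum_eq_single_of_mem r hr]
    intro s _ hs
    refine h.orth s.1 s.2 r.2 r.1 _ ((M.mem' s _).2 (part_typ x s)) _ h1 ?_
    by_contra hcon
    push Not at hcon
    exact hs (Prod.ext hcon.2.symm hcon.1.symm)
  obtain ⟨c, hc, h4⟩ := h.pos r.1 r.2 _ ((M.mem' r _).2 (part_typ x r)) hr0
  rw [← h2, hx, mul_zero] at h4
  exact hc.ne' (by exact_mod_cast h4.symm)

theorem e_ne (M : HS K) (k : Fin M.n) : M.e k ≠ 0 := M.e.ne_zero k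

theorem e_mem (M : HS K) (k : Fin M.n) : M.e k ∈ M.pq (M.t k).1 (M.t k).2 :=
  (M.mem' _ _).2 (Typ.basis k)

theorem lvl_of {M : HS K} {d : ℤ} (h : ∀ p q, ∀ x ∈ M.pq p q, x ≠ 0 → |p - q| ≤ d) : Lvl M d := by
  intro k
  have h1 := abs_le.1 (h _ _ _ (e_mem M k) (e_ne M k))
  exact ⟨h1.2, h1.1⟩

end HS

namespace St

open Pool.Agent.H914 Pool.Agent.H914.VarClass Pool.Agent.H914.VarClass.Obj
  Pool.Agent.H914.WeilCohomology

section HS

variable {K : Type} [Field K] [Algebra K ℂ]

theorem isPol_of {M : HS K} {ψ : Form M} (h : IsPol ψ) :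
    HG.IsPol (toHG M) (show M.V →ₗ[K] M.V →ₗ[K] K from ψ) :=
  ⟨h.real, h.conj, fun p q r s x hx y hy hne => h.orth p q r s x y hx hy hne, h.pos⟩

theorem full_of {M : HS K} {d : ℕ} {ψ : Form M} (h : IsFull d ψ) :
    FullL (toHG M) d (show M.V →ₗ[K] M.V →ₗ[K] K from ψ) where
  pos := by exact_mod_cast h.pos
  lev := lvl_of h.level
  sim := by
    obtain ⟨w, hw⟩ := h.pure
    exact ⟨w, fun k => hw _ _ _ (e_mem (toHG M) k) (e_ne (toHG M) k), (isPol_of h.pol).orth,
      pol_nd (isPol_of h.pol)⟩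
  pol := ⟨_, isPol_of h.pol⟩
  full := h.full
  top := by
    obtain ⟨p, q, hpq, h1⟩ := h.top
    have h2 : Set.finrank ℂ {x | M.has p q x} ≤
        finrank ℂ (DG (toHG M) (RingEquiv.refl ℂ) d) := by
      have h3 : (Submodule.span ℂ {x | M.has p q x} : Submodule ℂ (Cx K (toHG M).V)) ≤
          DG (toHG M) (RingEquiv.refl ℂ) d := by
        refine Submodule.span_le.2 fun x hx => ?_
        rw [← hpq]
        exact pq_le_DG (toHG M) p q hx
      exact @Submodule.finrank_mono ℂ (Cx K (toHG M).V) _ _ _ _ _ _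
        (@FiniteDimensional.finiteDimensional_submodule ℂ (Cx K (toHG M).V) _ _ _ (toHG M).fdC _)
        h3
    by_cases hd : Odd d
    · rw [if_pos hd] at h1
      refine Or.inl ⟨by exact_mod_cast hd, fun x y => ?_, h1.trans h2⟩
      have h3 := h.symm x y
      rw [hd.neg_one_pow, neg_one_mul] at h3
      exact h3
    · rw [if_neg hd] at h1
      refine Or.inr ⟨fun x y => ?_, h1.trans h2⟩
      have h3 := h.symm x y
      rw [(Nat.not_odd_iff_even.1 hd).neg_one_pow, one_mul] at h3
      exact h3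

theorem apart_of {M N : HS K} (h : Apart M N) : HG.Apart (toHG M) (toHG N) := fun j P hP =>
  LinearMap.ext fun x => h j P hP x

theorem wt_of {M : HS K} (h : M.Weights) : Wt (toHG M) := wt_of_span h

end HS

variable {k : Type u} [Field k] {𝒱 : VarClass k} {ops : CycleOps 𝒱} (T : Theory ops)

theorem full_split {ι : Type} {V : ι → HS T.W.K} {d : ι → ℕ} (hV : FullFamily V d) :
    ∃ E : HS T.W.K → Set ι, FullSplitting T V d E := by
  have hK := charK T.W.K
  obtain ⟨E, hE, hs⟩ := splitF T (V := fun i => toHG (V i)) (d := fun i => (d i : ℤ))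
    (fun i => by
      obtain ⟨ψ, hψ⟩ := hV.full i
      exact ⟨_, full_of hψ⟩) fun i j hij => apart_of (hV.apart i j hij)
  have hty : ∀ i P, (coho T P).Gens (V i) → TypeG T (toHG (V i)) P := by
    intro i P hP
    obtain ⟨ψ, hψ⟩ := hV.full i
    exact type_full T (full_of hψ) hP.gen ((pol_iff _).1 hP.polarisable)
  refine ⟨fun U => E (toHG U), ⟨⟨fun U => hE.finite _, fun U => hE.card (toHG U),
    fun i => hE.self i⟩, fun U i hU => ?_, fun Z => ⟨⟨hE.finite _, hE.variety Z⟩, ?_⟩,
    fun m U Z hZ => ?_⟩⟩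
  · exact hs (toHG U) i ((pol_iff _).1 hU.polarisable) (wt_of hU.weights) (lvl_of hU.level)
      (apart_of hU.apart)
  · refine splits_of T (fun i hi => ?_) hty (hE.splits 1 (fun _ => coh T Z) Z (gen_self T Z))
    rw [Set.mem_iUnion]
    rintro ⟨-, h⟩
    exact hi h
  · exact splits_of T (fun i hi => hi) hty (hE.splits m _ Z (gen_of T hZ))

end St

end Pool.Agent.U233.HG
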