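import Pool.Agent.U233.FG.Spl

/-!
# The core consists of all skew operators
-/

set_option autoImplicit false
set_option linter.unusedSectionVars false

open TensorProduct

namespace Pool.Agent.U233.HG

open Module Pool.Agent.N179.DB Pool.Agent.N179.GR Pool.Agent.U233.FG
open Pool.Agent.N179.GR.S (GRep fl semiS semiS_endo)
open Pool.Agent.N179.DB.S (Cx tens gal bc cx_ind tens_add tens_smul smul_tens exists_tens
  inF_tens bx_apply bc_tens bc_gal gal_add gal_tens)

noncomputable section

variable {K : Type} [Field K] [Algebra K ℂ] [CharZero K]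

/-- The core consists of all skew operators. -/
theorem core_eq_skew {M : HS K} {d : ℤ} {ψ : M.V →ₗ[K] M.V →ₗ[K] K} (h : FullL M d ψ) :
    core (full (Cx K M.V) (hM M)) = skewC ψ := by
  obtain ⟨w, hw⟩ := h.sim
  rcases h.irr _ (core_stab (hM M)) (core_le_skew hw) with h0 | h0
  swap
  · exact h0
  exfalso
  -- the space is spanned by eigenvectors
  obtain ⟨k₀, hk₀⟩ := exists_stable (full (Cx K M.V) (hM M)) ∅
  have hkill : ∀ D : Der ℂ (HGp K), InDer k₀ D → D.Θ (full (Cx K M.V) (hM M)) = 0 := by
    intro D hD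
    have h1 : D.Θ (full (Cx K M.V) (hM M)) ∈ ak k₀ (full (Cx K M.V) (hM M)) ∅ :=
      ⟨D, hD, fun N hN => absurd hN (Set.notMem_empty N), rfl⟩
    rw [hk₀ k₀ le_rfl] at h1
    have h2 : D.Θ (full (Cx K M.V) (hM M)) ∈ core (full (Cx K M.V) (hM M)) := h1
    rw [h0] at h2
    exact (Submodule.mem_bot ℂ).1 h2
  have hspan := le_eigSpan (r := hM M) (semiS h.pol.semisimple) (A := ⊤) (fun _ _ _ => trivial)
    (k := k₀) (fun D hD x _ => by rw [hkill D hD, LinearMap.zero_apply])
  have heig : ∀ x, (full (Cx K M.V) (hM M)).Eig x → ∀ g : HGp K, ∃ c : ℂ, rM M g x = c • x := by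
    intro x hx g
    have h1 : x ∈ pures M := semi_iff'.1 hx
    exact eig_all (mem_pures.1 h1) g
  -- the operators of two eigenvectors
  have key : ∀ {E : ℂ}, E * E = 1 → (∀ x y, formC ψ x y = E * formC ψ y x) →
      ∀ a b, SZ ψ E a b ≠ 0 → ∃ X, skewC ψ ≤ Submodule.span ℂ {X} := by
    intro E hE hs a b hab
    by_contra hcon
    push Not at hcon
    have h1 : ∀ x, (full (Cx K M.V) (hM M)).Eig x → ∀ y, (full (Cx K M.V) (hM M)).Eig y →
        SZ ψ E x y = 0 := by
      intro x hx y hy
      have hst : Stab (cj (hM M)) (Submodule.span ℂ {SZ ψ E x y}) := by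
        intro g X hX
        obtain ⟨c, rfl⟩ := Submodule.mem_span_singleton.1 hX
        obtain ⟨p, hp⟩ := heig x hx g
        obtain ⟨q, hq⟩ := heig y hy g
        have h2 := SZ_equi (E := E) hw g x y
        rw [hp, hq, map_smul, map_smul, LinearMap.smul_apply, smul_smul] at h2
        have h3 : cj (hM M) g (SZ ψ E x y) =
            (((chi K g ^ w : ℂˣ) : ℂ)⁻¹ * (q * p)) • SZ ψ E x y := by
          rw [mul_smul, h2, smul_smul, inv_mul_cancel₀ (Units.ne_zero _), one_smul]
        rw [map_smul, h3, smul_smul]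
        exact Submodule.smul_mem _ _ (Submodule.mem_span_singleton_self _)
      rcases h.irr _ hst (Submodule.span_le.2 (Set.singleton_subset_iff.2 (SZ_mem hE hs x y)))
        with h2 | h2
      · exact Submodule.span_singleton_eq_bot.1 h2
      · exact absurd h2.ge (hcon _)
    have h2 : ∀ y, (full (Cx K M.V) (hM M)).Eig y → ∀ x, SZ ψ E x y = 0 := by
      intro y hy x
      have hx := hspan (Submodule.mem_top (x := x))
      unfold eigSpan at hx
      induction hx using Submodule.span_induction with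
      | mem x hx => exact h1 x hx.2 y hy
      | zero => rw [map_zero, LinearMap.zero_apply]
      | add x x' _ _ hx hx' => rw [map_add, LinearMap.add_apply, hx, hx', add_zero]
      | smul c x _ hx => rw [map_smul, LinearMap.smul_apply, hx, smul_zero]
    apply hab
    have hb := hspan (Submodule.mem_top (x := b))
    unfold eigSpan at hb
    clear hab
    induction hb using Submodule.span_induction with
    | mem y hy => exact h2 y hy.2 a
    | zero => rw [map_zero]
    | add x x' _ _ hx hx' => rw [map_add, hx, hx', add_zero]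
    | smul c x _ hx => rw [map_smul, hx, smul_zero]
  have line : ∀ {X Y Z : Module.End ℂ (Cx K M.V)}, skewC ψ ≤ Submodule.span ℂ {X} →
      Y ∈ skewC ψ → Z ∈ skewC ψ → Z ≠ 0 → ∃ c : ℂ, Y = c • Z := by
    intro X Y Z hX hY hZ hZ0
    obtain ⟨a, rfl⟩ := Submodule.mem_span_singleton.1 (hX hY)
    obtain ⟨b, rfl⟩ := Submodule.mem_span_singleton.1 (hX hZ)
    have hb : b ≠ 0 := by
      rintro rfl
      exact hZ0 (zero_smul _ _)
    exact ⟨a * b⁻¹, by rw [smul_smul, mul_assoc, inv_mul_cancel₀ hb, mul_one]⟩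
  have hd := h.pos
  rcases h.symm with ⟨-, hs, h1⟩ | ⟨hs, h5⟩
  · have hs' : ∀ x y, formC ψ x y = (-1) * formC ψ y x := fun x y => by rw [hs, neg_one_mul]
    obtain ⟨u, c, hD⟩ := exists_dual hw hs' d
    let i : Fin (finrank ℂ (DG M (RingEquiv.refl ℂ) d)) := ⟨0, h1⟩
    have hu0 : u i ≠ 0 := by
      intro h2
      have h3 := hD.one i
      rw [h2, map_zero, LinearMap.zero_apply] at h3
      exact zero_ne_one h3
    have huu : SZ ψ (-1) (u i) (u i) (c i) = (2 : ℂ) • u i := by
      rw [SZ_apply, hD.one]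
      module
    have hcc : SZ ψ (-1) (c i) (c i) (u i) = (-2 : ℂ) • c i := by
      rw [SZ_apply, hs, hD.one]
      module
    have hc0 : c i ≠ 0 := by
      intro h2
      have h3 := hD.one i
      rw [h2, map_zero] at h3
      exact zero_ne_one h3
    obtain ⟨X, hX⟩ := key (by norm_num) hs' (u i) (u i) fun h2 => by
      rw [h2, LinearMap.zero_apply] at huu
      exact hu0 ((smul_eq_zero.1 huu.symm).resolve_left two_ne_zero)
    obtain ⟨a, ha⟩ := line hX (SZ_mem (by norm_num) hs' (u i) (u i))
      (SZ_mem (by norm_num) hs' (c i) (c i)) fun h2 => by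
      rw [h2, LinearMap.zero_apply] at hcc
      exact hc0 ((smul_eq_zero.1 hcc.symm).resolve_left (by norm_num))
    have h2 := LinearMap.congr_fun ha (c i)
    have h3 : formC ψ (c i) (c i) = 0 := by
      have h4 := hs (c i) (c i)
      have h5 : (2 : ℂ) * formC ψ (c i) (c i) = 0 := by linear_combination h4
      exact (mul_eq_zero.1 h5).resolve_left two_ne_zero
    rw [huu, LinearMap.smul_apply, SZ_apply, h3, zero_smul, smul_zero, sub_zero, smul_zero] at h2
    exact hu0 ((smul_eq_zero.1 h2).resolve_left two_ne_zero)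
  · have hs' : ∀ x y, formC ψ x y = 1 * formC ψ y x := fun x y => by rw [hs, one_mul]
    obtain ⟨u, c, hD⟩ := exists_dual hw hs' d
    let i : Fin (finrank ℂ (DG M (RingEquiv.refl ℂ) d)) := ⟨0, by omega⟩
    let j : Fin (finrank ℂ (DG M (RingEquiv.refl ℂ) d)) := ⟨1, by omega⟩
    have hij : i ≠ j := by
      intro h1
      have h2 := congrArg Fin.val h1
      exact absurd h2 (by norm_num [i, j])
    have hu0 : ∀ i, u i ≠ 0 := by
      intro i h2
      have h3 := hD.one i
      rw [h2, map_zero, LinearMap.zero_apply] at h3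
      exact zero_ne_one h3
    have hc0 : ∀ i, c i ≠ 0 := by
      intro i h2
      have h3 := hD.one i
      rw [h2, map_zero] at h3
      exact zero_ne_one h3
    have huu : SZ ψ 1 (u i) (u j) (c i) = u j := by
      rw [SZ_apply, hD.one, hD.zero j i hij.symm]
      module
    have hcc : SZ ψ 1 (c i) (c j) (u i) = c j := by
      rw [SZ_apply, hs (c i), hs (c j), hD.one, hD.zero i j hij]
      module
    obtain ⟨X, hX⟩ := key (by norm_num) hs' (u i) (u j) fun h2 => by
      rw [h2, LinearMap.zero_apply] at huu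
      exact hu0 j huu.symm
    obtain ⟨a, ha⟩ := line hX (SZ_mem (by norm_num) hs' (u i) (u j))
      (SZ_mem (by norm_num) hs' (c i) (c j)) fun h2 => by
      rw [h2, LinearMap.zero_apply] at hcc
      exact hc0 j hcc.symm
    have h2 := LinearMap.congr_fun ha (c i)
    have h3 : ∀ l, formC ψ (c l) (c i) = 0 := fun l =>
      orth_DG hw (fun _ => rfl) (hD.memc l) (hD.memc i) (by omega)
    rw [huu, LinearMap.smul_apply, SZ_apply, h3, h3, zero_smul, zero_smul, smul_zero, sub_zero,
      smul_zero] at h2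
    exact hu0 j h2

end

end Pool.Agent.U233.HG
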