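import Pool.Agent.U233.FG.DefF0
import Pool.Agent.U233.HG.Def2

/-!
# Hodge structures with full Hodge groups: definitions
-/

set_option autoImplicit false

open CategoryTheory AlgebraicGeometry TensorProduct

universe u

namespace Pool.Agent.U233.HG.St

open Pool.Agent.H914

noncomputable section

section K

variable {K : Type} [Field K] [Algebra K ℂ]

/-- The value of the operator. -/
def opr {M : HS K} (X : M.endo.V) (x : M.V) : M.V := (show M.V →ₗ[K] M.V from X) x

/-- The Lie algebra of the isometries of the form: the operators `X` with
`ψ(X x, y) + ψ(x, X y) = 0`. -/
def skew {M : HS K} (ψ : Form M) : Set M.endo.V :=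
  {X | ∀ x y, ψ.ev (opr X x) y + ψ.ev x (opr X y) = 0}

/-- A pure Hodge structure `M` of level `d > 0` with full Hodge group: there is a polarisation `ψ`,
alternating for odd `d` and symmetric for even `d`, such that the Hodge structure on the Lie algebra
`skew ψ` has only scalar endomorphisms. (This is the case if the Hodge group is the full symplectic
or special orthogonal group of `ψ`.) Moreover the extreme Hodge number `h^(p,q)`, `p - q = d`, is at
least `1` if `d` is odd and at least `5` if `d` is even. -/
structure IsFull {M : HS K} (d : ℕ) (ψ : Form M) : Prop where
  pos : 0 < d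
  pure : ∃ w, M.IsPure w
  level : M.Level d
  pol : IsPol ψ
  symm : ∀ x y, ψ.ev x y = (-1) ^ d * ψ.ev y x
  full : ∀ f : Map M.endo M.endo, IsHom f → (∀ X, f.ev X ∈ skew ψ) →
    ∃ c : K, ∀ X ∈ skew ψ, f.ev X = c • X
  top : ∃ p q : ℤ, p - q = d ∧ (if Odd d then 1 else 5) ≤ Set.finrank ℂ {x | M.has p q x}

/-- A family of structures with full Hodge groups, of levels `d i`, without nonzero homomorphisms
between the Tate twists of different members. -/
structure FullFamily {ι : Type} (V : ι → HS K) (d : ι → ℕ) : Prop where
  full : ∀ i, ∃ ψ : Form (V i), IsFull (d i) ψ
  apart : ∀ i j, i ≠ j → Apart (V i) (V j)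

/-- The Hodge structure `U` is polarisable of level at most `d`, and `V` does not occur in it, up to
Tate twists. -/
structure Small (d : ℕ) (V U : HS K) : Prop where
  polarisable : U.Polarisable
  weights : U.Weights
  level : U.Level d
  apart : Apart V U

end K

variable {k : Type u} [Field k] {𝒱 : VarClass k} {ops : CycleOps 𝒱} (T : Theory ops)

/-- `E U` is the set of the exceptional indices with respect to the Hodge structure `U`.

* The sets `E U` are finite (`Few`), and `E U` does not contain an index `i` for which `U` is small.
* For every variety `Z`, the number of the exceptional indices with respect to the cohomology of `Z`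
  is at most one half of `b - b'`, where `b` is the sum of the Betti numbers and `b'` is the dimension
  of the part with complex multiplication, and the theorem `Splits` holds for the products of `Z`
  with varieties generated by the `V i` and by Hodge classes, without exceptional indices.
* The same is true if `Z` is generated by finitely many structures `U a`, without indices in the
  `E (U a)`. -/
structure FullSplitting {ι : Type} (V : ι → HS T.W.K) (d : ι → ℕ) (E : HS T.W.K → Set ι) :
    Prop where
  few : Few V E
  small : ∀ U i, Small (d i) (V i) U → i ∉ E U
  variety : ∀ Z : 𝒱.Obj, (coho T Z).Bound (E (coho T Z).str) ∧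
    Splits T (fun i X => X.Gens (V i)) (E (coho T Z).str) Z
  splits : ∀ (m : ℕ) (U : Fin m → HS T.W.K) (Z : 𝒱.Obj), (coho T Z).GenBy U →
    Splits T (fun i X => X.Gens (V i)) (⋃ a, E (U a)) Z

end

end Pool.Agent.U233.HG.St
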