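import Pool.Agent.U233.HG.Def2a

/-!
# Homomorphisms to twists, levels and generation: definitions
-/

set_option autoImplicit false

open CategoryTheory AlgebraicGeometry TensorProduct

universe u

namespace Pool.Agent.U233.HG.St

open Pool.Agent.H914

noncomputable section

section K

variable {K : Type} [Field K] [Algebra K ℂ]

/-- The value of the form. -/
def evF {V : Type} [AddCommGroup V] [Module K V] (ψ : FormV K V) (x y : V) : K :=
  (show V →ₗ[K] V →ₗ[K] K from ψ) x y

/-- The value of the form. -/
def Form.ev {M : HS K} (ψ : Form M) (x y : M.V) : K := evF (V := M.V) ψ x y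

/-- The linear map is a homomorphism of Hodge structures to the Tate twist: it maps the vectors of
type `(p, q)` to vectors of type `(p + j, q + j)`. -/
def IsTwist {M N : HS K} (j : ℤ) (f : Map M N) : Prop :=
  ∀ p q x, M.has p q x → N.has (p + j) (q + j) (f.ext x)

/-- There are no nonzero homomorphisms from `M` to the Tate twists of `N`. -/
def Apart (M N : HS K) : Prop := ∀ (j : ℤ) (f : Map M N), IsTwist j f → ∀ x, f.ev x = 0

/-- The weight is `w`: all nonzero vectors of type `(p, q)` satisfy `p + q = w`. -/
def HS.IsPure (M : HS K) (w : ℤ) : Prop := ∀ p q x, M.has p q x → x ≠ 0 → p + q = w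

/-- The level is at most `d`: all nonzero vectors of type `(p, q)` satisfy `|p - q| ≤ d`. -/
def HS.Level (M : HS K) (d : ℤ) : Prop := ∀ p q x, M.has p q x → x ≠ 0 → |p - q| ≤ d

/-- The decomposition into weights is defined over `K`: the conjugates of a vector of type `(p, q)`
are sums of vectors of types `(r, s)` with `r + s = p + q`. (For example pure structures and their
direct sums.) -/
def HS.Weights (M : HS K) : Prop :=
  ∀ (τ : ℂ ≃+* ℂ) (h : Fixes K τ) p q x, M.has p q x →
    M.conj τ h x ∈ Submodule.span ℂ {y | ∃ r s, r + s = p + q ∧ M.has r s y}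

/-- The images of the homomorphisms of Hodge structures from `V`. -/
def HA.homs (X : HA K) (V : HS K) : Set X.A :=
  {x | ∃ (f : Map V X.str) (v : V.V), IsHom f ∧ x = f.ev v}

/-- The algebra is polarisable and generated by the Hodge classes and by the images of `V`. (If `V`
is contained in `H(X)` and `H(X)` is the sum of `V` and of Hodge classes: the powers of `X`.) -/
structure HA.Gens (X : HA K) (V : HS K) : Prop where
  polarisable : X.str.Polarisable
  gen : GenK (K := K) (X.hodge ∪ X.homs V)

end K

end

end Pool.Agent.U233.HG.St
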