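import Pool.Agent.U233.FG.SZ

/-!
# Dual bases of the extreme degrees, and the homomorphism to the small representation
-/

set_option autoImplicit false
set_option linter.unusedSectionVars false

open TensorProduct

namespace Pool.Agent.U233.HG

open Module Pool.Agent.N179.DB Pool.Agent.N179.GR Pool.Agent.U233.FG
open Pool.Agent.N179.DB.S (Cx tens gal bc cx_ind tens_add tens_smul smul_tens exists_tens
  inF_tens bx_apply bc_tens bc_gal gal_add gal_tens)

noncomputable section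

variable {K : Type} [Field K] [Algebra K ℂ] {M : HS K} {w : ℤ}
  {ψ : M.V →ₗ[K] M.V →ₗ[K] K}

theorem nd2 {E : ℂ} (h : Sim M w ψ) (hs : ∀ x y, formC ψ x y = E * formC ψ y x) (y : Cx K M.V)
    (hy : ∀ x, formC ψ x y = 0) : y = 0 := by
  refine h.nd y fun x => ?_
  rw [hs, hy, mul_zero]

/-- **Dual bases.** -/
theorem exists_dual {E : ℂ} (h : Sim M w ψ) (hs : ∀ x y, formC ψ x y = E * formC ψ y x) (d : ℤ) :
    ∃ u c : Fin (finrank ℂ (DG M (RingEquiv.refl ℂ) d)) → Cx K M.V,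
      SoRel.Dual (formC ψ) (DG M (RingEquiv.refl ℂ)) d u c := by
  set A := DG M (RingEquiv.refl ℂ) d with hA
  set A' := DG M (RingEquiv.refl ℂ) (-d) with hA'
  let q : A' →ₗ[ℂ] Dual ℂ A := ((formC ψ).flip.domRestrict A').compr₂ LinearMap.id |>.compr₂
    LinearMap.id |> fun f => (LinearMap.lcomp ℂ ℂ A.subtype).comp f
  let p : A →ₗ[ℂ] Dual ℂ A' := (LinearMap.lcomp ℂ ℂ A'.subtype).comp ((formC ψ).domRestrict A)
  have hq : ∀ (y : A') (x : A), q y x = formC ψ (x : Cx K M.V) (y : Cx K M.V) := fun y x => rfl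
  have hp : ∀ (x : A) (y : A'), p x y = formC ψ (x : Cx K M.V) (y : Cx K M.V) := fun x y => rfl
  have hqi : Function.Injective q := by
    rw [injective_iff_map_eq_zero]
    intro y hy
    refine Subtype.ext (nd2 h hs _ fun x => ?_)
    obtain ⟨s, f, hf, rfl⟩ := dec_EG (b := M.b) (e := M.e) (t := M.t)
      (τ := RingEquiv.refl ℂ) mon_diff x
    rw [map_sum, LinearMap.sum_apply]
    refine Finset.sum_eq_zero fun k _ => ?_
    by_cases hk : k = d
    · subst hk
      exact LinearMap.congr_fun hy (⟨f k, hf k⟩ : A)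
    · exact orth_DG h (fun _ => rfl) (hf k) y.2 (by omega)
  have hpi : Function.Injective p := by
    rw [injective_iff_map_eq_zero]
    intro x hx
    refine Subtype.ext (h.nd _ fun y => ?_)
    obtain ⟨s, f, hf, rfl⟩ := dec_EG (b := M.b) (e := M.e) (t := M.t)
      (τ := RingEquiv.refl ℂ) mon_diff y
    rw [map_sum]
    refine Finset.sum_eq_zero fun k _ => ?_
    by_cases hk : k = -d
    · subst hk
      exact LinearMap.congr_fun hx (⟨f (-d), hf (-d)⟩ : A')
    · exact orth_DG h (fun _ => rfl) x.2 (hf k) (by omega)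
  have h1 : finrank ℂ A' = finrank ℂ (Dual ℂ A) := by
    refine le_antisymm (LinearMap.finrank_le_finrank_of_injective hqi) ?_
    rw [Subspace.dual_finrank_eq]
    have h2 := LinearMap.finrank_le_finrank_of_injective hpi
    rwa [Subspace.dual_finrank_eq] at h2
  have hqs : Function.Surjective q :=
    (LinearMap.injective_iff_surjective_of_finrank_eq_finrank h1).1 hqi
  let B := finBasis ℂ A
  choose c hc using fun i => hqs (B.coord i)
  have hbc : ∀ i j, formC ψ (B i : Cx K M.V) (c j : Cx K M.V) = if i = j then 1 else 0 := by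
    intro i j
    rw [← hq, hc, Basis.coord_apply, Basis.repr_self, Finsupp.single_apply]
  refine ⟨fun i => B i, fun i => c i, ⟨fun i => (B i).2, fun i => (c i).2, fun i => ?_,
    fun i j hij => ?_, ?_, ?_⟩⟩
  · rw [hbc, if_pos rfl]
  · rw [hbc, if_neg hij]
  · intro x hx
    have h2 := congrArg Subtype.val (B.sum_repr ⟨x, hx⟩)
    rw [AddSubmonoidClass.coe_finset_sum] at h2
    change _ = x at h2
    rw [← h2]
    exact Submodule.sum_mem _ fun i _ => Submodule.smul_mem _ _ (Submodule.subset_span ⟨i, rfl⟩)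
  · intro y hy
    have h2 : (⟨y, hy⟩ : A') = ∑ i, formC ψ (B i : Cx K M.V) y • c i := by
      apply hqi
      refine B.ext fun j => ?_
      rw [map_sum, LinearMap.sum_apply, Finset.sum_eq_single j]
      · rw [map_smul, LinearMap.smul_apply, hq, hq, hbc, if_pos rfl, smul_eq_mul, mul_one]
      · intro i _ hij
        rw [map_smul, LinearMap.smul_apply, hq, hbc, if_neg (Ne.symm hij), smul_zero]
      · exact fun h => absurd (Finset.mem_univ j) h
    have h3 := congrArg Subtype.val h2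
    rw [AddSubmonoidClass.coe_finset_sum] at h3
    change y = _ at h3
    rw [h3]
    exact Submodule.sum_mem _ fun i _ => Submodule.smul_mem _ _ (Submodule.subset_span ⟨i, rfl⟩)

section ex

variable {U : HS K} {Φ : Module.End ℂ (Cx K M.V) →ₗ[ℂ] Module.End ℂ (Cx K U.V)}

/-- the symplectic case -/
theorem exists_f_sp (h : Sim M w ψ) {d : ℤ} (hd : 0 < d)
    (hs : ∀ x y, formC ψ x y = -formC ψ y x)
    (h0 : ∀ k, (M.t k).1 - (M.t k).2 ≠ 0)
    (h1 : 1 ≤ finrank ℂ (DG M (RingEquiv.refl ℂ) d))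
    (hU : ∀ k, (U.t k).1 - (U.t k).2 ≤ d ∧ -d ≤ (U.t k).1 - (U.t k).2)
    (hΦ : ∀ g, ∀ X ∈ skewC ψ, Φ (cj (hM M) g X) = cj (hM U) g (Φ X))
    (hbr : ∀ X ∈ skewC ψ, ∀ Y ∈ skewC ψ, Φ (X * Y - Y * X) = Φ X * Φ Y - Φ Y * Φ X)
    (hinj : ∀ X ∈ skewC ψ, Φ X = 0 → X = 0) :
    ∃ f : Cx K M.V →ₗ[ℂ] Cx K U.V, f ≠ 0 ∧
      ∀ x y v, SU ψ (-1) Φ x y (f v) = f (SZ ψ (-1) x y v) := by
  have hs' : ∀ x y, formC ψ x y = (-1) * formC ψ y x := fun x y => by rw [hs, neg_one_mul]
  obtain ⟨u, c, hD⟩ := exists_dual h hs' d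
  let i : Fin (finrank ℂ (DG M (RingEquiv.refl ℂ) d)) := ⟨0, h1⟩
  have hg := graded (E := -1) (by norm_num) hs' hΦ h hd hU
  have hcb : formC ψ (-c i) (u i) = 1 := by
    rw [map_neg, LinearMap.neg_apply, hs, hD.one, neg_neg]
  obtain ⟨f, hf, h2⟩ := exists_sp (spRel hs hbr) hg h.nd (fun v hv => by
    refine (mv M.b M.e (RingEquiv.refl ℂ)).ext_elem fun k => ?_
    rw [map_zero, Finsupp.zero_apply]
    exact (mem_EG' mon_diff).1 hv k (h0 k)) (hD.memu i) (Submodule.neg_mem _ (hD.memc i)) hcb (by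
    intro h3
    have h4 := hinj _ (SZ_mem (by norm_num) hs' (u i) (u i)) h3
    have h5 := LinearMap.congr_fun h4 (c i)
    rw [SZ_apply, hD.one, LinearMap.zero_apply] at h5
    have h6 : (2 : ℂ) • u i = 0 := by
      rw [← h5]
      module
    have h7 := (smul_eq_zero.1 h6).resolve_left two_ne_zero
    rw [h7, map_zero] at hcb
    exact zero_ne_one hcb)
  refine ⟨f, hf, fun x y v => ?_⟩
  rw [h2, SZ_apply]
  congr 1
  module

/-- the orthogonal case -/
theorem exists_f_so (h : Sim M w ψ) {d : ℤ} (hd : 0 < d)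
    (hs : ∀ x y, formC ψ x y = formC ψ y x)
    (hV : ∀ k, (M.t k).1 - (M.t k).2 ≤ d ∧ -d ≤ (M.t k).1 - (M.t k).2)
    (h5 : 5 ≤ finrank ℂ (DG M (RingEquiv.refl ℂ) d))
    (hU : ∀ k, (U.t k).1 - (U.t k).2 ≤ d ∧ -d ≤ (U.t k).1 - (U.t k).2)
    (hΦ : ∀ g, ∀ X ∈ skewC ψ, Φ (cj (hM M) g X) = cj (hM U) g (Φ X))
    (hbr : ∀ X ∈ skewC ψ, ∀ Y ∈ skewC ψ, Φ (X * Y - Y * X) = Φ X * Φ Y - Φ Y * Φ X)
    (hinj : ∀ X ∈ skewC ψ, Φ X = 0 → X = 0) :
    ∃ f : Cx K M.V →ₗ[ℂ] Cx K U.V, f ≠ 0 ∧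
      ∀ x y v, SU ψ 1 Φ x y (f v) = f (SZ ψ 1 x y v) := by
  have hs' : ∀ x y, formC ψ x y = 1 * formC ψ y x := fun x y => by rw [hs, one_mul]
  obtain ⟨u, c, hD⟩ := exists_dual h hs' d
  let i : Fin (finrank ℂ (DG M (RingEquiv.refl ℂ) d)) := ⟨0, by omega⟩
  let j : Fin (finrank ℂ (DG M (RingEquiv.refl ℂ) d)) := ⟨1, by omega⟩
  have hij : i ≠ j := by
    intro h1
    have h2 := congrArg Fin.val h1
    exact absurd h2 (by norm_num [i, j])
  have hg := graded (E := 1) (by norm_num) hs' hΦ h hd hU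
  obtain ⟨f, hf, h2⟩ := exists_so (soRel hs hbr) hg (fun m hm v hv => by
    refine (mv M.b M.e (RingEquiv.refl ℂ)).ext_elem fun k => ?_
    rw [map_zero, Finsupp.zero_apply]
    refine (mem_EG' mon_diff).1 hv k fun hk => ?_
    have h1 := hV k
    rw [hk] at h1
    omega) hD (by rwa [Fintype.card_fin]) hij (by
    intro h3
    have h4 := hinj _ (SZ_mem (by norm_num) hs' (u i) (u j)) h3
    have h5 := LinearMap.congr_fun h4 (c i)
    rw [SZ_apply, hD.one, hD.zero j i hij.symm, LinearMap.zero_apply] at h5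
    have h7 : u j = 0 := by
      rw [← h5]
      module
    have h8 := hD.one j
    rw [h7, map_zero, LinearMap.zero_apply] at h8
    exact zero_ne_one h8)
  refine ⟨f, hf, fun x y v => ?_⟩
  rw [h2, SZ_apply, one_smul]

end ex

end

end Pool.Agent.U233.HG
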