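import Pool.Agent.U233.FG.Sp

/-!
# Gradings
-/

set_option autoImplicit false

namespace Pool.Agent.U233.FG

noncomputable section

variable {F : Type*} [Field F] {V U : Type*} [AddCommGroup V] [Module F V]
  [AddCommGroup U] [Module F U]

/-- Every vector is a sum of homogeneous vectors. -/
def Dec (D : ℤ → Submodule F V) : Prop :=
  ∀ v, ∃ (s : Finset ℤ) (f : ℤ → V), (∀ k, f k ∈ D k) ∧ v = ∑ k ∈ s, f k

/-- The form and the map `S` respect the degrees, and the degrees in `U` are at most `d`. -/
structure Graded (ψ : V →ₗ[F] V →ₗ[F] F) (S : V →ₗ[F] V →ₗ[F] Module.End F U)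
    (DV : ℤ → Submodule F V) (DU : ℤ → Submodule F U) (d : ℤ) : Prop where
  pos : 0 < d
  decV : Dec DV
  decU : Dec DU
  le : ∀ m, (d < m ∨ m < -d) → ∀ u ∈ DU m, u = 0
  deg : ∀ k l m, ∀ a ∈ DV k, ∀ b ∈ DV l, ∀ u ∈ DU m, S a b u ∈ DU (k + l + m)
  orth : ∀ k l, ∀ a ∈ DV k, ∀ b ∈ DV l, k + l ≠ 0 → ψ a b = 0

namespace Graded

variable {ψ : V →ₗ[F] V →ₗ[F] F} {S : V →ₗ[F] V →ₗ[F] Module.End F U}
    {DV : ℤ → Submodule F V} {DU : ℤ → Submodule F U} {d : ℤ}

/-- two operators which agree on the homogeneous vectors -/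
theorem ext (h : Graded ψ S DV DU d) {X Y : Module.End F U}
    (hX : ∀ m, ∀ u ∈ DU m, X u = Y u) : X = Y := by
  refine LinearMap.ext fun u => ?_
  obtain ⟨s, f, hf, rfl⟩ := h.decU u
  rw [map_sum, map_sum]
  exact Finset.sum_congr rfl fun k _ => hX k _ (hf k)

/-- operators of large degree vanish -/
theorem zero_of_deg (h : Graded ψ S DV DU d) {X : Module.End F U} {n : ℤ}
    (hX : ∀ m, ∀ u ∈ DU m, X u ∈ DU (n + m)) (hn : 2 * d < n ∨ n < -(2 * d)) : X = 0 := by
  refine h.ext fun m u hu => ?_
  rw [LinearMap.zero_apply]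
  by_cases hm : d < m ∨ m < -d
  · rw [h.le m hm u hu, map_zero]
  · push Not at hm
    refine h.le (n + m) ?_ _ (hX m u hu)
    omega

/-- the homogeneous components of a vector in the complement -/
theorem orth_dec (h : Graded ψ S DV DU d) {b c : V} (hb : b ∈ DV d) (hc : c ∈ DV (-d)) {e : V}
    (he : Orth ψ b c e) : ∃ (s : Finset ℤ) (f : ℤ → V), (∀ k, f k ∈ DV k) ∧
      (∀ k, Orth ψ b c (f k)) ∧ e = ∑ k ∈ s, f k := by
  classical
  obtain ⟨s, f, hf, rfl⟩ := h.decV e
  have key : ∀ x : V, ∀ k₀ : ℤ, (∀ k, k ≠ k₀ → ψ x (f k) = 0) → ψ x (∑ k ∈ s, f k) = 0 →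
      ∀ k ∈ s, ψ x (f k) = 0 := by
    intro x k₀ h1 h2 k hk
    by_cases hkk : k = k₀
    · subst hkk
      rwa [map_sum, Finset.sum_eq_single_of_mem k hk fun l _ hl => h1 l hl] at h2
    · exact h1 k hkk
  have h1 := key b (-d) (fun k hk => h.orth d k b hb _ (hf k) (by omega)) he.1
  have h2 := key c d (fun k hk => h.orth (-d) k c hc _ (hf k) (by omega)) he.2
  refine ⟨s, fun k => if k ∈ s then f k else 0, fun k => ?_, fun k => ?_, ?_⟩
  · beta_reduce
    split_ifs
    · exact hf k
    · exact Submodule.zero_mem _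
  · beta_reduce
    split_ifs with hk
    · exact ⟨h1 k hk, h2 k hk⟩
    · exact ⟨map_zero _, map_zero _⟩
  · refine Finset.sum_congr rfl fun k hk => ?_
    exact (if_pos hk).symm

end Graded

/-- **The symplectic case.** -/
theorem exists_sp [CharZero F] {ψ : V →ₗ[F] V →ₗ[F] F} {S : V →ₗ[F] V →ₗ[F] Module.End F U}
    {DV : ℤ → Submodule F V} {DU : ℤ → Submodule F U} {d : ℤ} (h : SpRel ψ S)
    (hg : Graded ψ S DV DU d) (hnd : ∀ x, (∀ y, ψ x y = 0) → x = 0)
    (h00 : ∀ v ∈ DV 0, v = 0) {b c : V} (hb : b ∈ DV d) (hc : c ∈ DV (-d)) (hcb : ψ c b = 1)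
    (hS : S b b ≠ 0) : ∃ f : V →ₗ[F] U, f ≠ 0 ∧ ∀ x y v, S x y (f v) = f (ψ x v • y + ψ y v • x) := by
  have hbc : ψ b c = -1 := by rw [h.alt, hcb]
  have hd := hg.pos
  have hT : S b b * S b b = 0 := by
    refine hg.zero_of_deg (n := d + d + (d + d)) (fun m u hu => ?_) (Or.inl (by omega))
    have h1 := hg.deg d d _ b hb b hb _ (hg.deg d d m b hb b hb u hu)
    rw [← add_assoc] at h1
    rwa [Module.End.mul_apply]
  have hC : S c c * S c c = 0 := by
    refine hg.zero_of_deg (n := -d + -d + (-d + -d)) (fun m u hu => ?_) (Or.inr (by omega))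
    have h1 := hg.deg (-d) (-d) _ c hc c hc _ (hg.deg (-d) (-d) m c hc c hc u hu)
    rw [← add_assoc] at h1
    rwa [Module.End.mul_apply]
  -- positive degrees
  have hp : ∀ k l e e', e ∈ DV k → e' ∈ DV l → 0 < k + l → S e e' * S b b = 0 := by
    intro k l e e' he he' hkl
    refine hg.zero_of_deg (n := k + l + (d + d)) (fun m u hu => ?_) (Or.inl (by omega))
    have h1 := hg.deg k l _ e he e' he' _ (hg.deg d d m b hb b hb u hu)
    rw [← add_assoc] at h1
    rwa [Module.End.mul_apply]
  -- negative degrees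
  have hn : ∀ k l e e', Orth ψ b c e → Orth ψ b c e' → e ∈ DV k → e' ∈ DV l → k + l < 0 →
      S e e' * S b b = 0 := by
    intro k l e e' ho ho' he he' hkl
    have hcomm : S e e' * S b b = S b b * S e e' := by
      have h2 := h.br e e' b b
      have h3 : ψ e b = 0 := by rw [h.alt, ho.1, neg_zero]
      have h4 : ψ e' b = 0 := by rw [h.alt, ho'.1, neg_zero]
      rw [h3, h4] at h2
      simp only [zero_smul, add_zero] at h2
      exact sub_eq_zero.1 h2
    refine hg.ext fun m u hu => ?_
    rw [LinearMap.zero_apply]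
    by_cases hm : -d < m
    · rw [Module.End.mul_apply, hg.le _ (Or.inl (by omega)) _ (hg.deg d d m b hb b hb u hu),
        map_zero]
    · rw [hcomm, Module.End.mul_apply,
        hg.le _ (Or.inr (by omega)) _ (hg.deg k l m e he e' he' u hu), map_zero]
  -- degree zero
  have hz : ∀ k e e', 0 < k → Orth ψ b c e → Orth ψ b c e' → e ∈ DV k → e' ∈ DV (-k) →
      S e e' * S b b = 0 := by
    intro k e e' hk ho ho' he he'
    have key : ∀ e, Orth ψ b c e → e ∈ DV k → ψ e' e ≠ 0 → S e' e * S b b = 0 := by
      intro e ho he hne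
      have h1 := h.comm e' e' e e (S b b)
      rw [hp k k e e he he (by omega), hn (-k) (-k) e' e' ho' ho' he' he' (by omega), mul_zero,
        mul_zero, zero_add] at h1
      have h2 : (4 * ψ e' e) • (S e' e * S b b) = 0 := by
        rw [h1]
        module
      exact (smul_eq_zero.1 h2).resolve_left (mul_ne_zero (by norm_num) hne)
    rw [h.symm]
    by_cases h1 : ψ e' e = 0
    · by_cases h2 : e' = 0
      · rw [h2, map_zero, LinearMap.zero_apply, zero_mul]
      · obtain ⟨x, hx⟩ : ∃ x, ψ e' x ≠ 0 := by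
          by_contra hcon
          push Not at hcon
          exact h2 (hnd _ hcon)
        obtain ⟨s, f, hf, rfl⟩ := hg.decV x
        obtain ⟨i, hi⟩ : ∃ i, ψ e' (f i) ≠ 0 := by
          by_contra hcon
          push Not at hcon
          apply hx
          rw [map_sum]
          exact Finset.sum_eq_zero fun i _ => hcon i
        have hik : i = k := by
          by_contra hcon
          exact hi (hg.orth (-k) i e' he' _ (hf i) (by omega))
        subst hik
        let x' : V := f i - ψ c (f i) • b + ψ b (f i) • c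
        have hx'o : Orth ψ b c x' := by
          constructor
          · simp only [x']
            rw [map_add, map_sub, map_smul, map_smul, h.self, hbc]
            simp
          · simp only [x']
            rw [map_add, map_sub, map_smul, map_smul, h.self, hcb]
            simp
        have hx'i : x' ∈ DV i := by
          refine Submodule.add_mem _ (Submodule.sub_mem _ (hf i) ?_) ?_
          · by_cases hid : i = d
            · subst hid
              exact Submodule.smul_mem _ _ hb
            · rw [hg.orth (-d) i c hc _ (hf i) (by omega), zero_smul]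
              exact Submodule.zero_mem _
          · by_cases hid : i = -d
            · subst hid
              exact Submodule.smul_mem _ _ hc
            · rw [hg.orth d i b hb _ (hf i) (by omega), zero_smul]
              exact Submodule.zero_mem _
        have hx'e : ψ e' x' ≠ 0 := by
          have h3 : ψ e' b = 0 := by rw [h.alt, ho'.1, neg_zero]
          have h4 : ψ e' c = 0 := by rw [h.alt, ho'.2, neg_zero]
          simp only [x']
          rw [map_add, map_sub, map_smul, map_smul, h3, h4]
          simpa using hi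
        have h5 := key x' hx'o hx'i hx'e
        have h6 := key (e + x') ⟨by rw [map_add, ho.1, hx'o.1, add_zero],
          by rw [map_add, ho.2, hx'o.2, add_zero]⟩ (Submodule.add_mem _ he hx'i)
          (by rw [map_add, h1, zero_add]; exact hx'e)
        rw [map_add, add_mul, h5, add_zero] at h6
        exact h6
    · exact key e ho he h1
  obtain ⟨H, hH, hHb⟩ := h.exists_map hcb hT hC (by
    intro e e' ho ho'
    obtain ⟨s, f, hf, hfo, rfl⟩ := hg.orth_dec hb hc ho
    obtain ⟨s', f', hf', hfo', rfl⟩ := hg.orth_dec hb hc ho'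
    rw [map_sum, Finset.sum_mul]
    refine Finset.sum_eq_zero fun l _ => ?_
    rw [map_sum, LinearMap.sum_apply, Finset.sum_mul]
    refine Finset.sum_eq_zero fun k _ => ?_
    rcases lt_trichotomy (k + l) 0 with hkl | hkl | hkl
    · exact hn k l _ _ (hfo k) (hfo' l) (hf k) (hf' l) hkl
    · rcases lt_trichotomy k 0 with hk | hk | hk
      · obtain rfl : k = -l := by omega
        rw [h.symm]
        exact hz l _ _ (by omega) (hfo' l) (hfo _) (hf' l) (hf _)
      · have h1 : f k = 0 := h00 (f k) (by
          have h2 := hf k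
          exact (congrArg (fun n => f k ∈ DV n) hk).mp h2)
        rw [h1, map_zero, LinearMap.zero_apply, zero_mul]
      · obtain rfl : l = -k := by omega
        exact hz k _ _ hk (hfo k) (hfo' _) (hf k) (hf' _)
    · exact hp k l _ _ (hf k) (hf' l) hkl)
  obtain ⟨z, hz'⟩ : ∃ z, S b b z ≠ 0 := by
    by_contra hcon
    push Not at hcon
    exact hS (LinearMap.ext hcon)
  refine ⟨(LinearMap.applyₗ z).comp H, fun h0 => hz' ?_, fun x y v => ?_⟩
  · have h1 := LinearMap.congr_fun h0 b
    rw [LinearMap.comp_apply, LinearMap.applyₗ_apply_apply, hHb, LinearMap.zero_apply,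
      LinearMap.smul_apply] at h1
    exact (smul_eq_zero.1 h1).resolve_left two_ne_zero
  · have h1 := LinearMap.congr_fun (hH x y v) z
    exact h1

end

end Pool.Agent.U233.FG
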