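import Pool.Agent.U233.FG.Irr
import Pool.Agent.U233.FG.Gr

/-!
# The gradings given by the operators
-/

set_option autoImplicit false
set_option linter.unusedSectionVars false

open TensorProduct

namespace Pool.Agent.U233.HG

open Module Pool.Agent.N179.DB Pool.Agent.N179.GR Pool.Agent.U233.FG

noncomputable section

/-- the unit `2` -/
def two : ℂˣ := Units.mk0 2 two_ne_zero

theorem two_inj {m n : ℤ} (h : (two ^ m : ℂˣ) = two ^ n) : m = n := two_zpow_inj h

theorem two_inj' {m n : ℤ} (h : ((two ^ m : ℂˣ) : ℂ) = (two ^ n : ℂˣ)) : m = n :=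
  two_inj (Units.ext h)

theorem mon_diff (r : ℤ × ℤ) : mon two two⁻¹ r = two ^ (r.1 - r.2) := by
  unfold mon
  rw [inv_zpow', ← zpow_add, sub_eq_add_neg]

theorem mon_sum (r : ℤ × ℤ) : mon two two r = two ^ (r.1 + r.2) := by
  unfold mon
  rw [← zpow_add]

/-- the components of a vector in a stable subspace -/
theorem comp_mem {W : Type*} [AddCommGroup W] [Module ℂ W] {D : W →ₗ[ℂ] W} {A : Submodule ℂ W}
    (hA : ∀ x ∈ A, D x ∈ A) (s : Finset ℤ) : ∀ f : ℤ → W,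
      (∀ m ∈ s, D (f m) = ((two ^ m : ℂˣ) : ℂ) • f m) → ∑ m ∈ s, f m ∈ A → ∀ m ∈ s, f m ∈ A := by
  classical
  induction s using Finset.induction_on with
  | empty => exact fun f _ _ m hm => absurd hm (Finset.notMem_empty m)
  | insert a s ha ih =>
    intro f hf hF
    have h1 : D (∑ m ∈ insert a s, f m) - ((two ^ a : ℂˣ) : ℂ) • ∑ m ∈ insert a s, f m ∈ A :=
      A.sub_mem (hA _ hF) (A.smul_mem _ hF)
    have h2 : D (∑ m ∈ insert a s, f m) - ((two ^ a : ℂˣ) : ℂ) • ∑ m ∈ insert a s, f m =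
        ∑ m ∈ s, (((two ^ m : ℂˣ) : ℂ) - ((two ^ a : ℂˣ) : ℂ)) • f m := by
      rw [map_sum, Finset.smul_sum, ← Finset.sum_sub_distrib, Finset.sum_insert ha,
        hf a (Finset.mem_insert_self a s), sub_self, zero_add]
      refine Finset.sum_congr rfl fun m hm => ?_
      rw [hf m (Finset.mem_insert_of_mem hm), sub_smul]
    rw [h2] at h1
    have h3 : ∀ m ∈ s, f m ∈ A := by
      intro m hm
      have h4 := ih (fun m => (((two ^ m : ℂˣ) : ℂ) - ((two ^ a : ℂˣ) : ℂ)) • f m) (fun m hm => by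
        rw [map_smul, hf m (Finset.mem_insert_of_mem hm), smul_comm]) h1 m hm
      have hne : ((two ^ m : ℂˣ) : ℂ) - ((two ^ a : ℂˣ) : ℂ) ≠ 0 := by
        intro h5
        rw [sub_eq_zero] at h5
        have h6 := two_inj' h5
        subst h6
        exact ha hm
      have h5 := A.smul_mem (((two ^ m : ℂˣ) : ℂ) - ((two ^ a : ℂˣ) : ℂ))⁻¹ h4
      rwa [smul_smul, inv_mul_cancel₀ hne, one_smul] at h5
    intro m hm
    rcases Finset.mem_insert.1 hm with rfl | hm
    · rw [Finset.sum_insert ha] at hF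
      have h4 := A.sub_mem hF (A.sum_mem h3)
      rwa [add_sub_cancel_right] at h4
    · exact h3 m hm

section gen

variable {V : Type*} [AddCommGroup V] [Module ℂ V] {ι κ : Type*} [Fintype ι] [Fintype κ]
  (b : Basis ι ℂ V) (e : Basis κ ℂ V) (t : κ → ℤ × ℤ)

/-- the eigenvectors of one of the operators -/
def EG (τ : ℂ ≃+* ℂ) (z w : ℂˣ) (m : ℤ) : Submodule ℂ V where
  carrier := {x | Dg b e t τ z w x = ((two ^ m : ℂˣ) : ℂ) • x}
  zero_mem' := by
    rw [Set.mem_setOf_eq, map_zero, smul_zero]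
  add_mem' := fun {x y} hx hy => by
    rw [Set.mem_setOf_eq] at hx hy ⊢
    rw [map_add, hx, hy, smul_add]
  smul_mem' := fun c x hx => by
    rw [Set.mem_setOf_eq] at hx ⊢
    rw [map_smul, hx, smul_comm]

variable {b e t}

theorem mem_EG {τ : ℂ ≃+* ℂ} {z w : ℂˣ} {m : ℤ} {x : V} :
    x ∈ EG b e t τ z w m ↔ Dg b e t τ z w x = ((two ^ m : ℂˣ) : ℂ) • x := Iff.rfl

theorem mem_EG' {τ : ℂ ≃+* ℂ} {z w : ℂˣ} {δ : ℤ × ℤ → ℤ} (hδ : ∀ r, mon z w r = two ^ δ r)
    {m : ℤ} {x : V} :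
    x ∈ EG b e t τ z w m ↔ ∀ k, δ (t k) ≠ m → (mv b e τ).repr x k = 0 := by
  rw [mem_EG]
  constructor
  · intro h k hk
    have h1 := DFunLike.congr_fun (congrArg (mv b e τ).repr h) k
    rw [Dg_repr, map_smul, Finsupp.smul_apply, smul_eq_mul, hδ] at h1
    by_contra h0
    exact hk (two_inj' (mul_right_cancel₀ h0 h1))
  · intro h
    refine (mv b e τ).ext_elem fun k => ?_
    rw [Dg_repr, map_smul, Finsupp.smul_apply, smul_eq_mul, hδ]
    by_cases hk : δ (t k) = m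
    · rw [hk]
    · rw [h k hk, mul_zero, mul_zero]

/-- every vector is a sum of eigenvectors -/
theorem dec_EG {τ : ℂ ≃+* ℂ} {z w : ℂˣ} {δ : ℤ × ℤ → ℤ} (hδ : ∀ r, mon z w r = two ^ δ r) :
    Dec (EG b e t τ z w) := by
  classical
  intro v
  refine ⟨Finset.univ.image (fun k => δ (t k)), fun m => ∑ k ∈ Finset.univ.filter
    (fun k => δ (t k) = m), (mv b e τ).repr v k • mv b e τ k, fun m => ?_, ?_⟩
  · refine Submodule.sum_mem _ fun k hk => Submodule.smul_mem _ _ ?_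
    rw [mem_EG, Dg_mv, hδ, (Finset.mem_filter.1 hk).2]
  · conv_lhs => rw [← (mv b e τ).sum_repr v]
    rw [Finset.sum_fiberwise_of_maps_to]
    exact fun k _ => Finset.mem_image_of_mem _ (Finset.mem_univ k)

theorem sl_EG {σ τ : ℂ ≃+* ℂ} {z w : ℂˣ} {δ : ℤ × ℤ → ℤ} (hδ : ∀ r, mon z w r = two ^ δ r)
    {m : ℤ} {x : V} (hx : x ∈ EG b e t τ z w m) : sl b σ x ∈ EG b e t (τ.trans σ) z w m := by
  rw [mem_EG' hδ] at hx ⊢
  intro k hk
  have h1 : x = ∑ l, (mv b e τ).repr x l • mv b e τ l := ((mv b e τ).sum_repr x).symm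
  have h2 : sl b σ x = ∑ l, σ ((mv b e τ).repr x l) • mv b e (τ.trans σ) l := by
    conv_lhs => rw [h1]
    rw [sl_sum]
    refine Finset.sum_congr rfl fun l _ => ?_
    rw [mv_apply, mv_apply, sl_comp]
  rw [h2, (mv b e (τ.trans σ)).repr_sum_self, hx k hk, map_zero]

theorem mv_refl_repr (x : V) (k : κ) : (mv b e (RingEquiv.refl ℂ)).repr x k = e.repr x k := by
  have h1 := mv_repr b e (RingEquiv.refl ℂ) x k
  rw [sl_refl] at h1
  exact h1

theorem mv_repr' (τ : ℂ ≃+* ℂ) (x : V) (k : κ) :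
    e.repr (sl b τ.symm x) k = τ.symm ((mv b e τ).repr x k) := by
  have h1 := mv_repr b e τ (sl b τ.symm x) k
  rw [sl_symm'] at h1
  rw [h1, RingEquiv.symm_apply_apply]

end gen

/-- the vectors `x` of degree `p - q = m` with respect to `τ` -/
def DG {K : Type} [Field K] [Algebra K ℂ] (M : HS K) (τ : ℂ ≃+* ℂ) (m : ℤ) :
    Submodule ℂ (Pool.Agent.N179.DB.S.Cx K M.V) := EG M.b M.e M.t τ two two⁻¹ m

end

end Pool.Agent.U233.HG
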