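import Pool.Agent.U233.FG.Sim

/-!
# The skew operators form an irreducible representation
-/

set_option autoImplicit false
set_option linter.unusedSectionVars false

open TensorProduct

namespace Pool.Agent.U233.HG

open Module Pool.Agent.N179.DB Pool.Agent.N179.GR Pool.Agent.U233.FG
open Pool.Agent.N179.GR.S (GRep fl)
open Pool.Agent.N179.DB.S (Cx tens gal bc cx_ind tens_add tens_smul smul_tens exists_tens
  inF_tens bx_apply bc_tens bc_gal gal_add gal_tens)

noncomputable section

variable {K : Type} [Field K] [Algebra K ℂ]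

instance fdI (M : HS K) : FiniteDimensional ℂ (Cx K M.V) := M.fdC

/-- the representation -/
def hM (M : HS K) : HGp K →* Module.End ℂ (Cx K M.V) := S.GRep.hom (rep M)

theorem hM_apply (M : HS K) (g : HGp K) (x : Cx K M.V) : hM M g x = rM M g x := rfl

theorem cj_hM (M : HS K) (g : HGp K) (X : Module.End ℂ (Cx K M.V)) (v : Cx K M.V) :
    cj (hM M) g X v = rM M g (X (rM M g⁻¹ v)) := rfl

theorem opM_cj (M : HS K) (g : HGp K) (A : Cx K M.endo.V) :
    (show Module.End ℂ (Cx K M.V) from opM M (rM M.endo g A)) =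
      cj (hM M) g (show Module.End ℂ (Cx K M.V) from opM M A) := opM_act M g A

theorem rM_inv (M : HS K) (g : HGp K) (x : Cx K M.V) : rM M g⁻¹ (rM M g x) = x :=
  inv_apply' M.b M.e M.t g x

theorem rM_inv' (M : HS K) (g : HGp K) (x : Cx K M.V) : rM M g (rM M g⁻¹ x) = x :=
  apply_inv' M.b M.e M.t g x

section

variable {M : HS K} {w : ℤ} {ψ : M.V →ₗ[K] M.V →ₗ[K] K} (h : Sim M w ψ) {ε : K}
  (hε : ε * ε = 1) (hs : ∀ x y, ψ x y = ε * ψ y x)

include h

/-- the skew operators are stable -/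
theorem skew_stab : Stab (cj (hM M)) (skewC ψ) := by
  intro g X hX x y
  rw [cj_hM, cj_hM]
  have h1 := hX (rM M g⁻¹ x) (rM M g⁻¹ y)
  have h2 : ∀ x y, formC ψ (rM M g x) y = ((chi K g ^ w : ℂˣ) : ℂ) * formC ψ x (rM M g⁻¹ y) :=
    form_rho' h g
  have h3 : formC ψ x (rM M g (X (rM M g⁻¹ y))) =
      ((chi K g ^ w : ℂˣ) : ℂ) * formC ψ (rM M g⁻¹ x) (X (rM M g⁻¹ y)) := by
    rw [← form_rho h, rM_inv']
  rw [h2, h3, ← mul_add, h1, mul_zero]

include hε hs

theorem star_equi (g : HGp K) (A : Cx K M.endo.V) :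
    starC h.nd (rM M.endo g A) = rM M.endo g (starC h.nd A) := by
  apply (opM M).injective
  refine LinearMap.ext fun y => ?_
  rw [← sub_eq_zero]
  refine nd' h.nd hε hs _ fun x => ?_
  have e1 : ∀ A x, opM M (rM M.endo g A) x = rM M g (opM M A (rM M g⁻¹ x)) := fun A x =>
    LinearMap.congr_fun (opM_cj M g A) x
  rw [map_sub, adj_C' h.nd hε hs, e1, e1, form_rho' h]
  have h3 : formC ψ x (rM M g (opM M (starC h.nd A) (rM M g⁻¹ y))) =
      ((chi K g ^ w : ℂˣ) : ℂ) * formC ψ (rM M g⁻¹ x) (opM M (starC h.nd A) (rM M g⁻¹ y)) := by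
    rw [← form_rho h, rM_inv']
  rw [h3, adj_C' h.nd hε hs, sub_self]

theorem pC_equi (g : HGp K) (A : Cx K M.endo.V) :
    pC h.nd (rM M.endo g A) = rM M.endo g (pC h.nd A) := by
  rw [pC_eq, pC_eq, star_equi h hε hs, map_smul, map_sub]

theorem pK_hom : IsHom (M := M.endo) (N := M.endo) (pK h.nd) :=
  isHom_of_equi _ fun g x => pC_equi h hε hs g x

variable [CharZero K]

/-- **The skew operators form an irreducible representation.** -/
theorem irr (hfull : ∀ f : M.endo.V →ₗ[K] M.endo.V, IsHom (M := M.endo) (N := M.endo) f →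
      (∀ X, f X ∈ skewK ψ) → ∃ c : K, ∀ X ∈ skewK ψ, f X = c • X)
    (hss : SemiS (cj (hM M))) (A : Submodule ℂ (Module.End ℂ (Cx K M.V)))
    (hA : Stab (cj (hM M)) A) (hle : A ≤ skewC ψ) : A = ⊥ ∨ A = skewC ψ := by
  obtain ⟨q, hq1, hq2, hq3⟩ := hss.exists_proj hA
  let F : Cx K M.endo.V →ₗ[ℂ] Cx K M.endo.V :=
    ((opM M).symm.toLinearMap.comp
      (show (Cx K M.V →ₗ[ℂ] Cx K M.V) →ₗ[ℂ] (Cx K M.V →ₗ[ℂ] Cx K M.V) from q)).comp (opL M)
  have hF : ∀ y, (show Module.End ℂ (Cx K M.V) from opM M (F y)) =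
      q (show Module.End ℂ (Cx K M.V) from opM M y) := fun y => (opM M).apply_symm_apply _
  have hequi : ∀ g y, F (rM M.endo g y) = rM M.endo g (F y) := by
    intro g y
    apply (opM M).injective
    have h6 : (show Module.End ℂ (Cx K M.V) from opM M (F (rM M.endo g y))) =
        q (cj (hM M) g (show Module.End ℂ (Cx K M.V) from opM M y)) :=
      (hF _).trans (congrArg q (opM_cj M g y))
    have h7 : (show Module.End ℂ (Cx K M.V) from opM M (rM M.endo g (F y))) =
        cj (hM M) g (q (show Module.End ℂ (Cx K M.V) from opM M y)) :=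
      (opM_cj M g (F y)).trans (congrArg (cj (hM M) g) (hF y))
    have h8 := h6.trans ((hq3 g _).trans h7.symm)
    exact h8
  have h1 := pot_hom (M := M.endo) (N := M.endo) F ⊤ inferInstance (by
    intro g _ (y : Cx K M.endo.V)
    have h2 : (rep M.endo).ap g y = rM M.endo g y := rfl
    have h3 : (rep M.endo).ap g (F y) = rM M.endo g (F y) := rfl
    exact (congrArg F h2).trans ((hequi g y).trans h3.symm))
  -- the composition with the projection is a multiple of the identity on the skew operators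
  let N : Submodule ℂ (Cx K M.endo.V →ₗ[ℂ] Cx K M.endo.V) :=
    { carrier := {f | ∃ c : ℂ, ∀ X, (show Module.End ℂ (Cx K M.V) from opM M X) ∈ skewC ψ →
        pC h.nd (f X) = c • X}
      zero_mem' := ⟨0, fun X _ => by rw [LinearMap.zero_apply, map_zero, zero_smul]⟩
      add_mem' := by
        rintro f f' ⟨c, hc⟩ ⟨c', hc'⟩
        exact ⟨c + c', fun X hX => by rw [LinearMap.add_apply, map_add, hc X hX, hc' X hX,
          add_smul]⟩
      smul_mem' := by
        rintro a f ⟨c, hc⟩
        exact ⟨a * c, fun X hX => by rw [LinearMap.smul_apply, map_smul, hc X hX, smul_smul]⟩ }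
  have hN : F ∈ N := by
    refine (Submodule.span_le.2 ?_) h1
    rintro _ ⟨P, hP, rfl⟩
    obtain ⟨c, hc⟩ := hfull ((pK h.nd).comp P) (fun p r x hx => by
      have h2 : bc ((pK h.nd).comp P) x = pC h.nd (bc P x) := by
        refine cx_ind (p := fun x => bc ((pK h.nd).comp P) x = pC h.nd (bc P x)) ?_ (fun r c => rfl)
          (fun a b ha hb => ?_) x
        · rw [map_zero, map_zero, map_zero]
        · rw [map_add, map_add, map_add, ha, hb]
      rw [h2]
      exact pK_hom h hε hs p r _ (hP p r x hx)) fun X => pK_mem h.nd hε hs _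
    refine ⟨algebraMap K ℂ c, fun X hX => ?_⟩
    -- a skew operator is a combination of rational ones
    have key : ∀ Y : Cx K M.endo.V, pC h.nd (bc P (pC h.nd Y)) =
        algebraMap K ℂ c • pC h.nd Y := by
      intro Y
      refine endo_ind (p := fun Y => pC h.nd (bc P (pC h.nd Y)) =
        algebraMap K ℂ c • pC h.nd Y) ?_ (fun r Y => ?_) (fun a b ha hb => ?_) Y
      · rw [map_zero, map_zero, map_zero, smul_zero]
      · have h2 : (pK h.nd).comp P (pK h.nd Y) = c • pK h.nd Y := hc _ (pK_mem h.nd hε hs Y)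
        have h3 : pC h.nd (tens r Y : Cx K (M.V →ₗ[K] M.V)) = tens r (pK h.nd Y) := rfl
        have h4 : pC h.nd (bc P (tens r (pK h.nd Y))) = tens r (pK h.nd (P (pK h.nd Y))) := rfl
        rw [h3, h4]
        have h5 : pK h.nd (P (pK h.nd Y)) = c • pK h.nd Y := h2
        rw [h5, tens_smul, smul_tens]
      · rw [map_add, map_add, map_add, ha, hb, smul_add]
    have h2 := key X
    rwa [pC_fix h.nd hε hs hX] at h2
  obtain ⟨c, hc⟩ := hN
  have hq : ∀ Y ∈ skewC ψ, q Y = c • Y := by
    intro Y hY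
    obtain ⟨X, hX⟩ := (opM M).surjective (show Cx K M.V →ₗ[ℂ] Cx K M.V from Y)
    have hX' : (show Module.End ℂ (Cx K M.V) from opM M X) = Y := hX
    have h2 := hc X (by rw [hX']; exact hY)
    have h3 : pC h.nd (F X) = F X := by
      refine pC_fix h.nd hε hs ?_
      rw [hF]
      exact hle (hq2 _)
    rw [h3] at h2
    have h4 := hF X
    rw [h2, hX'] at h4
    rw [← h4]
    have h5 : opM M (c • X) = c • opM M X := map_smul _ _ _
    exact h5.trans (congrArg (fun Z => c • Z) hX)
  by_cases hc0 : c = 0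
  · left
    rw [eq_bot_iff]
    intro Y hY
    rw [Submodule.mem_bot, ← hq1 Y hY, hq Y (hle hY), hc0, zero_smul]
  · right
    refine le_antisymm hle fun Y hY => ?_
    have h2 : c⁻¹ • q Y ∈ A := Submodule.smul_mem _ _ (hq2 Y)
    rwa [hq Y hY, smul_smul, inv_mul_cancel₀ hc0, one_smul] at h2

end

/-- the core consists of skew operators -/
theorem core_le_skew {M : HS K} {w : ℤ} {ψ : M.V →ₗ[K] M.V →ₗ[K] K} (h : Sim M w ψ) :
    core (full (Cx K M.V) (hM M)) ≤ skewC ψ := by
  intro X hX x y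
  obtain ⟨D, hD, rfl⟩ := mem_core.1 hX 1
  exact skew_of_form (t := hM M) (μ := (chi K) ^ w) (B := formC ψ) (fun g x y => by
    rw [MonoidHom.zpow_apply]
    exact form_rho h g x y) hD x y

end

end Pool.Agent.U233.HG
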