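import Pool.Agent.U233.FG.Dual

/-!
# The intertwining maps respect the types
-/

set_option autoImplicit false
set_option linter.unusedSectionVars false

open TensorProduct

namespace Pool.Agent.U233.HG

open Module Pool.Agent.N179.DB Pool.Agent.N179.GR Pool.Agent.U233.FG
open Pool.Agent.N179.DB.S (Cx tens gal bc cx_ind tens_add tens_smul smul_tens exists_tens
  inF_tens bx_apply bc_tens bc_gal gal_add gal_tens)

noncomputable section

variable {K : Type} [Field K] [Algebra K ℂ]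

/-- The decomposition into weights is defined over `K`. -/
def Wt (M : HS K) : Prop := ∀ τ : ℂ ≃+* ℂ, FixK K τ → ∀ x : Cx K M.V,
  Dg M.b M.e M.t τ two two x = Dg M.b M.e M.t (RingEquiv.refl ℂ) two two x

theorem refl_trans' (τ : ℂ ≃+* ℂ) : (RingEquiv.refl ℂ).trans τ = τ := by
  ext x
  rfl

theorem Dg_comm {V : Type*} [AddCommGroup V] [Module ℂ V] {ι κ : Type*} [Fintype ι] [Fintype κ]
    (b : Basis ι ℂ V) (e : Basis κ ℂ V) (t : κ → ℤ × ℤ) (τ : ℂ ≃+* ℂ) (z w z' w' : ℂˣ) (x : V) :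
    Dg b e t τ z w (Dg b e t τ z' w' x) = Dg b e t τ z' w' (Dg b e t τ z w x) := by
  rw [← Dg_mul, ← Dg_mul, mul_comm z, mul_comm w]

theorem wt_of_pure {M : HS K} {w : ℤ} (h : ∀ k, (M.t k).1 + (M.t k).2 = w) : Wt M := by
  have key : ∀ (τ : ℂ ≃+* ℂ) (x : Cx K M.V), Dg M.b M.e M.t τ two two x =
      ((two ^ w : ℂˣ) : ℂ) • x := by
    intro τ x
    refine (mv M.b M.e τ).ext_elem fun k => ?_
    rw [Dg_repr, map_smul, Finsupp.smul_apply, smul_eq_mul, mon_sum, h]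
  intro τ _ x
  rw [key, key]

/-- the operators on the homomorphisms -/
abbrev DH (M U : HS K) (τ : ℂ ≃+* ℂ) (z w : ℂˣ) :
    (Cx K M.V →ₗ[ℂ] Cx K U.V) ≃ₗ[ℂ] (Cx K M.V →ₗ[ℂ] Cx K U.V) :=
  Dg (M.b.linearMap U.b) (M.e.linearMap U.e) (th M.t U.t) τ z w

theorem DH_apply (M U : HS K) (τ : ℂ ≃+* ℂ) (z w : ℂˣ) (f : Cx K M.V →ₗ[ℂ] Cx K U.V)
    (x : Cx K M.V) : DH M U τ z w f (Dg M.b M.e M.t τ z w x) = Dg U.b U.e U.t τ z w (f x) :=
  Dg_hom M.b M.e U.b U.e M.t U.t τ z w f x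

theorem DH_wt {M U : HS K} (hM : Wt M) (hU : Wt U) {τ : ℂ ≃+* ℂ} (hτ : FixK K τ)
    (f : Cx K M.V →ₗ[ℂ] Cx K U.V) :
    DH M U τ two two f = DH M U (RingEquiv.refl ℂ) two two f := by
  refine LinearMap.ext fun x => ?_
  obtain ⟨y, rfl⟩ := (Dg M.b M.e M.t τ two two).surjective x
  rw [DH_apply, hU τ hτ, hM τ hτ, DH_apply]

section it

variable {M U : HS K} {w : ℤ} {ψ : M.V →ₗ[K] M.V →ₗ[K] K} {E : ℂ}
  {Φ : Module.End ℂ (Cx K M.V) →ₗ[ℂ] Module.End ℂ (Cx K U.V)}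

variable (ψ E Φ) in
/-- the intertwining maps -/
def IT : Submodule ℂ (Cx K M.V →ₗ[ℂ] Cx K U.V) where
  carrier := {f | ∀ x y v, SU ψ E Φ x y (f v) = f (SZ ψ E x y v)}
  zero_mem' := fun x y v => by
    rw [LinearMap.zero_apply, LinearMap.zero_apply, map_zero]
  add_mem' := fun {f f'} hf hf' x y v => by
    rw [LinearMap.add_apply, LinearMap.add_apply, map_add, hf, hf']
  smul_mem' := fun c f hf x y v => by
    rw [LinearMap.smul_apply, LinearMap.smul_apply, map_smul, hf]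

variable (hE : E * E = 1) (hs : ∀ x y, formC ψ x y = E * formC ψ y x)
  (hΦ : ∀ g, ∀ X ∈ skewC ψ, Φ (cj (hM M) g X) = cj (hM U) g (Φ X)) (h : Sim M w ψ)

include hE hs hΦ h

theorem IT_stab (g : HGp K) {f : Cx K M.V →ₗ[ℂ] Cx K U.V} (hf : f ∈ IT ψ E Φ) :
    rho (M.b.linearMap U.b) (M.e.linearMap U.e) (th M.t U.t) K g f ∈ IT ψ E Φ := by
  intro x y v
  obtain ⟨x', rfl⟩ := (rM M g).surjective x
  obtain ⟨y', rfl⟩ := (rM M g).surjective y
  have e1 : ∀ v, rho (M.b.linearMap U.b) (M.e.linearMap U.e) (th M.t U.t) K g f v =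
      rM U g (f (rM M g⁻¹ v)) := fun v => rho_hom' M.b M.e U.b U.e M.t U.t g f v
  rw [e1, e1, SU_apply, SZ_equi h, map_smul, hΦ g _ (SZ_mem hE hs x' y'), LinearMap.smul_apply,
    LinearMap.smul_apply, cj_hM, rM_inv, ← SU_apply, hf, map_smul, map_smul, map_smul, cj_hM,
    rM_inv]

theorem IT_DH {τ : ℂ ≃+* ℂ} (hτ : FixK K τ) (z u : ℂˣ) {f : Cx K M.V →ₗ[ℂ] Cx K U.V}
    (hf : f ∈ IT ψ E Φ) : DH M U τ z u f ∈ IT ψ E Φ := by
  have h1 := IT_stab hE hs hΦ h (FreeGroup.of (⟨τ, hτ, z, u⟩ : HP K)) hf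
  rw [rho_of] at h1
  exact h1

omit hE hs hΦ h in
/-- maps which kill two vectors -/
theorem IT_zero {f : Cx K M.V →ₗ[ℂ] Cx K U.V} (hf : f ∈ IT ψ E Φ) {v x : Cx K M.V}
    (hv : f v = 0) (hx : f x = 0) (hxv : formC ψ x v ≠ 0) : f = 0 := by
  refine LinearMap.ext fun y => ?_
  have h1 := hf x y v
  rw [hv, map_zero, SZ_apply, map_sub, map_smul, map_smul, map_smul, hx, smul_zero, smul_zero,
    sub_zero] at h1
  exact (smul_eq_zero.1 h1.symm).resolve_left hxv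

omit hE hΦ h in
/-- maps which kill one extreme part -/
theorem IT_zero' {f : Cx K M.V →ₗ[ℂ] Cx K U.V} (hf : f ∈ IT ψ E Φ) {n : ℕ}
    {u c : Fin n → Cx K M.V} (h1 : ∀ i, formC ψ (c i) (u i) ≠ 0)
    (h0 : ∀ i j, i ≠ j → formC ψ (c i) (u j) = 0) (hn : (E = -1 ∧ 0 < n) ∨ 1 < n)
    (hu : ∀ i, f (u i) = 0) : f = 0 := by
  rcases hn with ⟨rfl, hn⟩ | hn
  · let i : Fin n := ⟨0, hn⟩
    refine IT_zero hf (hu i) (x := c i) ?_ (h1 i)
    have h2 := hf (c i) (c i) (u i)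
    rw [hu, map_zero, SZ_apply, map_sub, map_smul, map_smul, map_smul, neg_one_smul,
      sub_neg_eq_add, ← add_smul] at h2
    refine (smul_eq_zero.1 h2.symm).resolve_left ?_
    rw [← two_mul]
    exact mul_ne_zero two_ne_zero (h1 i)
  · let i : Fin n := ⟨0, by omega⟩
    let j : Fin n := ⟨1, hn⟩
    have hij : i ≠ j := by
      intro h1
      have h2 := congrArg Fin.val h1
      exact absurd h2 (by norm_num [i, j])
    refine IT_zero hf (hu i) (x := c i) ?_ (h1 i)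
    have h2 := hf (c j) (c i) (u j)
    rw [hu, map_zero, SZ_apply, h0 i j hij, zero_smul, smul_zero, sub_zero, map_smul] at h2
    exact (smul_eq_zero.1 h2.symm).resolve_left (h1 j)

omit hE hΦ in
/-- **Maps of degree different from zero vanish.** -/
theorem IT_deg {d : ℤ} (hU : ∀ k, (U.t k).1 - (U.t k).2 ≤ d ∧ -d ≤ (U.t k).1 - (U.t k).2)
    {n : ℕ} {u c : Fin n → Cx K M.V}
    (hD : SoRel.Dual (formC ψ) (DG M (RingEquiv.refl ℂ)) d u c)
    (hn : (E = -1 ∧ 0 < n) ∨ 1 < n) (hE0 : E ≠ 0) {τ : ℂ ≃+* ℂ} (hτ : FixK K τ) {m : ℤ}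
    (hm : m ≠ 0) {f : Cx K M.V →ₗ[ℂ] Cx K U.V} (hf : f ∈ IT ψ E Φ)
    (hfm : DH M U τ two two⁻¹ f = ((two ^ m : ℂˣ) : ℂ) • f) : f = 0 := by
  have hsl : ∀ x y, formC ψ (sl M.b τ x) (sl M.b τ y) = τ (formC ψ x y) := fun x y => by
    rw [← M.gal_eq hτ, ← M.gal_eq hτ, formC_gal]
  -- the values on the homogeneous vectors
  have hval : ∀ l, ∀ x ∈ DG M (RingEquiv.refl ℂ) l, (d < m + l ∨ m + l < -d) →
      f (sl M.b τ x) = 0 := by
    intro l x hx hl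
    have h1 : sl M.b τ x ∈ DG M τ l := by
      have h0 := sl_EG (σ := τ) mon_diff hx
      rw [refl_trans'] at h0
      exact h0
    have h2 : f (sl M.b τ x) ∈ EG U.b U.e U.t τ two two⁻¹ (m + l) := by
      rw [mem_EG, ← DH_apply, hfm]
      have h3 : Dg M.b M.e M.t τ two two⁻¹ (sl M.b τ x) = ((two ^ l : ℂˣ) : ℂ) • sl M.b τ x := h1
      rw [h3, LinearMap.smul_apply, map_smul, smul_smul, zpow_add, Units.val_mul]
    refine (mv U.b U.e τ).ext_elem fun k => ?_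
    rw [map_zero, Finsupp.zero_apply]
    refine (mem_EG' mon_diff).1 h2 k fun hk => ?_
    have h3 := hU k
    rw [hk] at h3
    omega
  rcases lt_or_gt_of_ne hm with hm | hm
  · refine IT_zero' hs hf (u := fun i => sl M.b τ (c i)) (c := fun i => sl M.b τ (u i))
      (fun i => ?_) (fun i j hij => ?_) hn fun i => hval _ _ (hD.memc i) (by omega)
    · rw [hsl, hD.one, map_one]
      exact one_ne_zero
    · rw [hsl, hD.zero i j hij, map_zero]
  · refine IT_zero' hs hf (u := fun i => sl M.b τ (u i)) (c := fun i => sl M.b τ (c i))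
      (fun i => ?_) (fun i j hij => ?_) hn fun i => hval _ _ (hD.memu i) (by omega)
    · rw [hsl, hs, hD.one, mul_one]
      exact (map_ne_zero τ).2 hE0
    · rw [hsl, hs, hD.zero j i hij.symm, mul_zero, map_zero]

/-- **The intertwining map of pure types.** -/
theorem IT_pure (hwU : Wt U) {d : ℤ}
    (hU : ∀ k, (U.t k).1 - (U.t k).2 ≤ d ∧ -d ≤ (U.t k).1 - (U.t k).2)
    {n : ℕ} {u c : Fin n → Cx K M.V}
    (hD : SoRel.Dual (formC ψ) (DG M (RingEquiv.refl ℂ)) d u c)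
    (hn : (E = -1 ∧ 0 < n) ∨ 1 < n) {f₀ : Cx K M.V →ₗ[ℂ] Cx K U.V} (hf₀ : f₀ ∈ IT ψ E Φ)
    (h0 : f₀ ≠ 0) : ∃ (f : Cx K M.V →ₗ[ℂ] Cx K U.V) (j : ℤ), f ≠ 0 ∧
      ∀ τ : ℂ ≃+* ℂ, FixK K τ → Typ (M.e.linearMap U.e) (th M.t U.t) (j, j)
        (sl (M.b.linearMap U.b) τ f) := by
  have hwM : Wt M := wt_of_pure h.weight
  have hE0 : E ≠ 0 := by
    rintro rfl
    rw [zero_mul] at hE
    exact zero_ne_one hE
  -- the weight of the map
  obtain ⟨s, F, hF, hsum⟩ := dec_EG (b := M.b.linearMap U.b) (e := M.e.linearMap U.e)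
    (t := th M.t U.t) (τ := RingEquiv.refl ℂ) mon_sum f₀
  have hFm : ∀ k ∈ s, F k ∈ IT ψ E Φ := comp_mem
    (D := (DH M U (RingEquiv.refl ℂ) two two).toLinearMap)
    (fun x hx => IT_DH hE hs hΦ h (fun _ => rfl) _ _ hx) s F (fun k _ => hF k)
    (by rw [← hsum]; exact hf₀)
  obtain ⟨k, hk, hk0⟩ : ∃ k ∈ s, F k ≠ 0 := by
    by_contra hcon
    push Not at hcon
    exact h0 (by rw [hsum]; exact Finset.sum_eq_zero hcon)
  let A : Submodule ℂ (Cx K M.V →ₗ[ℂ] Cx K U.V) := IT ψ E Φ ⊓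
    EG (M.b.linearMap U.b) (M.e.linearMap U.e) (th M.t U.t) (RingEquiv.refl ℂ) two two k
  have hfA : F k ∈ A := ⟨hFm k hk, hF k⟩
  have hτ1 : ∀ τ : ℂ ≃+* ℂ, FixK K τ → DH M U τ two two⁻¹ (F k) = F k := by
    intro τ hτ
    have hstab : ∀ x ∈ A, DH M U τ two two⁻¹ x ∈ A := by
      intro x hx
      refine ⟨IT_DH hE hs hΦ h hτ _ _ hx.1, ?_⟩
      have h1 : DH M U (RingEquiv.refl ℂ) two two x = ((two ^ k : ℂˣ) : ℂ) • x := hx.2
      change DH M U (RingEquiv.refl ℂ) two two (DH M U τ two two⁻¹ x) =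
        ((two ^ k : ℂˣ) : ℂ) • DH M U τ two two⁻¹ x
      have h3 : DH M U τ two two (DH M U τ two two⁻¹ x) =
        DH M U τ two two⁻¹ (DH M U τ two two x) := Dg_comm _ _ _ _ _ _ _ _ _
      rw [← DH_wt hwM hwU hτ, h3, DH_wt hwM hwU hτ, h1, map_smul]
    obtain ⟨s', G, hG, hsum'⟩ := dec_EG (b := M.b.linearMap U.b) (e := M.e.linearMap U.e)
      (t := th M.t U.t) (τ := τ) mon_diff (F k)
    have hGm : ∀ m ∈ s', G m ∈ A := comp_mem
      (D := (DH M U τ two two⁻¹).toLinearMap) hstab s' G (fun m _ => hG m)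
      (by rw [← hsum']; exact hfA)
    have hG0 : ∀ m ∈ s', m ≠ 0 → G m = 0 := fun m hm hm0 =>
      IT_deg hs h hU hD hn hE0 hτ hm0 (hGm m hm).1 (hG m)
    rw [hsum', map_sum]
    refine Finset.sum_congr rfl fun m hm => ?_
    by_cases hm0 : m = 0
    · have h1 : DH M U τ two two⁻¹ (G m) = ((two ^ m : ℂˣ) : ℂ) • G m := hG m
      rw [h1, hm0, zpow_zero, Units.val_one, one_smul]
    · rw [hG0 m hm hm0, map_zero]
  have hdiag : ∀ τ : ℂ ≃+* ℂ, FixK K τ → ∀ l,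
      (mv (M.b.linearMap U.b) (M.e.linearMap U.e) τ).repr (F k) l ≠ 0 →
      (th M.t U.t l).1 - (th M.t U.t l).2 = 0 ∧ (th M.t U.t l).1 + (th M.t U.t l).2 = k := by
    intro τ hτ l hl
    constructor
    · by_contra hcon
      refine hl ((mem_EG' (b := M.b.linearMap U.b) (e := M.e.linearMap U.e)
        (t := th M.t U.t) (τ := τ) mon_diff (m := 0)).1 ?_ l hcon)
      rw [mem_EG, zpow_zero, Units.val_one, one_smul]
      exact hτ1 τ hτ
    · by_contra hcon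
      refine hl ((mem_EG' (b := M.b.linearMap U.b) (e := M.e.linearMap U.e)
        (t := th M.t U.t) (τ := τ) mon_sum (m := k)).1 ?_ l hcon)
      rw [mem_EG]
      exact (DH_wt hwM hwU hτ _).trans hfA.2
  obtain ⟨l, hl⟩ : ∃ l, (mv (M.b.linearMap U.b) (M.e.linearMap U.e)
      (RingEquiv.refl ℂ)).repr (F k) l ≠ 0 := by
    by_contra hcon
    push Not at hcon
    exact hk0 ((mv (M.b.linearMap U.b) (M.e.linearMap U.e) (RingEquiv.refl ℂ)).ext_elem
      fun l => by rw [hcon, map_zero, Finsupp.zero_apply])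
  have hl1 := hdiag _ (fun _ => rfl) l hl
  refine ⟨F k, (th M.t U.t l).1, hk0, fun τ hτ i hi => ?_⟩
  have h1 := mv_repr' (b := M.b.linearMap U.b) (e := M.e.linearMap U.e) τ.symm (F k) i
  rw [RingEquiv.symm_symm] at h1
  rw [h1]
  by_contra hne
  apply hi
  have h2 := hdiag τ.symm (FixK.symm hτ) i (fun h3 => hne (by rw [h3, map_zero]))
  exact Prod.ext (by omega) (by omega)

end it

end

end Pool.Agent.U233.HG
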