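import Pool.Agent.U233.FG.Core

/-!
# The operator which multiplies the vectors of type `(p, q)` by `p - q`, and the weights
-/

set_option autoImplicit false
set_option linter.unusedSectionVars false

open TensorProduct

namespace Pool.Agent.U233.HG

open Module Pool.Agent.N179.DB Pool.Agent.N179.GR Pool.Agent.U233.FG
open Pool.Agent.N179.DB.S (Cx tens gal bc cx_ind tens_add tens_smul smul_tens exists_tens
  inF_tens bx_apply bc_tens bc_gal gal_add gal_tens)

noncomputable section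

section gen

variable {V : Type*} [AddCommGroup V] [Module ℂ V] {ι κ : Type*} [Fintype ι] [Fintype κ]
  (b : Basis ι ℂ V) (e : Basis κ ℂ V) (t : κ → ℤ × ℤ)

/-- the operator -/
def ND (τ : ℂ ≃+* ℂ) : V →ₗ[ℂ] V :=
  (mv b e τ).constr ℂ fun k => (((t k).1 - (t k).2 : ℤ) : ℂ) • mv b e τ k

theorem ND_mv (τ : ℂ ≃+* ℂ) (k : κ) :
    ND b e t τ (mv b e τ k) = (((t k).1 - (t k).2 : ℤ) : ℂ) • mv b e τ k := by
  rw [ND, Basis.constr_basis]

theorem ND_repr (τ : ℂ ≃+* ℂ) (x : V) (k : κ) :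
    (mv b e τ).repr (ND b e t τ x) k =
      (((t k).1 - (t k).2 : ℤ) : ℂ) * (mv b e τ).repr x k := by
  classical
  have h1 : x = ∑ i, (mv b e τ).repr x i • mv b e τ i := ((mv b e τ).sum_repr x).symm
  have h2 : ND b e t τ x =
      ∑ i, ((((t i).1 - (t i).2 : ℤ) : ℂ) * (mv b e τ).repr x i) • mv b e τ i := by
    conv_lhs => rw [h1]
    rw [map_sum]
    refine Finset.sum_congr rfl fun i _ => ?_
    rw [map_smul, ND_mv, smul_smul, mul_comm]
  rw [h2, (mv b e τ).repr_sum_self]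

variable {b e t}

theorem Typ.nd {r : ℤ × ℤ} {x : V} (h : Typ e t r x) (τ : ℂ ≃+* ℂ) :
    ND b e t τ (sl b τ x) = ((r.1 - r.2 : ℤ) : ℂ) • sl b τ x := by
  refine (mv b e τ).ext_elem fun k => ?_
  rw [ND_repr, map_smul, Finsupp.smul_apply, smul_eq_mul, mv_repr]
  by_cases hk : t k = r
  · rw [hk]
  · rw [h k hk, map_zero, mul_zero, mul_zero]

end gen

variable {K : Type} [Field K] [Algebra K ℂ]

/-- the operator is skew -/
theorem ND_skew {M : HS K} {w : ℤ} {ψ : M.V →ₗ[K] M.V →ₗ[K] K} (h : Sim M w ψ)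
    {τ : ℂ ≃+* ℂ} (hτ : FixK K τ) :
    (show Module.End ℂ (Cx K M.V) from ND M.b M.e M.t τ) ∈ skewC ψ := by
  intro x y
  let B := formC ψ
  have key : B.comp (ND M.b M.e M.t τ) + B.compl₂ (ND M.b M.e M.t τ) = 0 := by
    refine (mv M.b M.e τ).ext fun k => (mv M.b M.e τ).ext fun l => ?_
    change B (ND M.b M.e M.t τ (mv M.b M.e τ k)) (mv M.b M.e τ l) +
      B (mv M.b M.e τ k) (ND M.b M.e M.t τ (mv M.b M.e τ l)) = 0
    rw [ND_mv, ND_mv, map_smul, map_smul, LinearMap.smul_apply, mv_apply, mv_apply,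
      ← M.gal_eq hτ, ← M.gal_eq hτ, formC_gal]
    by_cases hkl : (M.t l).1 = (M.t k).2 ∧ (M.t l).2 = (M.t k).1
    · rw [hkl.1, hkl.2, smul_eq_mul, smul_eq_mul]
      push_cast
      ring
    · have h1 : formC ψ (M.e k) (M.e l) = 0 := by
        refine h.orth (M.t k).1 (M.t k).2 (M.t l).1 (M.t l).2 _ ((M.mem' _ _).2 (Typ.basis k)) _
          ((M.mem' _ _).2 (Typ.basis l)) ?_
        by_contra hcon
        push Not at hcon
        exact hkl hcon
      rw [h1, map_zero, smul_zero, smul_zero, add_zero]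
  exact LinearMap.congr_fun (LinearMap.congr_fun key x) y

/-- the functoriality -/
theorem ND_lin {M N : HS K} (f : M.V →ₗ[K] N.V) (hf : IsHom (M := M) (N := N) f)
    {τ : ℂ ≃+* ℂ} (hτ : FixK K τ) (x : Cx K M.V) :
    bc f (ND M.b M.e M.t τ x) = ND N.b N.e N.t τ (bc f x) := by
  have h3 : (bc f).comp (ND M.b M.e M.t τ) = (ND N.b N.e N.t τ).comp (bc f) := by
    refine (mv M.b M.e τ).ext fun k => ?_
    change bc f (ND M.b M.e M.t τ (mv M.b M.e τ k)) = ND N.b N.e N.t τ (bc f (mv M.b M.e τ k))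
    have h4 : bc f (mv M.b M.e τ k) = sl N.b τ (bc f (M.e k)) := by
      rw [mv_apply, ← M.gal_eq hτ, ← N.gal_eq hτ]
      exact bc_gal f τ hτ _
    have h5 : Typ N.e N.t (M.t k) (bc f (M.e k)) :=
      (N.mem' _ _).1 (hf _ _ _ ((M.mem' _ _).2 (Typ.basis k)))
    rw [ND_mv, map_smul, h4, h5.nd]
  exact LinearMap.congr_fun h3 x

/-- a derivation which acts by this operator -/
theorem exists_der [CharZero K] {M : HS K} {d : ℤ} {ψ : M.V →ₗ[K] M.V →ₗ[K] K}
    (h : FullL M d ψ) {τ : ℂ ≃+* ℂ} (hτ : FixK K τ) : ∃ D : Der ℂ (HGp K), InDer 1 D ∧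
      D.Θ (full (Cx K M.V) (hM M)) = ND M.b M.e M.t τ := by
  obtain ⟨w, hw⟩ := h.sim
  have h1 := ND_skew hw hτ
  rw [← core_eq_skew h, mem_core] at h1
  exact h1 1

end

end Pool.Agent.U233.HG
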