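import Pool.Agent.N179.GR.Fin

/-!
# The homomorphism from the core
-/

set_option autoImplicit false
set_option linter.unusedSectionVars false

namespace Pool.Agent.U233.FG

open Module Pool.Agent.N179.GR

noncomputable section

variable {K : Type} [Field K] {Γ : Type} [Group Γ]
  {V : Type} [AddCommGroup V] [Module K V] [FiniteDimensional K V]
  {W : Type} [AddCommGroup W] [Module K W] [FiniteDimensional K W]

/-- The core of `V` acts on `W`. -/
theorem exists_phi {r : Γ →* Module.End K V} {t : Γ →* Module.End K W} (ht : SemiS (cj t)) :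
    ∃ Φ : Module.End K V →ₗ[K] Module.End K W,
      (∀ x ∈ core (full V r), (x, Φ x) ∈ pairs (full V r) (full W t)) ∧
      (∀ g, ∀ x ∈ core (full V r), Φ (cj r g x) = cj t g (Φ x)) ∧
      ∀ x ∈ core (full V r), ∀ y ∈ core (full V r),
        Φ (x * y - y * x) = Φ x * Φ y - Φ y * Φ x := by
  have hfull : ∀ N ∈ ({full V r} : Set (PRep K Γ)), IsFull N := by
    rintro N rfl
    exact isFull_full r
  obtain ⟨q, hq1, hq2, hq3⟩ := ht.exists_proj (aI_stab t (T := {full V r}) hfull)
  let f : pairs (full V r) (full W t) →ₗ[K] Module.End K V :=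
    LinearMap.fst K _ _ ∘ₗ (pairs (full V r) (full W t)).subtype
  let g : pairs (full V r) (full W t) →ₗ[K] Module.End K W :=
    (LinearMap.id - q) ∘ₗ LinearMap.snd K _ _ ∘ₗ (pairs (full V r) (full W t)).subtype
  obtain ⟨Φ, hΦ⟩ := exists_factor f g (by
    rintro ⟨⟨x, y⟩, hxy⟩ h0
    obtain rfl : x = 0 := h0
    change y - q y = 0
    rw [hq1 y, sub_self]
    rw [mem_aI]
    intro k
    obtain ⟨D, hD, h1, h2⟩ := hxy k
    exact ⟨D, hD, fun N hN => by rw [Set.mem_singleton_iff.1 hN]; exact h1, h2⟩)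
  have hΦ' : ∀ x y, (x, y) ∈ pairs (full V r) (full W t) → Φ x = y - q y :=
    fun x y hxy => hΦ ⟨(x, y), hxy⟩
  have hlift : ∀ x ∈ core (full V r), (x, Φ x) ∈ pairs (full V r) (full W t) := by
    intro x hx
    obtain ⟨y, hy⟩ := lift_pair (full V r) (full W t) hx
    rw [hΦ' x y hy]
    have h1 : ((0 : Module.End K V), q y) ∈ pairs (full V r) (full W t) := by
      intro k
      obtain ⟨D, hD, h1, h2⟩ := mem_aI.1 (hq2 y) k
      exact ⟨D, hD, h1 _ rfl, h2⟩
    have h2 := sub_mem (show (x, y) ∈ pairs (full V r) (full W t) from hy) h1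
    rwa [Prod.mk_sub_mk, sub_zero] at h2
  have hqΦ : ∀ x ∈ core (full V r), q (Φ x) = 0 := by
    intro x hx
    obtain ⟨y, hy⟩ := lift_pair (full V r) (full W t) hx
    rw [hΦ' x y hy, map_sub, hq1 _ (hq2 y), sub_self]
  refine ⟨Φ, hlift, fun g x hx => ?_, fun x hx y hy => ?_⟩
  · have h1 : (cj r g x, cj t g (Φ x)) ∈ pairs (full V r) (full W t) := by
      intro k
      obtain ⟨D, hD, h1, h2⟩ := hlift x hx k
      refine ⟨D.conj g⁻¹, hD.conj _, ?_, ?_⟩
      · rw [conj_full D g⁻¹ (isFull_full r), inv_inv, h1]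
        rfl
      · rw [conj_full D g⁻¹ (isFull_full t), inv_inv, h2]
        rfl
    rw [hΦ' _ _ h1, hq3, hqΦ x hx, map_zero, sub_zero]
  · have h1 : (x * y - y * x, Φ x * Φ y - Φ y * Φ x) ∈ pairs (full V r) (full W t) := by
      intro k
      obtain ⟨D, hD, h1, h2⟩ := hlift x hx k
      obtain ⟨D', hD', h1', h2'⟩ := hlift y hy k
      exact ⟨D.br D', (InDer.br k _ _ hD hD').mono, by rw [br_Θ, h1, h1'], by
        rw [br_Θ, h2, h2']⟩
    rw [hΦ' _ _ h1]
    have hker : Stab (cj t) (LinearMap.ker q) := fun g x hx => by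
      rw [LinearMap.mem_ker, hq3, LinearMap.mem_ker.1 hx, map_zero]
    obtain ⟨D, -, h2, h3⟩ := hlift x hx 0
    have h4 := br_mem hker D (x := Φ y) (LinearMap.mem_ker.2 (hqΦ y hy))
    rw [h3] at h4
    rw [LinearMap.mem_ker.1 h4, sub_zero]

/-- The property of splitting off is symmetric. -/
theorem spl_symm {M N : PRep K Γ} (h : Spl M {N}) : Spl N {M} := by
  intro y hy
  obtain ⟨x, hx⟩ := lift_pair N M hy
  have hxc : x ∈ core M := mem_core.2 fun k => by
    obtain ⟨D, hD, -, h2⟩ := hx k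
    exact ⟨D, hD, h2⟩
  rw [mem_aI]
  intro k
  obtain ⟨D, hD, h1, h2⟩ := hx k
  obtain ⟨D', hD', h3, h4⟩ := mem_aI.1 (h hxc) k
  refine ⟨D + (-1 : K) • D', hD.add' (hD'.smul _), fun P hP => ?_, ?_⟩
  · rw [Set.mem_singleton_iff.1 hP, add_Θ, smul_Θ, h2, h4, neg_one_smul, add_neg_cancel]
  · rw [add_Θ, smul_Θ, h1, h3 N rfl, smul_zero, add_zero]

/-- If `M` does not split off from `N`, and the core of `M` has no stable subspaces, then the
homomorphism is injective. -/
theorem phi_inj {r : Γ →* Module.End K V} {t : Γ →* Module.End K W}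
    {Φ : Module.End K V →ₗ[K] Module.End K W}
    (hΦ : ∀ x ∈ core (full V r), (x, Φ x) ∈ pairs (full V r) (full W t))
    {L : Submodule K (Module.End K V)} (hL : core (full V r) ≤ L)
    (hirr : ∀ A : Submodule K (Module.End K V), Stab (cj r) A → A ≤ L → A = ⊥ ∨ A = L)
    (hn : ¬Spl (full V r) {full W t}) : core (full V r) = L ∧ ∀ x ∈ L, Φ x = 0 → x = 0 := by
  have hT : ∀ N ∈ ({full W t} : Set (PRep K Γ)), IsFull N := by
    rintro N rfl
    exact isFull_full t
  have h1 : core (full V r) = L := by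
    rcases hirr _ (core_stab r) hL with h | h
    · exfalso
      apply hn
      unfold Spl
      rw [h]
      exact bot_le
    · exact h
  refine ⟨h1, fun x hx h0 => ?_⟩
  rcases hirr _ (aI_stab r hT) ((aI_le_core _ _).trans hL) with h | h
  · rw [← h1] at hx
    have h2 : x ∈ aI (full V r) {full W t} := by
      rw [mem_aI]
      intro k
      obtain ⟨D, hD, h3, h4⟩ := hΦ x hx k
      refine ⟨D, hD, fun N hN => ?_, h3⟩
      rw [Set.mem_singleton_iff.1 hN]
      exact h4.trans h0
    rw [h] at h2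
    exact (Submodule.mem_bot K).1 h2
  · exact absurd (by unfold Spl; rw [h1, h]) hn

end

end Pool.Agent.U233.FG
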