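import Pool.Agent.U233.FG.So2

/-!
# The orthogonal case
-/

set_option autoImplicit false

namespace Pool.Agent.U233.FG

noncomputable section

variable {F : Type*} [Field F] {V U : Type*} [AddCommGroup V] [Module F V]
  [AddCommGroup U] [Module F U]
  {B : V →ₗ[F] V →ₗ[F] F} {S : V →ₗ[F] V →ₗ[F] Module.End F U}
  {DV : ℤ → Submodule F V} {DU : ℤ → Submodule F U} {d : ℤ}

/-- a map from the top degree with the matrix units -/
structure Top (B : V →ₗ[F] V →ₗ[F] F) (S : V →ₗ[F] V →ₗ[F] Module.End F U)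
    (DV : ℤ → Submodule F V) (DU : ℤ → Submodule F U) (d : ℤ) (Q : V →ₗ[F] U) : Prop where
  rel : SoRel B S
  gr : Graded B S DV DU d
  leV : ∀ m, (d < m ∨ m < -d) → ∀ v ∈ DV m, v = 0
  mem : ∀ v ∈ DV d, Q v ∈ DU d
  mu : ∀ x ∈ DV d, ∀ y ∈ DV d, ∀ s ∈ DV (-d), S s x (Q y) = B y s • Q x
  ex3 : ∀ x₁ x₂ x₃ : V, ∃ a ∈ DV d, a ≠ 0 ∧ B a x₁ = 0 ∧ B a x₂ = 0 ∧ B a x₃ = 0
  exd : ∀ a ∈ DV d, a ≠ 0 → ∃ s ∈ DV (-d), B a s = 1

namespace Top

variable [CharZero F] {Q : V →ₗ[F] U} (T : Top B S DV DU d Q)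

include T

theorem rep {v s a : V} (hv : v ∈ DV d) (hs : s ∈ DV (-d)) (hvs : B v s = 1) (ha : a ∈ DV d)
    (ha0 : a ≠ 0) (has : B a s = 0) : ∃ z ∈ DU (-d), Q v = S a v z := by
  obtain ⟨x, hx, hax⟩ := T.exd a ha ha0
  have ht : x - B v x • s ∈ DV (-d) := Submodule.sub_mem _ hx (Submodule.smul_mem _ _ hs)
  have h1 : B a (x - B v x • s) = 1 := by rw [map_sub, map_smul, hax, has]; simp
  have h2 : B v (x - B v x • s) = 0 := by rw [map_sub, map_smul, hvs]; simp
  refine ⟨-S (x - B v x • s) s (Q v), Submodule.neg_mem _ (T.rel.deg_N T.gr ht hs (T.mem v hv)), ?_⟩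
  rw [map_neg, T.rel.PN T.gr ha hv (T.mem v hv), has, hvs, h1, h2, T.mu a ha v hv _ ht,
    T.mu v hv v hv s hs, h2, hvs]
  module

/-- two lowering operators -/
theorem low {v s c c' : V} (hv : v ∈ DV d) (hs : s ∈ DV (-d)) (hvs : B v s = 1)
    (hc : c ∈ DV (-d)) (hc' : c' ∈ DV (-d)) (hvc : B v c = 0) (hvc' : B v c' = 0) :
    S c c' (Q v) = 0 := by
  obtain ⟨a, ha, ha0, h1, h2, h3⟩ := T.ex3 s c c'
  obtain ⟨z, hz, hQ⟩ := T.rep hv hs hvs ha ha0 h1
  rw [hQ, T.rel.NP T.gr hc hc' hz, T.rel.symm c v, T.rel.symm c' v, T.rel.symm c a,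
    T.rel.symm c' a, hvc, hvc', h2, h3]
  simp

/-- `low`, also for zero -/
theorem low' {v c c' : V} (hv : v ∈ DV d) (hc : c ∈ DV (-d)) (hc' : c' ∈ DV (-d))
    (hvc : B v c = 0) (hvc' : B v c' = 0) : S c c' (Q v) = 0 := by
  by_cases h0 : v = 0
  · rw [h0, map_zero, map_zero]
  · obtain ⟨s, hs, hvs⟩ := T.exd v hv h0
    exact T.low hv hs hvs hc hc' hvc hvc'

/-- lowering operators from the middle -/
theorem mid {v c e : V} {k : ℤ} (hv : v ∈ DV d) (hc : c ∈ DV (-d)) (hvc : B v c = 0)
    (he : e ∈ DV k) (h1 : -d < k) (h2 : k < d) : S c e (Q v) = 0 := by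
  by_cases h0 : v = 0
  · rw [h0, map_zero, map_zero]
  obtain ⟨s, hs, hvs⟩ := T.exd v hv h0
  obtain ⟨a, ha, ha0, h3, h4, -⟩ := T.ex3 s c c
  obtain ⟨z, hz, hQ⟩ := T.rep hv hs hvs ha ha0 h3
  have hd := T.gr.pos
  rw [hQ, T.rel.comm c e a v z, T.rel.down T.gr hc he (by omega) hz, T.rel.symm c v,
    T.rel.symm c a, hvc, h4, T.gr.orth k d e he v hv (by omega), T.gr.orth k d e he a ha (by omega)]
  simp

/-- operators from the middle -/
theorem mid2 {v e e' : V} {k l : ℤ} (hv : v ∈ DV d) (he : e ∈ DV k) (h1 : -d < k) (h2 : k < d)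
    (he' : e' ∈ DV l) (h1' : -d < l) (h2' : l < d) : S e' e (Q v) = 0 := by
  by_cases h0 : v = 0
  · rw [h0, map_zero, map_zero]
  obtain ⟨s, hs, hvs⟩ := T.exd v hv h0
  obtain ⟨a, ha, ha0, h3, -, -⟩ := T.ex3 s s s
  obtain ⟨x, hx, hax⟩ := T.exd a ha ha0
  have ht : x - B v x • s ∈ DV (-d) := Submodule.sub_mem _ hx (Submodule.smul_mem _ _ hs)
  have h5 : B a (x - B v x • s) = 1 := by rw [map_sub, map_smul, hax, h3]; simp
  have h6 : B v (x - B v x • s) = 0 := by rw [map_sub, map_smul, hvs]; simp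
  have hd := T.gr.pos
  have h7 := T.rel.comm a e (x - B v x • s) e' (Q v)
  rw [T.mid hv ht h6 he' h1' h2', map_zero, T.rel.up T.gr ha he (by omega) (T.mem v hv), map_zero,
    T.gr.orth d l a ha e' he' (by omega), h5, T.mu a ha v hv _ ht, h6,
    T.gr.orth k (-d) e he _ ht (by omega)] at h7
  have h8 : (0 : U) = -S e' e (Q v) := by
    rw [h7]
    simp
  exact neg_eq_zero.1 h8.symm

/-- the stabilizer kills the vector -/
theorem stab {b c : V} (hb : b ∈ DV d) (hc : c ∈ DV (-d)) {e e' : V}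
    (he : Orth B b c e) (he' : Orth B b c e') : S e e' (Q b) = 0 := by
  have hd := T.gr.pos
  have key : ∀ k l e e', e ∈ DV k → e' ∈ DV l → Orth B b c e → Orth B b c e' →
      S e e' (Q b) = 0 := by
    intro k l e e' he he' ho ho'
    by_cases hkl : 0 < k + l
    · exact T.rel.up T.gr he he' hkl (T.mem b hb)
    by_cases hk : d < k ∨ k < -d
    · rw [T.leV k hk e he, map_zero, LinearMap.zero_apply, LinearMap.zero_apply]
    by_cases hl : d < l ∨ l < -d
    · rw [T.leV l hl e' he', map_zero, LinearMap.zero_apply]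
    push Not at hk hl
    rcases eq_or_lt_of_le hk.1 with h1 | h1
    · obtain rfl := h1
      obtain rfl : l = -k := by omega
      rw [T.rel.alt', T.mu e he b hb e' he', ho'.1, zero_smul, neg_zero]
    rcases eq_or_lt_of_le hk.2 with h2 | h2
    · obtain rfl := h2
      rcases eq_or_lt_of_le hl.1 with h3 | h3
      · obtain rfl := h3
        rw [T.mu e' he' b hb e he, ho.1, zero_smul]
      rcases eq_or_lt_of_le hl.2 with h4 | h4
      · obtain rfl := h4
        exact T.low' hb he he' ho.1 ho'.1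
      · exact T.mid hb he ho.1 he' h4 h3
    rcases eq_or_lt_of_le hl.2 with h4 | h4
    · obtain rfl := h4
      rw [T.rel.alt', T.mid hb he' ho'.1 he h2 h1, neg_zero]
    · exact T.mid2 hb he' h4 (by omega) he h2 h1
  obtain ⟨s, f, hf, hfo, rfl⟩ := T.gr.orth_dec hb hc he
  obtain ⟨s', f', hf', hfo', rfl⟩ := T.gr.orth_dec hb hc he'
  rw [map_sum, LinearMap.sum_apply]
  refine Finset.sum_eq_zero fun l _ => ?_
  rw [map_sum, LinearMap.sum_apply, LinearMap.sum_apply]
  exact Finset.sum_eq_zero fun k _ => key k l _ _ (hf k) (hf' l) (hfo k) (hfo' l)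

/-- raising operators -/
theorem raise {b c : V} (hb : b ∈ DV d) (hc : c ∈ DV (-d)) {e : V} (he : Orth B b c e) :
    S b e (Q b) = 0 := by
  have hd := T.gr.pos
  obtain ⟨s, f, hf, hfo, rfl⟩ := T.gr.orth_dec hb hc he
  rw [map_sum, LinearMap.sum_apply]
  refine Finset.sum_eq_zero fun k _ => ?_
  by_cases h1 : -d < k
  · exact T.rel.up T.gr hb (hf k) (by omega) (T.mem b hb)
  · by_cases h2 : k = -d
    · subst h2
      rw [T.rel.alt', T.mu b hb b hb _ (hf _), (hfo _).1, zero_smul, neg_zero]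
    · rw [T.leV k (Or.inr (by omega)) _ (hf k), map_zero, LinearMap.zero_apply]

/-- The theorem. -/
theorem exists_map {b c p q : V} (hb : b ∈ DV d) (hc : c ∈ DV (-d)) (hbc : B b c = 1)
    (hp : p ∈ DV d) (hq : q ∈ DV (-d)) (hpq : B p q = 1) (hpc : B p c = 0) (hbq : B b q = 0)
    (hQ : Q b ≠ 0) : ∃ f : V →ₗ[F] U, f ≠ 0 ∧
      ∀ x x' v, S x x' (f v) = f (B x v • x' - B x' v • x) := by
  have hd := T.gr.pos
  have hbb : B b b = 0 := T.rel.iso_top T.gr hb hb
  have hcc : B c c = 0 := T.rel.iso_bot T.gr hc hc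
  have hcb : B c b = 1 := by rw [T.rel.symm, hbc]
  have hpo : Orth B b c p := ⟨T.rel.iso_top T.gr hb hp, by rw [T.rel.symm, hpc]⟩
  have hqo : Orth B b c q := ⟨hbq, T.rel.iso_bot T.gr hc hq⟩
  -- `S c e (Q b)` for `e` in the middle
  have hmid : ∀ k e, e ∈ DV k → -d < k → k < d → S c e (Q b) = S q e (Q p) := by
    intro k e he h1 h2
    have h3 : Q b = S q b (Q p) := by rw [T.mu b hb p hp q hq, hpq, one_smul]
    rw [h3, T.rel.comm c e q b, T.mid hp hc hpc he h1 h2, map_zero, hcb,
      T.gr.orth k d e he b hb (by omega), T.gr.orth k (-d) e he q hq (by omega),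
      T.rel.iso_bot T.gr hc hq]
    module
  have hsym : ∀ e e', Orth B b c e → Orth B b c e' →
      S c e (S c e' (Q b)) = S c e' (S c e (Q b)) := by
    intro e e' ho ho'
    rw [T.rel.comm c e c e' (Q b), ho'.2, hcc, T.rel.symm e c, ho.2, T.rel.self]
    simp
  -- the case of degrees `-d` and `d`
  have hdd : ∀ e e', e ∈ DV (-d) → e' ∈ DV d → Orth B b c e → Orth B b c e' →
      S c e (Q e') = B e e' • S c q (Q p) := by
    intro e e' he he' ho ho'
    have h3 : Q e' = S q e' (Q p) := by rw [T.mu e' he' p hp q hq, hpq, one_smul]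
    have h4 : S c e (Q p) = B p e • S c q (Q p) := by
      have h5 := T.low' hp hc (Submodule.sub_mem _ he (Submodule.smul_mem _ (B p e) hq)) hpc
        (c' := e - B p e • q) (by rw [map_sub, map_smul, hpq]; simp)
      rw [map_sub, map_smul, LinearMap.sub_apply, LinearMap.smul_apply] at h5
      exact sub_eq_zero.1 h5
    have h6 : S q e' (S c q (Q p)) = 0 := by
      rw [T.rel.comm q e' c q, T.mu e' he' p hp q hq, hpq, one_smul,
        T.rel.iso_bot T.gr hq hq, T.rel.iso_bot T.gr hq hc, T.rel.symm e' c, ho'.2]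
      have h7 := T.low' (v := e' - B e' q • p) (Submodule.sub_mem _ he'
        (Submodule.smul_mem _ (B e' q) hp)) hc hq
        (by rw [map_sub, map_smul, LinearMap.sub_apply, LinearMap.smul_apply, T.rel.symm e' c,
          ho'.2, hpc]; simp)
        (by rw [map_sub, map_smul, LinearMap.sub_apply, LinearMap.smul_apply, hpq]; simp)
      rw [map_sub, map_smul, map_sub, map_smul, sub_eq_zero] at h7
      rw [h7]
      module
    rw [h3, T.rel.comm c e q e', h4, map_smul, h6, T.rel.symm c e', T.rel.symm e' c, ho'.2,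
      T.rel.iso_bot T.gr hc hq, T.rel.iso_bot T.gr he hq, T.rel.alt' q c]
    module
  have hcQ : ∀ e', e' ∈ DV d → S c e' (Q b) = Q e' := by
    intro e' he'
    rw [T.mu e' he' b hb c hc, hbc, one_smul]
  -- the quadratic relation
  have hquad : ∀ k l e e', e ∈ DV k → e' ∈ DV l → Orth B b c e → Orth B b c e' →
      S c e (S c e' (Q b)) = B e e' • S c q (Q p) := by
    have key : ∀ k l e e', e ∈ DV k → e' ∈ DV l → Orth B b c e → Orth B b c e' → k ≤ l →
        S c e (S c e' (Q b)) = B e e' • S c q (Q p) := by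
      intro k l e e' he he' ho ho' hkl
      by_cases hk : d < k ∨ k < -d
      · rw [T.leV k hk e he]
        simp
      by_cases hl : d < l ∨ l < -d
      · rw [T.leV l hl e' he']
        simp
      push Not at hk hl
      rcases eq_or_lt_of_le hl.1 with h1 | h1
      · obtain rfl := h1
        rw [hcQ e' he']
        rcases eq_or_lt_of_le hk.2 with h2 | h2
        · obtain rfl := h2
          exact hdd e e' he he' ho ho'
        · rw [T.gr.orth k l e he e' he' (by omega), zero_smul]
          rcases eq_or_lt_of_le hk.1 with h3 | h3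
          · obtain rfl := h3
            rw [T.mu e he e' he' c hc, T.rel.symm e' c, ho'.2, zero_smul]
          · exact T.mid he' hc (by rw [T.rel.symm, ho'.2]) he h2 h3
      · rcases eq_or_lt_of_le hk.2 with h2 | h2
        · obtain rfl := h2
          rw [hsym e e' ho ho', T.rel.down T.gr hc he' (by omega) (T.rel.deg_N T.gr hc he
            (T.mem b hb)), T.gr.orth (-d) l e he e' he' (by omega), zero_smul]
        · rw [hmid l e' he' (by omega) h1, T.rel.comm c e q e',
            T.mid hp hc hpc he h2 (by omega), map_zero, T.rel.iso_bot T.gr hc hq,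
            T.gr.orth k (-d) e he q hq (by omega), T.gr.orth (-d) l c hc e' he' (by omega),
            T.rel.alt' q c]
          module
    intro k l e e' he he' ho ho'
    rcases le_total k l with hkl | hkl
    · exact key k l e e' he he' ho ho' hkl
    · rw [hsym e e' ho ho', key l k e' e he' he ho' ho hkl, T.rel.symm e' e]
  have g4 : ∀ e e', Orth B b c e → Orth B b c e' →
      S c e (S c e' (Q b)) = -B e e' • (-S c q (Q p)) := by
    intro e e' he he'
    rw [smul_neg, neg_smul, neg_neg]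
    obtain ⟨s, f, hf, hfo, rfl⟩ := T.gr.orth_dec hb hc he
    obtain ⟨s', f', hf', hfo', rfl⟩ := T.gr.orth_dec hb hc he'
    rw [map_sum (S c) f', LinearMap.sum_apply, map_sum (S c (∑ k ∈ s, f k)),
      map_sum (B (∑ k ∈ s, f k)), Finset.sum_smul]
    refine Finset.sum_congr rfl fun l _ => ?_
    rw [map_sum, LinearMap.sum_apply, map_sum, LinearMap.sum_apply, Finset.sum_smul]
    exact Finset.sum_congr rfl fun k _ => hquad k l _ _ (hf k) (hf' l) (hfo k) (hfo' l)
  have g5 : ∀ e, Orth B b c e → S c e (-S c q (Q p)) = 0 := by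
    intro e he
    rw [map_neg, neg_eq_zero]
    obtain ⟨s, f, hf, hfo, rfl⟩ := T.gr.orth_dec hb hc he
    rw [map_sum, LinearMap.sum_apply]
    refine Finset.sum_eq_zero fun k _ => ?_
    have hz := T.rel.deg_N T.gr hc hq (T.mem p hp)
    by_cases h1 : k < d
    · exact T.rel.down T.gr hc (hf k) (by omega) hz
    · by_cases h2 : k = d
      · subst h2
        rw [T.rel.comm c (f k) c q, T.mu _ (hf k) p hp c hc, hpc, T.rel.iso_bot T.gr hc hq, hcc,
          T.rel.symm (f k) c, (hfo k).2, T.rel.self]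
        simp
      · rw [T.leV k (Or.inl (by omega)) _ (hf k), map_zero, LinearMap.zero_apply]
  obtain ⟨f, hf, hfb⟩ := T.rel.exists_map (b := b) (c := c) hbb hcc hbc (p := p) (q := -q)
    hpo ⟨by rw [map_neg, hqo.1, neg_zero], by rw [map_neg, hqo.2, neg_zero]⟩
    (by rw [map_neg, hpq]) (y := Q b) (Z := -S c q (Q p)) (fun e he => T.raise hb hc he)
    (hcQ b hb) (fun e e' he he' => T.stab hb hc he he') g4 g5
  refine ⟨f, ?_, hf⟩
  rintro rfl
  exact hQ hfb.symm

end Top

/-- **The orthogonal case.** -/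
theorem exists_so [CharZero F] (h : SoRel B S) (hg : Graded B S DV DU d)
    (leV : ∀ m, (d < m ∨ m < -d) → ∀ v ∈ DV m, v = 0) {ι : Type} [Fintype ι] {u c : ι → V}
    (hD : SoRel.Dual B DV d u c) (h5 : 5 ≤ Fintype.card ι) {i j : ι} (hij : i ≠ j)
    (hP : S (u i) (u j) ≠ 0) : ∃ f : V →ₗ[F] U, f ≠ 0 ∧
      ∀ x x' v, S x x' (f v) = f (B x v • x' - B x' v • x) := by
  classical
  obtain ⟨k, w, hw, hk⟩ := h.exists_diag hg hD hij hP
  have hexp : ∀ a ∈ DV d, a = ∑ i, B a (c i) • u i := by
    intro a ha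
    have h1 : ∀ a ∈ Submodule.span F (Set.range u), a = ∑ i, B a (c i) • u i := by
      intro a ha
      induction ha using Submodule.span_induction with
      | mem a ha =>
        obtain ⟨j, rfl⟩ := ha
        rw [Finset.sum_eq_single j (fun i _ hi => by rw [hD.zero j i hi.symm, zero_smul])
          (fun h => absurd (Finset.mem_univ j) h), hD.one, one_smul]
      | zero => simp
      | add x y _ _ hx hy =>
        conv_lhs => rw [hx, hy]
        rw [← Finset.sum_add_distrib]
        refine Finset.sum_congr rfl fun i _ => ?_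
        rw [map_add, LinearMap.add_apply, add_smul]
      | smul r x _ hx =>
        conv_lhs => rw [hx]
        rw [Finset.smul_sum]
        refine Finset.sum_congr rfl fun i _ => ?_
        rw [map_smul, LinearMap.smul_apply, smul_smul, smul_eq_mul]
    exact h1 a (hD.spu ha)
  have T : Top B S DV DU d ((LinearMap.applyₗ w).comp (S (c k))) :=
    { rel := h
      gr := hg
      leV := leV
      mem := fun v hv => h.deg_G hg (hD.memc k) hv hw
      mu := fun x hx y hy s hs => h.units hg hD h5 hx hy hs (hD.memc k) hw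
      ex3 := by
        intro x₁ x₂ x₃
        let g : (ι → F) →ₗ[F] (Fin 3 → F) := LinearMap.pi fun n =>
          ∑ i, B (u i) (![x₁, x₂, x₃] n) • LinearMap.proj i
        have h1 : LinearMap.ker g ≠ ⊥ := by
          refine LinearMap.ker_ne_bot_of_finrank_lt ?_
          rw [Module.finrank_fintype_fun_eq_card, Module.finrank_fintype_fun_eq_card,
            Fintype.card_fin]
          omega
        obtain ⟨t, ht, ht0⟩ := Submodule.exists_mem_ne_zero_of_ne_bot h1
        have h2 : ∀ n, B (∑ i, t i • u i) (![x₁, x₂, x₃] n) = 0 := by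
          intro n
          have h3 := congrFun (LinearMap.mem_ker.1 ht) n
          simp only [g, LinearMap.pi_apply, LinearMap.sum_apply, LinearMap.smul_apply,
            LinearMap.proj_apply, smul_eq_mul, Pi.zero_apply] at h3
          rw [map_sum, LinearMap.sum_apply, ← h3]
          refine Finset.sum_congr rfl fun i _ => ?_
          rw [map_smul, LinearMap.smul_apply, smul_eq_mul, mul_comm]
        refine ⟨∑ i, t i • u i, Submodule.sum_mem _ fun i _ =>
          Submodule.smul_mem _ _ (hD.memu i), ?_, h2 0, h2 1, h2 2⟩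
        intro h0
        apply ht0
        funext j
        have h3 : B (∑ i, t i • u i) (c j) = t j := by
          rw [map_sum, LinearMap.sum_apply, Finset.sum_eq_single j]
          · rw [map_smul, LinearMap.smul_apply, hD.one, smul_eq_mul, mul_one]
          · intro i _ hi
            rw [map_smul, LinearMap.smul_apply, hD.zero i j hi, smul_zero]
          · exact fun h => absurd (Finset.mem_univ j) h
        rw [← h3, h0, map_zero]
        rfl
      exd := by
        intro a ha ha0
        obtain ⟨i, hi⟩ : ∃ i, B a (c i) ≠ 0 := by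
          by_contra hcon
          push Not at hcon
          apply ha0
          rw [hexp a ha]
          exact Finset.sum_eq_zero fun i _ => by rw [hcon i, zero_smul]
        exact ⟨(B a (c i))⁻¹ • c i, Submodule.smul_mem _ _ (hD.memc i), by
          rw [map_smul, smul_eq_mul, inv_mul_cancel₀ hi]⟩ }
  obtain ⟨l, hl⟩ := exists_nmem h5 {k} (by rw [Finset.card_singleton]; omega)
  rw [Finset.mem_singleton] at hl
  exact T.exists_map (hD.memu k) (hD.memc k) (hD.one k) (hD.memu l) (hD.memc l) (hD.one l)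
    (hD.zero l k hl) (hD.zero k l (Ne.symm hl)) hk

end

end Pool.Agent.U233.FG
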