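import Pool.Agent.U233.FG.Gd
import Pool.Agent.U233.FG.So3

/-!
# The operators `v ↦ ψ(x, v) y - ε ψ(y, v) x`
-/

set_option autoImplicit false
set_option linter.unusedSectionVars false

open TensorProduct

namespace Pool.Agent.U233.HG

open Module Pool.Agent.N179.DB Pool.Agent.N179.GR Pool.Agent.U233.FG
open Pool.Agent.N179.DB.S (Cx tens gal bc cx_ind tens_add tens_smul smul_tens exists_tens
  inF_tens bx_apply bc_tens bc_gal gal_add gal_tens)

noncomputable section

variable {K : Type} [Field K] [Algebra K ℂ] {M : HS K} {w : ℤ}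
  {ψ : M.V →ₗ[K] M.V →ₗ[K] K}

/-- the operators -/
def SZ (ψ : M.V →ₗ[K] M.V →ₗ[K] K) (E : ℂ) :
    Cx K M.V →ₗ[ℂ] Cx K M.V →ₗ[ℂ] Module.End ℂ (Cx K M.V) :=
  LinearMap.mk₂ ℂ (fun x y => (formC ψ x).smulRight y - E • (formC ψ y).smulRight x)
    (fun x x' y => by
      refine LinearMap.ext fun v => ?_
      simp only [LinearMap.sub_apply, LinearMap.smulRight_apply, LinearMap.smul_apply,
        LinearMap.add_apply, map_add]
      module)
    (fun c x y => by
      refine LinearMap.ext fun v => ?_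
      simp only [LinearMap.sub_apply, LinearMap.smulRight_apply, LinearMap.smul_apply,
        map_smul, smul_eq_mul]
      module)
    (fun x y y' => by
      refine LinearMap.ext fun v => ?_
      simp only [LinearMap.sub_apply, LinearMap.smulRight_apply, LinearMap.smul_apply,
        LinearMap.add_apply, map_add]
      module)
    (fun c x y => by
      refine LinearMap.ext fun v => ?_
      simp only [LinearMap.sub_apply, LinearMap.smulRight_apply, LinearMap.smul_apply,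
        map_smul, smul_eq_mul]
      module)

theorem SZ_apply (E : ℂ) (x y v : Cx K M.V) :
    SZ ψ E x y v = formC ψ x v • y - E • formC ψ y v • x := rfl

variable {E : ℂ} (hE : E * E = 1) (hs : ∀ x y, formC ψ x y = E * formC ψ y x)

include hE hs in
theorem SZ_mem (x y : Cx K M.V) : SZ ψ E x y ∈ skewC ψ := by
  intro u v
  rw [SZ_apply, SZ_apply, map_sub, map_sub, map_smul, map_smul, map_smul, map_smul, map_smul,
    map_smul, LinearMap.sub_apply, LinearMap.smul_apply, LinearMap.smul_apply,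
    LinearMap.smul_apply]
  simp only [smul_eq_mul]
  rw [hs u y, hs u x]
  linear_combination -(formC ψ y v * formC ψ x u) * hE

theorem SZ_equi (h : Sim M w ψ) (g : HGp K) (x y : Cx K M.V) :
    SZ ψ E (rM M g x) (rM M g y) = ((chi K g ^ w : ℂˣ) : ℂ) • cj (hM M) g (SZ ψ E x y) := by
  refine LinearMap.ext fun v => ?_
  rw [LinearMap.smul_apply, cj_hM, SZ_apply, SZ_apply, form_rho' h, form_rho' h, map_sub,
    map_smul, map_smul, map_smul, smul_sub, smul_smul, smul_smul, smul_smul, smul_smul]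
  congr 2
  ring

theorem SZ_equi' (h : Sim M w ψ) {g : HGp K} (hg : chi K g = 1) (x y : Cx K M.V) :
    cj (hM M) g (SZ ψ E x y) = SZ ψ E (rM M g x) (rM M g y) := by
  rw [SZ_equi h, hg, one_zpow, Units.val_one, one_smul]

/-- the symplectic relations -/
theorem sp_br (hs : ∀ x y, formC ψ x y = -formC ψ y x) (a b c d : Cx K M.V) :
    SZ ψ (-1) a b * SZ ψ (-1) c d - SZ ψ (-1) c d * SZ ψ (-1) a b =
      formC ψ b c • SZ ψ (-1) a d + formC ψ b d • SZ ψ (-1) a c + formC ψ a c • SZ ψ (-1) b d +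
        formC ψ a d • SZ ψ (-1) b c := by
  refine LinearMap.ext fun v => ?_
  simp only [LinearMap.sub_apply, Module.End.mul_apply, LinearMap.add_apply, LinearMap.smul_apply,
    SZ_apply, map_sub, map_smul]
  rw [hs c b, hs d b, hs c a, hs d a]
  module

/-- the orthogonal relations -/
theorem so_br (hs : ∀ x y, formC ψ x y = formC ψ y x) (a b c d : Cx K M.V) :
    SZ ψ 1 a b * SZ ψ 1 c d - SZ ψ 1 c d * SZ ψ 1 a b =
      formC ψ a d • SZ ψ 1 c b - formC ψ b d • SZ ψ 1 c a - formC ψ a c • SZ ψ 1 d b +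
        formC ψ b c • SZ ψ 1 d a := by
  refine LinearMap.ext fun v => ?_
  simp only [LinearMap.sub_apply, Module.End.mul_apply, LinearMap.add_apply, LinearMap.smul_apply,
    SZ_apply, map_sub, map_smul]
  rw [hs c b, hs d b, hs c a, hs d a]
  module

/-- the degrees and the form -/
theorem orth_DG (h : Sim M w ψ) {τ : ℂ ≃+* ℂ} (hτ : FixK K τ) {k l : ℤ} {a b : Cx K M.V}
    (ha : a ∈ DG M τ k) (hb : b ∈ DG M τ l) (hkl : k + l ≠ 0) : formC ψ a b = 0 := by
  have h1 := form_rho h (FreeGroup.of (⟨τ, hτ, two, two⁻¹⟩ : HP K)) a b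
  unfold rM at h1
  have h2 : Dg M.b M.e M.t τ two two⁻¹ a = ((two ^ k : ℂˣ) : ℂ) • a := ha
  have h3 : Dg M.b M.e M.t τ two two⁻¹ b = ((two ^ l : ℂˣ) : ℂ) • b := hb
  rw [rho_of, h2, h3, map_smul, map_smul, LinearMap.smul_apply, smul_smul, chi_of,
    mul_inv_cancel, one_zpow, Units.val_one, smul_eq_mul, one_mul, ← Units.val_mul,
    ← zpow_add] at h1
  by_contra h0
  have h4 : ((two ^ (l + k) : ℂˣ) : ℂ) = ((two ^ (0 : ℤ) : ℂˣ) : ℂ) := by
    refine mul_right_cancel₀ h0 ?_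
    rw [h1, zpow_zero, Units.val_one, one_mul]
  have h5 := two_inj' h4
  omega

section phi

variable {U : HS K} {Φ : Module.End ℂ (Cx K M.V) →ₗ[ℂ] Module.End ℂ (Cx K U.V)}

/-- the operators on `U` -/
def SU (ψ : M.V →ₗ[K] M.V →ₗ[K] K) (E : ℂ)
    (Φ : Module.End ℂ (Cx K M.V) →ₗ[ℂ] Module.End ℂ (Cx K U.V)) :
    Cx K M.V →ₗ[ℂ] Cx K M.V →ₗ[ℂ] Module.End ℂ (Cx K U.V) := (SZ ψ E).compr₂ Φ

theorem SU_apply (x y : Cx K M.V) : SU ψ E Φ x y = Φ (SZ ψ E x y) := rfl

theorem spRel (hs : ∀ x y, formC ψ x y = -formC ψ y x)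
    (hΦ : ∀ X ∈ skewC ψ, ∀ Y ∈ skewC ψ, Φ (X * Y - Y * X) = Φ X * Φ Y - Φ Y * Φ X) :
    SpRel (formC ψ) (SU ψ (-1) Φ) where
  alt := hs
  symm a b := by
    rw [SU_apply, SU_apply]
    congr 1
    refine LinearMap.ext fun v => ?_
    rw [SZ_apply, SZ_apply]
    module
  br a b c d := by
    have hm : ∀ a b, SZ ψ (-1) a b ∈ skewC ψ := SZ_mem (by norm_num) fun x y => by
      rw [hs, neg_one_mul]
    simp only [SU_apply]
    rw [← hΦ _ (hm a b) _ (hm c d), sp_br hs, map_add, map_add, map_add, map_smul, map_smul,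
      map_smul, map_smul]

theorem soRel (hs : ∀ x y, formC ψ x y = formC ψ y x)
    (hΦ : ∀ X ∈ skewC ψ, ∀ Y ∈ skewC ψ, Φ (X * Y - Y * X) = Φ X * Φ Y - Φ Y * Φ X) :
    SoRel (formC ψ) (SU ψ 1 Φ) where
  symm := hs
  alt a b := by
    rw [SU_apply, SU_apply, ← map_neg]
    congr 1
    refine LinearMap.ext fun v => ?_
    rw [LinearMap.neg_apply, SZ_apply, SZ_apply]
    module
  br a b c d := by
    have hm : ∀ a b, SZ ψ 1 a b ∈ skewC ψ := SZ_mem (by norm_num) fun x y => by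
      rw [hs, one_mul]
    simp only [SU_apply]
    rw [← hΦ _ (hm a b) _ (hm c d), so_br hs, map_add, map_sub, map_sub, map_smul, map_smul,
      map_smul, map_smul]

variable (hΦ : ∀ g, ∀ X ∈ skewC ψ, Φ (cj (hM M) g X) = cj (hM U) g (Φ X))

include hE hs hΦ

theorem SU_equi (h : Sim M w ψ) {g : HGp K} (hg : chi K g = 1) (x y : Cx K M.V) (u : Cx K U.V) :
    rM U g (SU ψ E Φ x y u) = SU ψ E Φ (rM M g x) (rM M g y) (rM U g u) := by
  rw [SU_apply, SU_apply, ← SZ_equi' h hg, hΦ g _ (SZ_mem hE hs x y), cj_hM, rM_inv]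

/-- the gradings are respected -/
theorem graded (h : Sim M w ψ) {d : ℤ} (hd : 0 < d)
    (hU : ∀ k, (U.t k).1 - (U.t k).2 ≤ d ∧ -d ≤ (U.t k).1 - (U.t k).2) :
    Graded (formC ψ) (SU ψ E Φ) (DG M (RingEquiv.refl ℂ)) (DG U (RingEquiv.refl ℂ)) d where
  pos := hd
  decV := dec_EG mon_diff
  decU := dec_EG mon_diff
  le m hm u hu := by
    refine (mv U.b U.e (RingEquiv.refl ℂ)).ext_elem fun k => ?_
    rw [map_zero, Finsupp.zero_apply]
    refine (mem_EG' mon_diff).1 hu k fun hk => ?_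
    have h1 := hU k
    rw [hk] at h1
    omega
  deg k l m a ha b hb u hu := by
    have h1 := SU_equi hE hs hΦ h
      (g := FreeGroup.of (⟨RingEquiv.refl ℂ, fun _ => rfl, two, two⁻¹⟩ : HP K))
      (by rw [chi_of, mul_inv_cancel]) a b u
    unfold rM at h1
    rw [rho_of, rho_of] at h1
    have h2 : Dg M.b M.e M.t (RingEquiv.refl ℂ) two two⁻¹ a = ((two ^ k : ℂˣ) : ℂ) • a := ha
    have h3 : Dg M.b M.e M.t (RingEquiv.refl ℂ) two two⁻¹ b = ((two ^ l : ℂˣ) : ℂ) • b := hb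
    have h4 : Dg U.b U.e U.t (RingEquiv.refl ℂ) two two⁻¹ u = ((two ^ m : ℂˣ) : ℂ) • u := hu
    change Dg U.b U.e U.t (RingEquiv.refl ℂ) two two⁻¹ (SU ψ E Φ a b u) = _
    rw [h1, h2, h3, h4, map_smul, map_smul, map_smul, LinearMap.smul_apply, LinearMap.smul_apply,
      LinearMap.smul_apply, smul_smul, smul_smul, zpow_add, zpow_add, Units.val_mul, Units.val_mul]
    congr 1
    ring
  orth k l a ha b hb hkl := orth_DG h (fun _ => rfl) ha hb hkl

end phi

end

end Pool.Agent.U233.HG
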