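import Pool.Agent.U233.HG.Pol
import Pool.Agent.U233.FG.Phi

/-!
# Hodge structures of a fixed weight with a form: similitudes, adjoints, skew operators
-/

set_option autoImplicit false
set_option linter.unusedSectionVars false

open TensorProduct

namespace Pool.Agent.U233.HG

open Module Pool.Agent.N179.DB Pool.Agent.N179.GR Pool.Agent.U233.FG
open Pool.Agent.N179.GR.S (GRep fl)
open Pool.Agent.N179.DB.S (Cx tens gal bc cx_ind tens_add tens_smul smul_tens exists_tens
  inF_tens bx_apply bc_tens bc_gal gal_add gal_tens)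

noncomputable section

variable {K : Type} [Field K] [Algebra K ℂ]

/-- the form respects the types, on a structure of weight `w` -/
structure Sim (M : HS K) (w : ℤ) (ψ : M.V →ₗ[K] M.V →ₗ[K] K) : Prop where
  weight : ∀ k, (M.t k).1 + (M.t k).2 = w
  orth : ∀ p q r s, ∀ x ∈ M.pq p q, ∀ y ∈ M.pq r s, (r ≠ q ∨ s ≠ p) → formC ψ x y = 0
  nd : ∀ x, (∀ y, formC ψ x y = 0) → x = 0

/-- the action of the group -/
abbrev rM (M : HS K) (g : HGp K) : Cx K M.V ≃ₗ[ℂ] Cx K M.V := rho M.b M.e M.t K g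

section sim

variable {M : HS K} {w : ℤ} {ψ : M.V →ₗ[K] M.V →ₗ[K] K}

theorem form_Dg2 (h : Sim M w ψ) {τ : ℂ ≃+* ℂ} (hτ : FixK K τ) (z u : ℂˣ) (x y : Cx K M.V) :
    formC ψ (Dg M.b M.e M.t τ z u x) (Dg M.b M.e M.t τ z u y) =
      (((z * u) ^ w : ℂˣ) : ℂ) * formC ψ x y := by
  let B := formC ψ
  let D := (Dg M.b M.e M.t τ z u).toLinearMap
  have key : B.compl₁₂ D D = (((z * u) ^ w : ℂˣ) : ℂ) • B := by
    refine (mv M.b M.e τ).ext fun k => (mv M.b M.e τ).ext fun l => ?_
    change B (Dg M.b M.e M.t τ z u (mv M.b M.e τ k)) (Dg M.b M.e M.t τ z u (mv M.b M.e τ l)) =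
      (((z * u) ^ w : ℂˣ) : ℂ) • B (mv M.b M.e τ k) (mv M.b M.e τ l)
    rw [Dg_mv, Dg_mv, map_smul, map_smul, LinearMap.smul_apply, mv_apply, mv_apply,
      ← M.gal_eq hτ, ← M.gal_eq hτ, formC_gal]
    by_cases hkl : (M.t l).1 = (M.t k).2 ∧ (M.t l).2 = (M.t k).1
    · rw [smul_smul, ← Units.val_mul]
      congr 2
      unfold mon
      rw [hkl.1, hkl.2, ← h.weight k, zpow_add, mul_zpow, mul_zpow, mul_comm (z ^ (M.t k).2),
        mul_mul_mul_comm, mul_comm (u ^ (M.t k).1) (z ^ (M.t k).1)]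
    · have h1 : formC ψ (M.e k) (M.e l) = 0 := by
        refine h.orth (M.t k).1 (M.t k).2 (M.t l).1 (M.t l).2 _ ((M.mem' _ _).2 (Typ.basis k)) _
          ((M.mem' _ _).2 (Typ.basis l)) ?_
        by_contra hcon
        push Not at hcon
        exact hkl hcon
      rw [h1, map_zero, smul_zero, smul_zero, smul_zero]
  exact LinearMap.congr_fun (LinearMap.congr_fun key x) y

theorem form_rho (h : Sim M w ψ) (g : HGp K) : ∀ x y : Cx K M.V,
    formC ψ (rM M g x) (rM M g y) = ((chi K g ^ w : ℂˣ) : ℂ) * formC ψ x y := by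
  refine hg_ind (C := fun g => ∀ x y : Cx K M.V,
    formC ψ (rM M g x) (rM M g y) = ((chi K g ^ w : ℂˣ) : ℂ) * formC ψ x y) g
    (fun x y => by
      unfold rM
      rw [map_one, map_one, one_zpow, Units.val_one, one_mul]
      rfl) (fun p x y => ?_) (fun g hg x y => ?_) (fun g g' hg hg' x y => ?_)
  · unfold rM
    rw [rho_of, form_Dg2 h p.fix, chi_of]
  · have h3 := hg (rM M g⁻¹ x) (rM M g⁻¹ y)
    unfold rM at h3 ⊢
    rw [apply_inv', apply_inv'] at h3
    rw [h3, map_inv (chi K), inv_zpow, ← mul_assoc, ← Units.val_mul, inv_mul_cancel, Units.val_one,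
      one_mul]
  · have h3 : ∀ x, rM M (g * g') x = rM M g (rM M g' x) := fun x => by
      unfold rM
      rw [map_mul]
      rfl
    rw [h3, h3, hg, hg', map_mul, mul_zpow, Units.val_mul, mul_assoc]

theorem form_rho' (h : Sim M w ψ) (g : HGp K) (x y : Cx K M.V) :
    formC ψ (rM M g x) y = ((chi K g ^ w : ℂˣ) : ℂ) * formC ψ x (rM M g⁻¹ y) := by
  rw [← form_rho h]
  unfold rM
  rw [apply_inv']

end sim

/-- equivariant maps which are defined over `K` respect the types -/
theorem isHom_of_equi {M N : HS K} (f : M.V →ₗ[K] N.V)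
    (h : ∀ g x, bc f (rM M g x) = rM N g (bc f x)) : IsHom (M := M) (N := N) f := by
  intro p q x hx
  rw [N.mem]
  rw [M.mem] at hx
  have h1 : Typ N.e N.t (p, q) (sl N.b (RingEquiv.refl ℂ).symm (bc f x)) := by
    refine typ_of_mon (b := N.b) fun z u => ?_
    have h2 := h (FreeGroup.of (⟨RingEquiv.refl ℂ, fun _ => rfl, z, u⟩ : HP K)) x
    unfold rM at h2
    rw [rho_of, rho_of] at h2
    have h3 := hx.dg (b := M.b) (RingEquiv.refl ℂ) z u
    rw [sl_refl] at h3
    have h4 : bc f (Dg M.b M.e M.t (RingEquiv.refl ℂ) z u x) = (mon z u (p, q) : ℂ) • bc f x := by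
      rw [h3, map_smul]
    exact h2.symm.trans h4
  have h2 : sl N.b (RingEquiv.refl ℂ).symm (bc f x) = bc f x := sl_refl N.b _
  rwa [h2] at h1

section star

variable {M : HS K} {ψ : M.V →ₗ[K] M.V →ₗ[K] K}

theorem tens_inj (M : HS K) {x : M.V} (h : (tens 1 x : Cx K M.V) = 0) : x = 0 := by
  refine M.bK.ext_elem fun i => ?_
  have h1 := DFunLike.congr_fun (congrArg M.b.repr h) i
  unfold HS.b at h1
  rw [S.bx_repr, one_mul, map_zero, Finsupp.zero_apply] at h1
  rw [map_zero, Finsupp.zero_apply]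
  exact (map_eq_zero_iff _ (algebraMap K ℂ).injective).1 h1

/-- nondegeneracy over `K` -/
theorem nd_K (hnd : ∀ x, (∀ y, formC ψ x y = 0) → x = 0) (x : M.V) (h : ∀ y, ψ x y = 0) :
    x = 0 := by
  refine tens_inj M (hnd _ fun y => ?_)
  refine cx_ind (p := fun y => formC ψ (tens 1 x) y = 0) (map_zero _) (fun r c => ?_)
    (fun a b ha hb => by rw [map_add, ha, hb, add_zero]) y
  rw [formC_tens, h, map_zero, mul_zero]

variable (hnd : ∀ x, (∀ y, formC ψ x y = 0) → x = 0)

/-- the form as an isomorphism -/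
def dualE : M.V ≃ₗ[K] Dual K M.V :=
  have hi : Function.Injective ψ := by
    rw [injective_iff_map_eq_zero]
    intro x hx
    exact nd_K hnd x fun y => by rw [hx]; rfl
  LinearEquiv.ofBijective ψ ⟨hi,
    (LinearMap.injective_iff_surjective_of_finrank_eq_finrank Subspace.dual_finrank_eq.symm).1 hi⟩

theorem dualE_apply (x y : M.V) : dualE hnd x y = ψ x y := rfl

theorem dualE_symm (f : Dual K M.V) (y : M.V) : ψ ((dualE hnd).symm f) y = f y := by
  rw [← dualE_apply hnd, LinearEquiv.apply_symm_apply]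

/-- the adjoint operator -/
def starK : (M.V →ₗ[K] M.V) →ₗ[K] (M.V →ₗ[K] M.V) where
  toFun X := (dualE hnd).symm.toLinearMap ∘ₗ X.dualMap ∘ₗ (dualE hnd).toLinearMap
  map_add' X Y := by
    refine LinearMap.ext fun v => ?_
    change (dualE hnd).symm ((X + Y).dualMap (dualE hnd v)) =
      (dualE hnd).symm (X.dualMap (dualE hnd v)) + (dualE hnd).symm (Y.dualMap (dualE hnd v))
    rw [← map_add]
    congr 1
    refine LinearMap.ext fun u => ?_
    change dualE hnd v (X u + Y u) = dualE hnd v (X u) + dualE hnd v (Y u)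
    exact map_add _ _ _
  map_smul' c X := by
    refine LinearMap.ext fun v => ?_
    change (dualE hnd).symm ((c • X).dualMap (dualE hnd v)) =
      c • (dualE hnd).symm (X.dualMap (dualE hnd v))
    rw [← map_smul]
    congr 1
    refine LinearMap.ext fun u => ?_
    change dualE hnd v (c • X u) = c • dualE hnd v (X u)
    exact map_smul _ _ _

theorem starK_spec (X : M.V →ₗ[K] M.V) (x y : M.V) : ψ (starK hnd X x) y = ψ x (X y) :=
  dualE_symm hnd _ y

variable {ε : K} (hε : ε * ε = 1) (hs : ∀ x y, ψ x y = ε * ψ y x)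

include hε hs in
theorem starK_spec' (X : M.V →ₗ[K] M.V) (x y : M.V) : ψ x (starK hnd X y) = ψ (X x) y := by
  rw [hs, starK_spec, hs, ← mul_assoc, hε, one_mul]

include hs in
theorem formC_symm (x y : Cx K M.V) : formC ψ x y = algebraMap K ℂ ε * formC ψ y x := by
  have key : formC ψ = algebraMap K ℂ ε • (formC ψ).flip := by
    refine M.b.ext fun i => M.b.ext fun j => ?_
    change formC ψ (M.b i) (M.b j) = algebraMap K ℂ ε * formC ψ (M.b j) (M.b i)
    have h1 : ∀ i, M.b i = tens 1 (M.bK i) := fun i => bx_apply M.bK i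
    rw [h1, h1, formC_tens, formC_tens, one_mul, one_mul, one_mul, hs, map_mul]
  exact LinearMap.congr_fun (LinearMap.congr_fun key x) y

include hnd hε hs in
theorem nd' (y : Cx K M.V) (h : ∀ x, formC ψ x y = 0) : y = 0 := by
  refine hnd y fun x => ?_
  rw [formC_symm hs, h, mul_zero]

theorem opM_tens (M : HS K) (r : ℂ) (X : M.V →ₗ[K] M.V) :
    opM M (tens r X : Cx K (M.V →ₗ[K] M.V)) = r • bc X :=
  (opC_eq M.bK _).symm.trans (opC_tens r X)

theorem form_bc (X : M.V →ₗ[K] M.V) (x y : Cx K M.V) :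
    formC ψ (bc (starK hnd X) x) y = formC ψ x (bc X y) := by
  have key : (formC ψ).comp (bc (starK hnd X)) = (formC ψ).compl₂ (bc X) := by
    refine M.b.ext fun i => M.b.ext fun j => ?_
    change formC ψ (bc (starK hnd X) (M.b i)) (M.b j) = formC ψ (M.b i) (bc X (M.b j))
    have h1 : ∀ i, M.b i = tens 1 (M.bK i) := fun i => bx_apply M.bK i
    rw [h1, h1, bc_tens, bc_tens, formC_tens, formC_tens, starK_spec]
  exact LinearMap.congr_fun (LinearMap.congr_fun key x) y

include hε hs in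
theorem form_bc' (X : M.V →ₗ[K] M.V) (x y : Cx K M.V) :
    formC ψ x (bc (starK hnd X) y) = formC ψ (bc X x) y := by
  have key : (formC ψ).compl₂ (bc (starK hnd X)) = (formC ψ).comp (bc X) := by
    refine M.b.ext fun i => M.b.ext fun j => ?_
    change formC ψ (M.b i) (bc (starK hnd X) (M.b j)) = formC ψ (bc X (M.b i)) (M.b j)
    have h1 : ∀ i, M.b i = tens 1 (M.bK i) := fun i => bx_apply M.bK i
    rw [h1, h1, bc_tens, bc_tens, formC_tens, formC_tens, starK_spec' hnd hε hs]
  exact LinearMap.congr_fun (LinearMap.congr_fun key x) y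

/-- the adjoint with complex coefficients -/
def starC : Cx K M.endo.V →ₗ[ℂ] Cx K M.endo.V :=
  bc (V := M.V →ₗ[K] M.V) (V' := M.V →ₗ[K] M.V) (starK hnd)

theorem endo_ind {M : HS K} {p : Cx K M.endo.V → Prop} (h0 : p 0)
    (h1 : ∀ (r : ℂ) (X : M.V →ₗ[K] M.V), p (tens r X : Cx K (M.V →ₗ[K] M.V)))
    (h2 : ∀ a b, p a → p b → p (a + b)) (A : Cx K M.endo.V) : p A :=
  cx_ind (K := K) (V := M.endo.V) h0 h1 h2 A

theorem adj_C (A : Cx K M.endo.V) (x y : Cx K M.V) :
    formC ψ (opM M (starC hnd A) x) y = formC ψ x (opM M A y) := by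
  refine endo_ind (p := fun A => formC ψ (opM M (starC hnd A) x) y =
    formC ψ x (opM M A y)) ?_ (fun r X => ?_) (fun a b ha hb => ?_) A
  · rw [map_zero, map_zero, LinearMap.zero_apply, LinearMap.zero_apply, map_zero, map_zero,
      LinearMap.zero_apply]
  · have h0 : starC hnd (tens r X : Cx K (M.V →ₗ[K] M.V)) = 
        (tens r (starK hnd X) : Cx K (M.V →ₗ[K] M.V)) := rfl
    rw [h0, opM_tens, opM_tens, LinearMap.smul_apply, LinearMap.smul_apply, map_smul, map_smul,
      LinearMap.smul_apply, form_bc]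
  · rw [map_add, map_add, map_add, LinearMap.add_apply, LinearMap.add_apply, map_add, map_add,
      LinearMap.add_apply, ha, hb]

include hε hs in
theorem adj_C' (A : Cx K M.endo.V) (x y : Cx K M.V) :
    formC ψ x (opM M (starC hnd A) y) = formC ψ (opM M A x) y := by
  refine endo_ind (p := fun A => formC ψ x (opM M (starC hnd A) y) =
    formC ψ (opM M A x) y) ?_ (fun r X => ?_) (fun a b ha hb => ?_) A
  · rw [map_zero, map_zero, LinearMap.zero_apply, LinearMap.zero_apply, map_zero, map_zero,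
      LinearMap.zero_apply]
  · have h0 : starC hnd (tens r X : Cx K (M.V →ₗ[K] M.V)) = 
        (tens r (starK hnd X) : Cx K (M.V →ₗ[K] M.V)) := rfl
    rw [h0, opM_tens, opM_tens, LinearMap.smul_apply, LinearMap.smul_apply, map_smul, map_smul,
      LinearMap.smul_apply, form_bc' hnd hε hs]
  · rw [map_add, map_add, map_add, LinearMap.add_apply, LinearMap.add_apply, map_add, map_add,
      LinearMap.add_apply, ha, hb]

variable (ψ) in
/-- the skew operators -/
def skewK : Set M.endo.V := {X | ∀ x y, ψ ((show M.V →ₗ[K] M.V from X) x) y +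
  ψ x ((show M.V →ₗ[K] M.V from X) y) = 0}

variable (ψ) in
/-- the skew operators with complex coefficients -/
def skewC : Submodule ℂ (Module.End ℂ (Cx K M.V)) where
  carrier := {X | ∀ x y, formC ψ (X x) y + formC ψ x (X y) = 0}
  zero_mem' := fun x y => by
    rw [LinearMap.zero_apply, LinearMap.zero_apply, map_zero, map_zero, LinearMap.zero_apply,
      add_zero]
  add_mem' := fun {X Y} hX hY x y => by
    have h1 := hX x y
    have h2 := hY x y
    rw [LinearMap.add_apply, LinearMap.add_apply, map_add, map_add, LinearMap.add_apply]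
    linear_combination h1 + h2
  smul_mem' := fun c X hX x y => by
    have h1 := hX x y
    rw [LinearMap.smul_apply, LinearMap.smul_apply, map_smul, map_smul, LinearMap.smul_apply,
      smul_eq_mul, smul_eq_mul]
    linear_combination c * h1

/-- the projection to the skew operators -/
def pK : M.endo.V →ₗ[K] M.endo.V :=
  (2 : K)⁻¹ • ((LinearMap.id : (M.V →ₗ[K] M.V) →ₗ[K] (M.V →ₗ[K] M.V)) - starK hnd)

/-- the projection with complex coefficients -/
def pC : Cx K M.endo.V →ₗ[ℂ] Cx K M.endo.V := bc (pK hnd)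

theorem pC_eq (A : Cx K M.endo.V) : pC hnd A = (2 : ℂ)⁻¹ • (A - starC hnd A) := by
  refine endo_ind (p := fun A => pC hnd A = (2 : ℂ)⁻¹ • (A - starC hnd A)) ?_ (fun r X => ?_)
    (fun a b ha hb => ?_) A
  · rw [map_zero, map_zero, sub_zero, smul_zero]
  · have h0 : starC hnd (tens r X : Cx K (M.V →ₗ[K] M.V)) = 
        (tens r (starK hnd X) : Cx K (M.V →ₗ[K] M.V)) := rfl
    have h1 : pC hnd (tens r X : Cx K (M.V →ₗ[K] M.V)) = 
        (tens r ((2 : K)⁻¹ • (X - starK hnd X)) : Cx K (M.V →ₗ[K] M.V)) := rfl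
    have h2 : (tens r ((2 : K)⁻¹ • (X - starK hnd X)) : Cx K (M.V →ₗ[K] M.V)) =
        (2 : ℂ)⁻¹ • (tens r X - tens r (starK hnd X)) := by
      rw [tens_smul, map_inv₀, map_ofNat, ← smul_tens]
      congr 1
      exact TensorProduct.tmul_sub _ _ _
    rw [h1, h0]
    exact h2
  · rw [map_add, map_add, ha, hb, ← smul_add]
    congr 1
    abel

variable [CharZero K]

include hε hs in
theorem pK_mem (X : M.endo.V) : pK hnd X ∈ skewK ψ := by
  intro x y
  have e1 : ∀ x, (show M.V →ₗ[K] M.V from pK hnd X) x =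
    (2 : K)⁻¹ • ((show M.V →ₗ[K] M.V from X) x - starK hnd (show M.V →ₗ[K] M.V from X) x) :=
    fun x => rfl
  rw [e1, e1, map_smul, map_smul, map_sub, map_sub, LinearMap.smul_apply, LinearMap.sub_apply,
    starK_spec, starK_spec' hnd hε hs, smul_eq_mul, smul_eq_mul]
  ring

include hε hs in
theorem pC_mem (A : Cx K M.endo.V) :
    (show Module.End ℂ (Cx K M.V) from opM M (pC hnd A)) ∈ skewC ψ := by
  intro x y
  change formC ψ (opM M (pC hnd A) x) y + formC ψ x (opM M (pC hnd A) y) = 0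
  rw [pC_eq, map_smul, map_sub, LinearMap.smul_apply, LinearMap.smul_apply, LinearMap.sub_apply,
    LinearMap.sub_apply, map_smul, map_smul, map_sub, map_sub, LinearMap.smul_apply,
    LinearMap.sub_apply, adj_C, adj_C' hnd hε hs, smul_eq_mul, smul_eq_mul]
  ring

include hε hs in
theorem pC_fix {A : Cx K M.endo.V}
    (hA : (show Module.End ℂ (Cx K M.V) from opM M A) ∈ skewC ψ) : pC hnd A = A := by
  have h1 : starC hnd A = -A := by
    apply (opM M).injective
    refine LinearMap.ext fun y => ?_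
    rw [← sub_eq_zero]
    refine nd' hnd hε hs _ fun x => ?_
    have h2 : formC ψ (opM M A x) y + formC ψ x (opM M A y) = 0 := hA x y
    rw [map_sub, adj_C' hnd hε hs, map_neg, LinearMap.neg_apply, map_neg, sub_neg_eq_add]
    exact h2
  rw [pC_eq, h1, sub_neg_eq_add, ← two_smul ℂ, smul_smul, inv_mul_cancel₀ two_ne_zero, one_smul]

end star

end

end Pool.Agent.U233.HG
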