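import Pool.Agent.U233.FG.Gr

/-!
# Representations of the orthogonal Lie algebra: a map from the standard representation
-/

set_option autoImplicit false

namespace Pool.Agent.U233.FG

noncomputable section

variable {F : Type*} [Field F] {V U : Type*} [AddCommGroup V] [Module F V]
  [AddCommGroup U] [Module F U]

/-- The relations of the orthogonal Lie algebra. -/
structure SoRel (B : V →ₗ[F] V →ₗ[F] F) (S : V →ₗ[F] V →ₗ[F] Module.End F U) : Prop where
  symm : ∀ a b, B a b = B b a
  alt : ∀ a b, S a b = -S b a
  br : ∀ a b c d, S a b * S c d - S c d * S a b =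
    B a d • S c b - B b d • S c a - B a c • S d b + B b c • S d a

namespace SoRel

variable {B : V →ₗ[F] V →ₗ[F] F} {S : V →ₗ[F] V →ₗ[F] Module.End F U}

theorem comm (h : SoRel B S) (a b c d : V) (y : U) :
    S a b (S c d y) = S c d (S a b y) +
      (B a d • S c b y - B b d • S c a y - B a c • S d b y + B b c • S d a y) := by
  have h1 := LinearMap.congr_fun (h.br a b c d) y
  rw [LinearMap.sub_apply, Module.End.mul_apply, Module.End.mul_apply, sub_eq_iff_eq_add] at h1
  rw [h1, add_comm]
  rfl

variable [CharZero F]

theorem self (h : SoRel B S) (a : V) : S a a = 0 := by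
  have h1 := h.alt a a
  rw [eq_neg_iff_add_eq_zero, ← two_smul F] at h1
  exact (smul_eq_zero.1 h1).resolve_left two_ne_zero

theorem alt' (h : SoRel B S) (a b : V) (y : U) : S a b y = -S b a y := by
  rw [h.alt, LinearMap.neg_apply]

/-- The theorem. -/
theorem exists_map (h : SoRel B S) {b c : V} (hbb : B b b = 0) (hcc : B c c = 0) (hbc : B b c = 1)
    {p q : V} (hp : Orth B b c p) (hq : Orth B b c q) (hpq : B p q = -1) {y Z : U}
    (h1 : ∀ e, Orth B b c e → S b e y = 0) (h2 : S c b y = y)
    (h3 : ∀ e e', Orth B b c e → Orth B b c e' → S e e' y = 0)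
    (h4 : ∀ e e', Orth B b c e → Orth B b c e' → S c e (S c e' y) = -B e e' • Z)
    (h5 : ∀ e, Orth B b c e → S c e Z = 0) :
    ∃ f : V →ₗ[F] U, (∀ x x' v, S x x' (f v) = f (B x v • x' - B x' v • x)) ∧ f b = y := by
  have hcb : B c b = 1 := by rw [h.symm, hbc]
  let f : V →ₗ[F] U :=
    { toFun := fun v => S c v y + B b v • Z
      map_add' := fun v w => by
        rw [map_add, map_add, LinearMap.add_apply, add_smul]
        abel
      map_smul' := fun r v => by
        rw [map_smul, map_smul, LinearMap.smul_apply, RingHom.id_apply, smul_add, smul_eq_mul,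
          mul_smul] }
  have hf : ∀ v, f v = S c v y + B b v • Z := fun v => rfl
  have hfb : f b = y := by rw [hf, hbb, h2, zero_smul, add_zero]
  have hfc : f c = Z := by rw [hf, hbc, h.self, LinearMap.zero_apply, one_smul, zero_add]
  have hfe : ∀ e, B b e = 0 → f e = S c e y := by
    intro e he
    rw [hf, he, zero_smul, add_zero]
  have hor : ∀ e, Orth B b c e → B e b = 0 ∧ B e c = 0 := fun e he =>
    ⟨by rw [h.symm, he.1], by rw [h.symm, he.2]⟩
  -- the operators on `S c e y`
  have hcbe : ∀ e, Orth B b c e → S c b (S c e y) = 0 := by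
    intro e he
    rw [h.comm c b c e y, he.2, he.1, hcc, hbc, h2, h.alt' e c]
    module
  have hbee : ∀ e e', Orth B b c e → Orth B b c e' → S b e (S c e' y) = -B e e' • y := by
    intro e e' he he'
    rw [h.comm b e c e' y, h1 e he, map_zero, he'.1, hbc, (hor e he).2, h2, h3 e' e he' he]
    module
  have heee : ∀ e e' x, Orth B b c e → Orth B b c e' → Orth B b c x → ∀ w,
      S e e' (S c x w) = S c x (S e e' w) + S c (B e x • e' - B e' x • e) w := by
    intro e e' x he he' hx w
    rw [h.comm e e' c x w, (hor e he).2, (hor e' he').2, map_sub, map_smul, map_smul,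
      LinearMap.sub_apply, LinearMap.smul_apply, LinearMap.smul_apply]
    module
  -- the vector `Z`
  have hZ : Z = S c p (S c q y) := by rw [h4 p q hp hq, hpq, neg_neg, one_smul]
  have hZ1 : S c b Z = -Z := by
    rw [hZ, h.comm c b c p, hcbe q hq, hp.2, hp.1, hcc, hbc, map_zero, h.alt' p c]
    module
  have hZ2 : ∀ e, Orth B b c e → S b e Z = S c e y := by
    intro e he
    rw [hZ, h.comm b e c p, hbee e q he hq, hcbe q hq, hp.1, hbc, (hor e he).2,
      heee p e q hp he hq, h3 p e hp he, map_zero, hpq]
    simp only [map_sub, map_smul, LinearMap.sub_apply, LinearMap.smul_apply]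
    module
  have hZ3 : ∀ e e', Orth B b c e → Orth B b c e' → S e e' Z = 0 := by
    intro e e' he he'
    have ho : ∀ x, Orth B b c (B e x • e' - B e' x • e) := by
      intro x
      constructor
      · rw [map_sub, map_smul, map_smul, he.1, he'.1]
        simp
      · rw [map_sub, map_smul, map_smul, he.2, he'.2]
        simp
    rw [hZ, heee e e' p he he' hp, heee e e' q he he' hq, h3 e e' he he', map_zero, zero_add,
      h4 _ _ hp (ho q), h4 _ _ (ho p) hq, ← add_smul]
    have h6 : -(B p (B e q • e' - B e' q • e)) + -(B (B e p • e' - B e' p • e) q) = 0 := by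
      rw [map_sub, map_smul, map_smul, map_sub, map_smul, map_smul, LinearMap.sub_apply,
        LinearMap.smul_apply, LinearMap.smul_apply, smul_eq_mul, smul_eq_mul, smul_eq_mul,
        smul_eq_mul, h.symm p e, h.symm p e']
      ring
    rw [h6, zero_smul]
  -- the cases
  have key_be : ∀ e v, Orth B b c e → (v = b ∨ Orth B b c v ∨ v = c) →
      S b e (f v) = B b v • f e - B e v • f b := by
    rintro e v he (rfl | hv | rfl)
    · rw [hfb, h1 e he, hbb, (hor e he).1]
      simp
    · rw [hfe v hv.1, hbee e v he hv, hv.1, hfb]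
      module
    · rw [hfc, hZ2 e he, hbc, (hor e he).2, hfe e he.1]
      module
  have key_bc : ∀ v, (v = b ∨ Orth B b c v ∨ v = c) → S b c (f v) = B b v • f c - B c v • f b := by
    rintro v (rfl | hv | rfl)
    · rw [hfb, h.alt', h2, hbb, hcb]
      module
    · rw [hfe v hv.1, h.alt', hcbe v hv, hv.1, hv.2]
      simp
    · rw [hfc, h.alt', hZ1, hbc, hcc]
      module
  have key_ee : ∀ e e' v, Orth B b c e → Orth B b c e' → (v = b ∨ Orth B b c v ∨ v = c) →
      S e e' (f v) = B e v • f e' - B e' v • f e := by
    rintro e e' v he he' (rfl | hv | rfl)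
    · rw [hfb, h3 e e' he he', (hor e he).1, (hor e' he').1]
      simp
    · rw [hfe v hv.1, heee e e' v he he' hv, h3 e e' he he', map_zero, hfe e he.1, hfe e' he'.1,
        map_sub, map_smul, map_smul, LinearMap.sub_apply, LinearMap.smul_apply,
        LinearMap.smul_apply, zero_add]
    · rw [hfc, hZ3 e e' he he', (hor e he).2, (hor e' he').2]
      simp
  have key_ec : ∀ e v, Orth B b c e → (v = b ∨ Orth B b c v ∨ v = c) →
      S e c (f v) = B e v • f c - B c v • f e := by
    rintro e v he (rfl | hv | rfl)
    · rw [hfb, h.alt', (hor e he).1, hcb, hfe e he.1]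
      module
    · rw [hfe v hv.1, h.alt', h4 e v he hv, hv.2, hfc]
      module
    · rw [hfc, h.alt', h5 e he, (hor e he).2, hcc]
      simp
  -- the decomposition
  have hdec : ∀ v, ∃ e, Orth B b c e ∧ v = B c v • b + e + B b v • c := by
    intro v
    refine ⟨v - B c v • b - B b v • c, ⟨?_, ?_⟩, ?_⟩
    · rw [map_sub, map_sub, map_smul, map_smul, hbb, hbc]
      simp
    · rw [map_sub, map_sub, map_smul, map_smul, hcb, hcc]
      simp
    · module
  have ind : ∀ {P : V → Prop}, (∀ v, (v = b ∨ Orth B b c v ∨ v = c) → P v) →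
      (∀ x y, P x → P y → P (x + y)) → (∀ (r : F) x, P x → P (r • x)) → ∀ v, P v := by
    intro P h1 h2 h3 v
    obtain ⟨e, he, hv⟩ := hdec v
    rw [hv]
    exact h2 _ _ (h2 _ _ (h3 _ _ (h1 b (Or.inl rfl))) (h1 e (Or.inr (Or.inl he))))
      (h3 _ _ (h1 c (Or.inr (Or.inr rfl))))
  refine ⟨f, fun x x' v => ?_, hfb⟩
  rw [map_sub, map_smul, map_smul]
  refine ind (P := fun v => S x x' (f v) = B x v • f x' - B x' v • f x) (fun v hv => ?_)
    (fun v v' h1 h2 => ?_) (fun r v h1 => ?_) v
  · refine ind (P := fun x => S x x' (f v) = B x v • f x' - B x' v • f x) (fun x hx => ?_)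
      (fun x x' h1 h2 => ?_) (fun r x h1 => ?_) x
    · refine ind (P := fun x' => S x x' (f v) = B x v • f x' - B x' v • f x) (fun x' hx' => ?_)
        (fun y y' h1 h2 => ?_) (fun r y h1 => ?_) x'
      · rcases hx with rfl | hx | rfl
        · rcases hx' with rfl | hx' | rfl
          · rw [h.self, LinearMap.zero_apply]
            module
          · exact key_be x' v hx' hv
          · exact key_bc v hv
        · rcases hx' with rfl | hx' | rfl
          · rw [h.alt', key_be x v hx hv]
            abel
          · exact key_ee x x' v hx hx' hv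
          · exact key_ec x v hx hv
        · rcases hx' with rfl | hx' | rfl
          · rw [h.alt', key_bc v hv]
            abel
          · rw [h.alt', key_ec x' v hx' hv]
            abel
          · rw [h.self, LinearMap.zero_apply]
            module
      · rw [map_add, LinearMap.add_apply, h1, h2, map_add, map_add, LinearMap.add_apply]
        module
      · rw [map_smul, LinearMap.smul_apply, h1, map_smul, map_smul, LinearMap.smul_apply,
          smul_eq_mul]
        module
    · rw [map_add, LinearMap.add_apply, LinearMap.add_apply, h1, h2, map_add, map_add,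
        LinearMap.add_apply]
      module
    · rw [map_smul, LinearMap.smul_apply, LinearMap.smul_apply, h1, map_smul, map_smul,
        LinearMap.smul_apply, smul_eq_mul]
      module
  · rw [map_add, map_add, h1, h2, map_add, map_add]
    module
  · rw [map_smul, map_smul, h1, map_smul, map_smul, smul_eq_mul, smul_eq_mul]
    module

end SoRel

end

end Pool.Agent.U233.FG
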