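import Pool.Agent.U233.FG.So

/-!
# The matrix units on the top degree
-/

set_option autoImplicit false

namespace Pool.Agent.U233.FG

noncomputable section

variable {F : Type*} [Field F] {V U : Type*} [AddCommGroup V] [Module F V]
  [AddCommGroup U] [Module F U]
  {B : V →ₗ[F] V →ₗ[F] F} {S : V →ₗ[F] V →ₗ[F] Module.End F U}
  {DV : ℤ → Submodule F V} {DU : ℤ → Submodule F U} {d : ℤ}

theorem exists_nmem {ι : Type} [Fintype ι] [DecidableEq ι] (h5 : 5 ≤ Fintype.card ι)
    (s : Finset ι) (hs : s.card ≤ 4) : ∃ a, a ∉ s := by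
  by_contra hcon
  push Not at hcon
  have h1 : s = Finset.univ := Finset.eq_univ_iff_forall.2 hcon
  rw [h1, Finset.card_univ] at hs
  omega

namespace SoRel

section top

variable (h : SoRel B S) (hg : Graded B S DV DU d)

include h hg

/-- raising the top degree -/
theorem up {k l : ℤ} {a b : V} {w : U} (ha : a ∈ DV k) (hb : b ∈ DV l) (hkl : 0 < k + l)
    (hw : w ∈ DU d) : S a b w = 0 :=
  hg.le _ (Or.inl (by omega)) _ (hg.deg k l d a ha b hb w hw)

/-- lowering the bottom degree -/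
theorem down {k l : ℤ} {a b : V} {w : U} (ha : a ∈ DV k) (hb : b ∈ DV l) (hkl : k + l < 0)
    (hw : w ∈ DU (-d)) : S a b w = 0 :=
  hg.le _ (Or.inr (by omega)) _ (hg.deg k l (-d) a ha b hb w hw)

theorem deg_P {u v : V} {z : U} (hu : u ∈ DV d) (hv : v ∈ DV d) (hz : z ∈ DU (-d)) :
    S u v z ∈ DU d := by
  have h1 := hg.deg d d (-d) u hu v hv z hz
  rwa [add_neg_cancel_right] at h1

theorem deg_N {c c' : V} {w : U} (hc : c ∈ DV (-d)) (hc' : c' ∈ DV (-d)) (hw : w ∈ DU d) :
    S c c' w ∈ DU (-d) := by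
  have h1 := hg.deg (-d) (-d) d c hc c' hc' w hw
  rwa [neg_add_cancel_right] at h1

theorem deg_G {u c : V} {w : U} {m : ℤ} (hc : c ∈ DV (-d)) (hu : u ∈ DV d) (hw : w ∈ DU m) :
    S c u w ∈ DU m := by
  have h1 := hg.deg (-d) d m c hc u hu w hw
  rwa [neg_add_cancel, zero_add] at h1

theorem iso_top {u v : V} (hu : u ∈ DV d) (hv : v ∈ DV d) : B u v = 0 :=
  hg.orth d d u hu v hv (by have := hg.pos; omega)

theorem iso_bot {u v : V} (hu : u ∈ DV (-d)) (hv : v ∈ DV (-d)) : B u v = 0 :=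
  hg.orth (-d) (-d) u hu v hv (by have := hg.pos; omega)

theorem PN {u v c c' : V} {w : U} (hu : u ∈ DV d) (hv : v ∈ DV d) (hw : w ∈ DU d) :
    S u v (S c c' w) = B u c' • S c v w - B v c' • S c u w - B u c • S c' v w +
      B v c • S c' u w := by
  have hd := hg.pos
  rw [h.comm u v c c' w, h.up hg hu hv (by omega) hw, map_zero, zero_add]

theorem NP {u v c c' : V} {z : U} (hc : c ∈ DV (-d)) (hc' : c' ∈ DV (-d)) (hz : z ∈ DU (-d)) :
    S c c' (S u v z) = B c v • S u c' z - B c' v • S u c z - B c u • S v c' z +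
      B c' u • S v c z := by
  have hd := hg.pos
  rw [h.comm c c' u v z, h.down hg hc hc' (by omega) hz, map_zero, zero_add]

end top

/-- dual families in the top and bottom degree -/
structure Dual {ι : Type} (B : V →ₗ[F] V →ₗ[F] F) (DV : ℤ → Submodule F V) (d : ℤ)
    (u c : ι → V) : Prop where
  memu : ∀ i, u i ∈ DV d
  memc : ∀ i, c i ∈ DV (-d)
  one : ∀ i, B (u i) (c i) = 1
  zero : ∀ i j, i ≠ j → B (u i) (c j) = 0
  spu : DV d ≤ Submodule.span F (Set.range u)
  spc : DV (-d) ≤ Submodule.span F (Set.range c)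

section units

variable [CharZero F] {ι : Type} [Fintype ι] {u c : ι → V}
  (h : SoRel B S) (hg : Graded B S DV DU d) (hD : Dual B DV d u c)

include h hg hD

theorem rep1 {i j a : ι} {w : U} (hw : w ∈ DU d) (hai : a ≠ i) (haj : a ≠ j) :
    S (u a) (u i) (S (c a) (c j) w) = -(B (u i) (c j) • S (c a) (u a) w) - S (c j) (u i) w := by
  rw [h.PN hg (hD.memu a) (hD.memu i) hw, hD.zero a j haj, hD.one, hD.zero i a hai.symm]
  module

theorem rep2 {i j a : ι} {w : U} (hw : w ∈ DU d) (hij : i ≠ j) (hai : a ≠ i) (haj : a ≠ j) :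
    S (c j) (u i) w = -S (u a) (u i) (S (c a) (c j) w) := by
  rw [h.rep1 hg hD hw hai haj, hD.zero i j hij]
  module

/-- disjoint -/
theorem off1 (h5 : 5 ≤ Fintype.card ι) {i j k l : ι} {w : U} (hw : w ∈ DU d) (hij : i ≠ j)
    (hkl : k ≠ l) (hjk : j ≠ k) : S (c j) (u i) (S (c l) (u k) w) = 0 := by
  classical
  obtain ⟨a, ha⟩ := exists_nmem h5 {i, j, k} (Finset.card_le_three.trans (by omega))
  obtain ⟨b, hb⟩ := exists_nmem h5 {k, l, j, a} Finset.card_le_four
  simp only [Finset.mem_insert, Finset.mem_singleton, not_or] at ha hb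
  have hz := h.deg_N hg (hD.memc b) (hD.memc l) hw
  rw [h.rep2 hg hD hw hkl hb.1 hb.2.1, map_neg,
    h.rep2 hg hD (h.deg_P hg (hD.memu b) (hD.memu k) hz) hij ha.1 ha.2.1,
    h.NP hg (hD.memc a) (hD.memc j) hz, h.symm (c a) (u k), h.symm (c j) (u k),
    h.symm (c a) (u b), h.symm (c j) (u b), hD.zero k a (Ne.symm ha.2.2), hD.zero k j (Ne.symm hjk),
    hD.zero b a hb.2.2.2, hD.zero b j hb.2.2.1]
  simp

theorem off2 {i j l a b : ι} {w : U} (hw : w ∈ DU d) (hij : i ≠ j) (hjl : j ≠ l)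
    (hb1 : b ≠ i) (hb2 : b ≠ j) (hb3 : b ≠ l) (ha1 : a ≠ i) (ha2 : a ≠ j) (ha3 : a ≠ l)
    (hab : a ≠ b) : S (c j) (u i) (S (c l) (u j) w) =
      S (c l) (u i) w + B (u i) (c l) • (S (c b) (u b) w - S (c a) (u b) (S (c b) (u a) w)) := by
  have hz := h.deg_N hg (hD.memc b) (hD.memc l) hw
  have hd := hg.pos
  rw [h.rep2 hg hD hw hjl hb2 hb3, map_neg,
    h.rep2 hg hD (h.deg_P hg (hD.memu b) (hD.memu j) hz) hij ha1 ha2, neg_neg,
    h.NP hg (hD.memc a) (hD.memc j) hz, h.symm (c a) (u j), h.symm (c j) (u j),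
    h.symm (c a) (u b), h.symm (c j) (u b), hD.zero j a (Ne.symm ha2), hD.one,
    hD.zero b a (Ne.symm hab), hD.zero b j hb2]
  have h1 : (0 : F) • S (u b) (c j) (S (c b) (c l) w) - (1 : F) • S (u b) (c a) (S (c b) (c l) w) -
      (0 : F) • S (u j) (c j) (S (c b) (c l) w) + (0 : F) • S (u j) (c a) (S (c b) (c l) w) =
      S (c a) (u b) (S (c b) (c l) w) := by
    rw [h.alt' (u b) (c a)]
    module
  rw [h1, h.comm (u a) (u i) (c a) (u b), h.PN hg (hD.memu a) (hD.memu i) hw,
    h.iso_top hg (hD.memu a) (hD.memu b), h.iso_top hg (hD.memu i) (hD.memu b), hD.one,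
    hD.zero i a (Ne.symm ha1), hD.zero a l ha3, hD.zero a b hab, hD.zero i b (Ne.symm hb1),
    h.rep1 hg hD hw hb1 hb3]
  have h2 : (0 : F) • S (c b) (u i) w - B (u i) (c l) • S (c b) (u a) w -
      (0 : F) • S (c l) (u i) w + (0 : F) • S (c l) (u a) w =
      -(B (u i) (c l) • S (c b) (u a) w) := by module
  rw [h2, map_neg, map_smul]
  module

theorem off3 (h5 : 5 ≤ Fintype.card ι) {i j : ι} {w : U} (hw : w ∈ DU d) (hij : i ≠ j) :
    S (c j) (u i) (S (c i) (u j) w) = S (c i) (u i) w := by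
  classical
  -- the defect
  have key : ∀ i j a b : ι, i ≠ j → b ≠ i → b ≠ j → a ≠ i → a ≠ j → a ≠ b →
      S (c j) (u i) (S (c i) (u j) w) - S (c i) (u i) w =
        -(S (c a) (u b) (S (c b) (u a) w) - S (c b) (u b) w) := by
    intro i j a b hij hb1 hb2 ha1 ha2 hab
    rw [h.off2 hg hD hw hij hij.symm hb1 hb2 hb1 ha1 ha2 ha1 hab, hD.one]
    module
  obtain ⟨a, ha⟩ := exists_nmem h5 {i, j} (Finset.card_le_two.trans (by omega))
  obtain ⟨b, hb⟩ := exists_nmem h5 {i, j, a} (Finset.card_le_three.trans (by omega))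
  obtain ⟨e, he⟩ := exists_nmem h5 {i, j, a, b} Finset.card_le_four
  simp only [Finset.mem_insert, Finset.mem_singleton, not_or] at ha hb he
  have h1 := key i j b a hij ha.1 ha.2 hb.1 hb.2.1 hb.2.2
  have h2 := key a b i e (Ne.symm hb.2.2) he.2.2.1 he.2.2.2 (Ne.symm ha.1) (Ne.symm hb.1)
    (Ne.symm he.1)
  have h3 := key e i a j he.1 (Ne.symm he.2.1) (Ne.symm hij) (Ne.symm he.2.2.1) ha.1 ha.2
  have h4 := key j a e b (Ne.symm ha.2) hb.2.1 hb.2.2 he.2.1 he.2.2.1 he.2.2.2
  have h6 := key b e j i (Ne.symm he.2.2.2) (Ne.symm hb.1) (Ne.symm he.1) (Ne.symm hb.2.1)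
    (Ne.symm he.2.1) (Ne.symm hij)
  have h7 : ∀ x : U, x = - - - - -x → x = 0 := by
    intro x hx
    have h8 : (2 : F) • x = 0 := by
      have h9 : (2 : F) • x = x + x := two_smul _ _
      rw [h9]
      nth_rewrite 1 [hx]
      abel
    exact (smul_eq_zero.1 h8).resolve_left two_ne_zero
  rw [← sub_eq_zero]
  refine h7 _ ?_
  nth_rewrite 1 [h1]
  rw [h2, h3, h4, h6]

theorem off (h5 : 5 ≤ Fintype.card ι) {i j k l : ι} {w : U} (hw : w ∈ DU d) (hij : i ≠ j)
    (hkl : k ≠ l) : S (c j) (u i) (S (c l) (u k) w) = B (u k) (c j) • S (c l) (u i) w := by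
  classical
  by_cases hjk : j = k
  · subst hjk
    rw [hD.one, one_smul]
    by_cases hil : i = l
    · subst hil
      exact h.off3 hg hD h5 hw hij
    · obtain ⟨b, hb⟩ := exists_nmem h5 {i, j, l} (Finset.card_le_three.trans (by omega))
      obtain ⟨a, ha⟩ := exists_nmem h5 {i, j, l, b} Finset.card_le_four
      simp only [Finset.mem_insert, Finset.mem_singleton, not_or] at ha hb
      rw [h.off2 hg hD hw hij hkl hb.1 hb.2.1 hb.2.2 ha.1 ha.2.1 ha.2.2.1 ha.2.2.2,
        hD.zero i l hil, zero_smul, add_zero]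
  · rw [h.off1 hg hD h5 hw hij hkl hjk, hD.zero k j (Ne.symm hjk), zero_smul]

/-- **The matrix units.** -/
theorem unit (h5 : 5 ≤ Fintype.card ι) (i j k l : ι) {w : U} (hw : w ∈ DU d) :
    S (c j) (u i) (S (c l) (u k) w) = B (u k) (c j) • S (c l) (u i) w := by
  classical
  have hG : ∀ i j, S (c j) (u i) w ∈ DU d := fun i j =>
    h.deg_G hg (hD.memc j) (hD.memu i) hw
  -- factorization
  have hfac : ∀ i j m : ι, m ≠ i → m ≠ j → ∀ w' ∈ DU d,
      S (c j) (u i) w' = S (c m) (u i) (S (c j) (u m) w') := by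
    intro i j m h1 h2 w' hw'
    rw [h.off hg hD h5 hw' (Ne.symm h1) h2, hD.one, one_smul]
  by_cases hjk : j = k
  · subst hjk
    obtain ⟨m, hm⟩ := exists_nmem h5 {i, j, l} (Finset.card_le_three.trans (by omega))
    obtain ⟨n, hn⟩ := exists_nmem h5 {i, j, l, m} Finset.card_le_four
    simp only [Finset.mem_insert, Finset.mem_singleton, not_or] at hm hn
    have hw1 : S (c l) (u n) w ∈ DU d := hG n l
    have hw2 : S (c n) (u j) (S (c l) (u n) w) ∈ DU d :=
      h.deg_G hg (hD.memc n) (hD.memu j) hw1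
    rw [hfac j l n hn.2.1 hn.2.2.1 w hw, hfac i j m hm.1 hm.2.1 _ hw2,
      h.off hg hD h5 hw1 hm.2.1 (Ne.symm hn.2.1), hD.one, one_smul,
      ← hfac i n m hm.1 (Ne.symm hn.2.2.2) _ hw1, ← hfac i l n hn.1 hn.2.2.1 w hw, one_smul]
  · obtain ⟨m, hm⟩ := exists_nmem h5 {i, j, k, l} Finset.card_le_four
    simp only [Finset.mem_insert, Finset.mem_singleton, not_or] at hm
    have hw1 : S (c l) (u m) w ∈ DU d := hG m l
    have hw2 : S (c m) (u k) (S (c l) (u m) w) ∈ DU d :=
      h.deg_G hg (hD.memc m) (hD.memu k) hw1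
    rw [hfac k l m hm.2.2.1 hm.2.2.2 w hw, hfac i j m hm.1 hm.2.1 _ hw2,
      h.off hg hD h5 hw1 hm.2.1 (Ne.symm hm.2.2.1), hD.zero k j (Ne.symm hjk), zero_smul, map_zero,
      zero_smul]

/-- the matrix units for all vectors -/
theorem units (h5 : 5 ≤ Fintype.card ι) {x y s t : V} (hx : x ∈ DV d) (hy : y ∈ DV d)
    (hs : s ∈ DV (-d)) (ht : t ∈ DV (-d)) {w : U} (hw : w ∈ DU d) :
    S s x (S t y w) = B y s • S t x w := by
  have h1 : ∀ i j k, ∀ y ∈ Submodule.span F (Set.range u),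
      S (c j) (u i) (S (c k) y w) = B y (c j) • S (c k) (u i) w := by
    intro i j k y hy
    induction hy using Submodule.span_induction with
    | mem y hy =>
      obtain ⟨l, rfl⟩ := hy
      exact h.unit hg hD h5 i j l k hw
    | zero => simp
    | add y y' _ _ h1 h2 =>
      rw [map_add, map_add, LinearMap.add_apply, map_add, LinearMap.add_apply, h1, h2, add_smul]
    | smul r y _ h1 =>
      rw [map_smul, map_smul, LinearMap.smul_apply, map_smul, LinearMap.smul_apply, h1, smul_smul,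
        smul_eq_mul]
  have h2 : ∀ i j, ∀ y ∈ Submodule.span F (Set.range u), ∀ t ∈ Submodule.span F (Set.range c),
      S (c j) (u i) (S t y w) = B y (c j) • S t (u i) w := by
    intro i j y hy t ht
    induction ht using Submodule.span_induction with
    | mem t ht =>
      obtain ⟨l, rfl⟩ := ht
      exact h1 i j l y hy
    | zero => simp
    | add t t' _ _ h1 h2 =>
      rw [map_add, LinearMap.add_apply, LinearMap.add_apply, LinearMap.add_apply,
        LinearMap.add_apply, map_add, h1, h2, smul_add]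
    | smul r t _ h1 =>
      rw [map_smul, LinearMap.smul_apply, LinearMap.smul_apply, LinearMap.smul_apply,
        LinearMap.smul_apply, map_smul, h1, smul_comm]
  have h3 : ∀ j, ∀ y ∈ Submodule.span F (Set.range u), ∀ t ∈ Submodule.span F (Set.range c),
      ∀ x ∈ Submodule.span F (Set.range u), S (c j) x (S t y w) = B y (c j) • S t x w := by
    intro j y hy t ht x hx
    induction hx using Submodule.span_induction with
    | mem x hx =>
      obtain ⟨i, rfl⟩ := hx
      exact h2 i j y hy t ht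
    | zero => simp
    | add x x' _ _ h1 h2 =>
      rw [map_add, map_add, LinearMap.add_apply, LinearMap.add_apply, h1, h2, smul_add]
    | smul r x _ h1 =>
      rw [map_smul, map_smul, LinearMap.smul_apply, LinearMap.smul_apply, h1, smul_comm]
  have h4 : ∀ s ∈ Submodule.span F (Set.range c), S s x (S t y w) = B y s • S t x w := by
    intro s hs
    induction hs using Submodule.span_induction with
    | mem s hs =>
      obtain ⟨j, rfl⟩ := hs
      exact h3 j y (hD.spu hy) t (hD.spc ht) x (hD.spu hx)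
    | zero => simp
    | add s s' _ _ h1 h2 =>
      rw [map_add, map_add, LinearMap.add_apply, LinearMap.add_apply, h1, h2, add_smul]
    | smul r s _ h1 =>
      rw [map_smul, map_smul, LinearMap.smul_apply, LinearMap.smul_apply, h1, smul_smul,
        smul_eq_mul]
  exact h4 s (hD.spc hs)

omit [Fintype ι] in
/-- some diagonal unit is not zero -/
theorem exists_diag {i j : ι} (hij : i ≠ j) (hP : S (u i) (u j) ≠ 0) :
    ∃ k, ∃ w ∈ DU d, S (c k) (u k) w ≠ 0 := by
  have hd := hg.pos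
  obtain ⟨z, hz, hne⟩ : ∃ z ∈ DU (-d), S (u i) (u j) z ≠ 0 := by
    by_contra hcon
    push Not at hcon
    apply hP
    refine hg.ext fun m w hw => ?_
    rw [LinearMap.zero_apply]
    by_cases hm : m = -d
    · subst hm
      exact hcon w hw
    · by_cases hm' : d < m ∨ m < -d
      · rw [hg.le m hm' w hw, map_zero]
      · exact hg.le _ (Or.inl (by omega)) _ (hg.deg d d m _ (hD.memu i) _ (hD.memu j) w hw)
  have hw := h.deg_P hg (hD.memu i) (hD.memu j) hz
  by_contra hcon
  push Not at hcon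
  apply hne
  set w := S (u i) (u j) z with hwdef
  have e1 := hcon i w hw
  have e2 := hcon j w hw
  -- `A w = 2 w + P (A z)`
  have h1 : S (c i) (u i) w = S (u i) (u j) (S (c i) (u i) z) + w := by
    rw [hwdef, h.comm (c i) (u i) (u i) (u j) z, h.symm (c i) (u j), h.symm (c i) (u i),
      hD.zero j i hij.symm, hD.one, h.iso_top hg (hD.memu i) (hD.memu j),
      h.iso_top hg (hD.memu i) (hD.memu i), h.alt' (u j) (u i)]
    module
  have h2 : S (c j) (u j) w = S (u i) (u j) (S (c j) (u j) z) + w := by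
    rw [hwdef, h.comm (c j) (u j) (u i) (u j) z, h.symm (c j) (u j), h.symm (c j) (u i),
      hD.zero i j hij, hD.one, h.iso_top hg (hD.memu j) (hD.memu j),
      h.iso_top hg (hD.memu j) (hD.memu i)]
    module
  have h3 : S (c i) (c j) w = S (c i) (u i) z + S (c j) (u j) z := by
    rw [hwdef, h.NP hg (hD.memc i) (hD.memc j) hz, h.symm (c i) (u j), h.symm (c j) (u j),
      h.symm (c i) (u i), h.symm (c j) (u i), hD.zero j i hij.symm, hD.zero i j hij, hD.one,
      hD.one, h.alt' (u i) (c i), h.alt' (u j) (c j)]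
    module
  have h4 : S (u i) (u j) (S (c i) (c j) w) = -(S (c i) (u i) w + S (c j) (u j) w) := by
    rw [h.PN hg (hD.memu i) (hD.memu j) hw, hD.zero i j hij, hD.zero j i hij.symm, hD.one, hD.one]
    module
  rw [h3, map_add, e1, e2, add_zero, neg_zero] at h4
  rw [e1] at h1
  rw [e2] at h2
  have h5 : (2 : F) • w = 0 := by
    have h6 : (2 : F) • w = (S (u i) (u j) (S (c i) (u i) z) + w) +
        (S (u i) (u j) (S (c j) (u j) z) + w) -
        (S (u i) (u j) (S (c i) (u i) z) + S (u i) (u j) (S (c j) (u j) z)) := by module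
    rw [h6, ← h1, ← h2, h4]
    simp
  exact (smul_eq_zero.1 h5).resolve_left two_ne_zero

end units

end SoRel

end

end Pool.Agent.U233.FG
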