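import Mathlib

/-!
# Representations of the symplectic Lie algebra: a map from the standard representation

Let `S` be a symmetric bilinear map from `V` to the operators on `U` with the commutators of the
transvections. We find a nonzero homomorphism from `V` to `U`, if the squares of the operators
`S b b` and `S c c` of a hyperbolic pair vanish and `S b b` is killed by the operators of the
orthogonal complement.
-/

set_option autoImplicit false

namespace Pool.Agent.U233.FG

noncomputable section

variable {F : Type*} [Field F] {V U : Type*} [AddCommGroup V] [Module F V]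
  [AddCommGroup U] [Module F U]

/-- the orthogonal complement of the hyperbolic pair -/
def Orth (ψ : V →ₗ[F] V →ₗ[F] F) (b c : V) (e : V) : Prop := ψ b e = 0 ∧ ψ c e = 0

/-- The relations of the symplectic Lie algebra. -/
structure SpRel (ψ : V →ₗ[F] V →ₗ[F] F) (S : V →ₗ[F] V →ₗ[F] Module.End F U) : Prop where
  alt : ∀ a b, ψ a b = -ψ b a
  symm : ∀ a b, S a b = S b a
  br : ∀ a b c d, S a b * S c d - S c d * S a b =
    ψ b c • S a d + ψ b d • S a c + ψ a c • S b d + ψ a d • S b c

namespace SpRel

variable {ψ : V →ₗ[F] V →ₗ[F] F} {S : V →ₗ[F] V →ₗ[F] Module.End F U}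

theorem comm (h : SpRel ψ S) (a b c d : V) (Z : Module.End F U) :
    S a b * (S c d * Z) = S c d * (S a b * Z) +
      (ψ b c • (S a d * Z) + ψ b d • (S a c * Z) + ψ a c • (S b d * Z) + ψ a d • (S b c * Z)) := by
  have h1 := h.br a b c d
  rw [sub_eq_iff_eq_add] at h1
  rw [← mul_assoc, h1, add_mul, add_mul, add_mul, add_mul, smul_mul_assoc, smul_mul_assoc,
    smul_mul_assoc, smul_mul_assoc, mul_assoc]
  abel

variable [CharZero F]

theorem self (h : SpRel ψ S) (a : V) : ψ a a = 0 := by
  have h1 := h.alt a a
  rwa [eq_neg_iff_add_eq_zero, ← two_mul, mul_eq_zero, or_iff_right two_ne_zero] at h1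

variable {b c : V}

section sq

variable (h : SpRel ψ S) (hcb : ψ c b = 1) (hT : S b b * S b b = 0)

include h hcb hT

theorem be_T {e : V} (he : ψ b e = 0) : S b e * S b b = 0 := by
  have hbc : ψ b c = -1 := by rw [h.alt, hcb]
  have heb : ψ e b = 0 := by rw [h.alt, he, neg_zero]
  -- `S b e = - 1 / 2 [S b b, S e c]`
  have h1 : (2 : F) • S b e = S e c * S b b - S b b * S e c := by
    have h2 := h.br e c b b
    rw [heb, hcb, h.symm c b, h.symm e b] at h2
    rw [h2, one_smul, zero_smul, two_smul]
    abel
  have h3 : (2 : F) • (S b e * S b b) = -(S b b * (S e c * S b b)) := by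
    rw [← smul_mul_assoc, h1, sub_mul, mul_assoc, mul_assoc, hT, mul_zero, zero_sub]
  have h4 : (2 : F) • (S b b * S b e) = S b b * (S e c * S b b) := by
    rw [← mul_smul_comm, h1, mul_sub, ← mul_assoc (S b b) (S b b), hT, zero_mul, sub_zero]
  have h5 : S b e * S b b = S b b * S b e := by
    have h2 := h.br b e b b
    rw [heb, h.self] at h2
    simp only [zero_smul, add_zero] at h2
    exact sub_eq_zero.1 h2
  rw [h5, ← h4] at h3
  have h6 : (4 : F) • (S b b * S b e) = 0 := by
    have h7 := eq_neg_iff_add_eq_zero.1 h3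
    rw [← add_smul] at h7
    have h8 : (4 : F) = 2 + 2 := by norm_num
    rw [h8]
    exact h7
  rw [h5]
  exact (smul_eq_zero.1 h6).resolve_left (by norm_num)

theorem bc_T : S b c * S b b = S b b := by
  have hbc : ψ b c = -1 := by rw [h.alt, hcb]
  have h1 : (4 : F) • S b c = S c c * S b b - S b b * S c c := by
    have h2 := h.br c c b b
    rw [hcb, h.symm c b, one_smul] at h2
    rw [h2]
    module
  have h3 : (4 : F) • (S b c * S b b) = -(S b b * (S c c * S b b)) := by
    rw [← smul_mul_assoc, h1, sub_mul, mul_assoc, mul_assoc, hT, mul_zero, zero_sub]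
  have h4 : (4 : F) • (S b b * S b c) = S b b * (S c c * S b b) := by
    rw [← mul_smul_comm, h1, mul_sub, ← mul_assoc (S b b) (S b b), hT, zero_mul, sub_zero]
  have h5 : S b c * S b b - S b b * S b c = (2 : F) • S b b := by
    have h2 := h.br b c b b
    rw [hcb, h.self, zero_smul] at h2
    rw [h2]
    module
  have h6 : (8 : F) • (S b c * S b b) = (8 : F) • S b b := by
    have h7 : (4 : F) • (S b c * S b b) + (4 : F) • (S b b * S b c) = 0 := by
      rw [h3, h4, neg_add_cancel]
    have h8 : (8 : F) • (S b c * S b b) = (4 : F) • (S b c * S b b - S b b * S b c) +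
        ((4 : F) • (S b c * S b b) + (4 : F) • (S b b * S b c)) := by module
    rw [h8, h7, h5]
    module
  exact (smul_right_injective _ (show (8 : F) ≠ 0 by norm_num)) h6

end sq

/-- The theorem. -/
theorem exists_map (h : SpRel ψ S) (hcb : ψ c b = 1) (hT : S b b * S b b = 0)
    (hC : S c c * S c c = 0)
    (h0 : ∀ e e', Orth ψ b c e → Orth ψ b c e' → S e e' * S b b = 0) :
    ∃ H : V →ₗ[F] Module.End F U, (∀ x y v, S x y * H v = H (ψ x v • y + ψ y v • x)) ∧
      H b = (2 : F) • S b b := by
  have hbc : ψ b c = -1 := by rw [h.alt, hcb]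
  have hself := h.self
  -- the map
  let H : V →ₗ[F] Module.End F U :=
    { toFun := fun a => (2 : F) • (S a c * S b b) + ψ b a • (S c c * S b b)
      map_add' := fun x y => by
        rw [map_add, map_add, LinearMap.add_apply, add_mul, smul_add, add_smul]
        abel
      map_smul' := fun r x => by
        rw [map_smul, map_smul, LinearMap.smul_apply, smul_mul_assoc, RingHom.id_apply,
          smul_add, smul_eq_mul, smul_smul, smul_smul, smul_smul, mul_comm r 2] }
  have hH : ∀ a, H a = (2 : F) • (S a c * S b b) + ψ b a • (S c c * S b b) := fun a => rfl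
  have hHb : H b = (2 : F) • S b b := by
    rw [hH, hself, zero_smul, add_zero, h.bc_T hcb hT]
  have hHc : H c = S c c * S b b := by
    rw [hH, hbc, neg_one_smul]
    module
  have hHe : ∀ e, Orth ψ b c e → H e = (2 : F) • (S e c * S b b) := by
    intro e he
    rw [hH, he.1, zero_smul, add_zero]
  -- the relations for the pair `c, b`
  have hCb : ψ b c = -1 := hbc
  have hce : ∀ e, ψ c e = 0 → S c e * S c c = 0 := by
    intro e he
    have hT' : S (-c) (-c) * S (-c) (-c) = 0 := by
      simp only [map_neg, LinearMap.neg_apply, neg_neg]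
      exact hC
    have h1 := h.be_T (b := -c) (c := b) (by rw [map_neg, hbc, neg_neg]) hT' (e := e)
      (by rw [map_neg, LinearMap.neg_apply, he, neg_zero])
    simp only [map_neg, LinearMap.neg_apply, neg_neg] at h1
    rw [neg_mul, neg_eq_zero] at h1
    exact h1
  -- the symmetric part
  have hsq : ∀ a, Orth ψ b c a → S c a * (S c a * S b b) = 0 := by
    intro a ha
    have hab : ψ a b = 0 := by rw [h.alt, ha.1, neg_zero]
    have hac : ψ a c = 0 := by rw [h.alt, ha.2, neg_zero]
    have h1 : (2 : F) • (S c a * S b b) = -(S b a * (S c c * S b b)) := by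
      have h2 := h.comm b a c c (S b b)
      rw [h.be_T hcb hT ha.1, mul_zero, hac, hbc, h.symm a c] at h2
      rw [h2]
      module
    have h3 : S c a * (S b a * (S c c * S b b)) = 0 := by
      rw [h.comm c a b a (S c c * S b b), ← mul_assoc (S c a) (S c c), hce a ha.2, zero_mul,
        mul_zero, hab, hself, hcb, ha.2, zero_smul, zero_smul, zero_smul, one_smul, zero_add,
        zero_add, zero_add, add_zero]
      have h2 := h.comm a a c c (S b b)
      rw [h0 a a ha ha, hac, mul_zero] at h2
      simpa using h2
    have h4 : (2 : F) • (S c a * (S c a * S b b)) = 0 := by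
      rw [← mul_smul_comm, h1, mul_neg, h3, neg_zero]
    exact (smul_eq_zero.1 h4).resolve_left two_ne_zero
  have hpol : ∀ a e, Orth ψ b c a → Orth ψ b c e →
      S c a * (S c e * S b b) + S c e * (S c a * S b b) = 0 := by
    intro a e ha he
    have h1 := hsq (a + e) ⟨by rw [map_add, ha.1, he.1, add_zero],
      by rw [map_add, ha.2, he.2, add_zero]⟩
    rw [map_add, add_mul, add_mul, mul_add, mul_add, hsq a ha, hsq e he] at h1
    simpa using h1
  -- the commutators with `S b b`
  have hbe : ∀ e, ψ b e = 0 → S b e * S b b = 0 := fun e he => h.be_T hcb hT he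
  have hbcT := h.bc_T hcb hT
  -- the operators of the complement kill `T`
  have key_bb : ∀ v, (v = b ∨ Orth ψ b c v ∨ v = c) → S b b * H v = (2 * ψ b v) • H b := by
    rintro v (rfl | hv | rfl)
    · rw [hself, mul_zero, zero_smul, hHb, mul_smul_comm, hT, smul_zero]
    · rw [hv.1, mul_zero, zero_smul, hHe v hv, mul_smul_comm, h.comm b b v c, hT, mul_zero,
        hv.1, hbe v hv.1]
      simp
    · rw [hHc, hbc, hHb, h.comm b b _ _ (S b b), hT, mul_zero, hbc, hbcT]
      module
  have key_be : ∀ e v, Orth ψ b c e → (v = b ∨ Orth ψ b c v ∨ v = c) →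
      S b e * H v = ψ b v • H e + ψ e v • H b := by
    rintro e v he (rfl | hv | rfl)
    · have h1 : ψ e v = 0 := by rw [h.alt, he.1, neg_zero]
      rw [hself, h1, hHb, mul_smul_comm, hbe e he.1, smul_zero, zero_smul, zero_smul, add_zero]
    · have h1 : ψ e c = 0 := by rw [h.alt, he.2, neg_zero]
      rw [hv.1, hHe v hv, mul_smul_comm, h.comm b e v c, hbe e he.1, mul_zero, h1, hv.1, hbc,
        hbcT, h0 e v he hv, hHb]
      module
    · have h1 : ψ e v = 0 := by rw [h.alt, he.2, neg_zero]
      rw [hHc, h1, hbc, h.comm b e v v, hbe e he.1, mul_zero, h1, hbc, hHe e he]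
      module
  have key_bc : ∀ v, (v = b ∨ Orth ψ b c v ∨ v = c) →
      S b c * H v = ψ b v • H c + ψ c v • H b := by
    rintro v (rfl | hv | rfl)
    · rw [hself, hcb, hHb, mul_smul_comm, hbcT]
      module
    · have h1 : ψ v c = 0 := by rw [h.alt, hv.2, neg_zero]
      rw [hv.1, hv.2, hHe v hv, mul_smul_comm, h.comm b c v c, hbcT, hv.1, hv.2, hself, hbc,
        h.symm c v]
      module
    · rw [hself, hbc, hHc, h.comm b v v v, hbcT, hself, hbc]
      module
  have key_ee : ∀ e e' v, Orth ψ b c e → Orth ψ b c e' → (v = b ∨ Orth ψ b c v ∨ v = c) →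
      S e e' * H v = ψ e v • H e' + ψ e' v • H e := by
    rintro e e' v he he' (rfl | hv | rfl)
    · have h1 : ψ e v = 0 := by rw [h.alt, he.1, neg_zero]
      have h2 : ψ e' v = 0 := by rw [h.alt, he'.1, neg_zero]
      rw [h1, h2, hHb, mul_smul_comm, h0 e e' he he']
      simp
    · have h1 : ψ e c = 0 := by rw [h.alt, he.2, neg_zero]
      have h2 : ψ e' c = 0 := by rw [h.alt, he'.2, neg_zero]
      rw [hHe v hv, mul_smul_comm, h.comm e e' v c, h0 e e' he he', mul_zero, h1, h2,
        hHe e he, hHe e' he']
      module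
    · have h1 : ψ e v = 0 := by rw [h.alt, he.2, neg_zero]
      have h2 : ψ e' v = 0 := by rw [h.alt, he'.2, neg_zero]
      rw [h1, h2, hHc, h.comm e e' v v, h0 e e' he he', mul_zero, h1, h2]
      simp
  have key_ec : ∀ e v, Orth ψ b c e → (v = b ∨ Orth ψ b c v ∨ v = c) →
      S e c * H v = ψ e v • H c + ψ c v • H e := by
    rintro e v he (rfl | hv | rfl)
    · have h1 : ψ e v = 0 := by rw [h.alt, he.1, neg_zero]
      rw [h1, hcb, hHb, mul_smul_comm, hHe e he]
      module
    · have h1 : ψ e c = 0 := by rw [h.alt, he.2, neg_zero]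
      have h2 := hpol e v he hv
      have h3 := h.comm e c v c (S b b)
      rw [hv.2, hself, h1] at h3
      rw [hv.2, hHe v hv, mul_smul_comm, hHc]
      rw [h.symm c e, h.symm c v] at h2
      have h4 : S v c * (S e c * S b b) = -(S e c * (S v c * S b b)) := by
        rw [eq_neg_iff_add_eq_zero, add_comm]
        exact h2
      rw [h4] at h3
      have h5 : (2 : F) • (S e c * (S v c * S b b)) =
          S e c * (S v c * S b b) + S e c * (S v c * S b b) := two_smul _ _
      rw [h5]
      nth_rewrite 1 [h3]
      module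
    · have h1 : ψ e v = 0 := by rw [h.alt, he.2, neg_zero]
      rw [h1, hself, hHc, ← mul_assoc, h.symm e v, hce e he.2, zero_mul]
      simp
  have key_cc : ∀ v, (v = b ∨ Orth ψ b c v ∨ v = c) → S c c * H v = (2 * ψ c v) • H c := by
    rintro v (rfl | hv | rfl)
    · rw [hcb, hHb, hHc, mul_smul_comm, mul_one]
    · have h1 : ψ v c = 0 := by rw [h.alt, hv.2, neg_zero]
      rw [hv.2, hHe v hv, mul_smul_comm]
      have h2 := h.comm c c v c (S b b)
      rw [hv.2, hself, ← mul_assoc (S v c) (S c c), h.symm v c, hce v hv.2, zero_mul] at h2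
      rw [h.symm v c, h2]
      simp
    · rw [hself, hHc, ← mul_assoc, hC, zero_mul, mul_zero, zero_smul]
  -- the decomposition
  have hdec : ∀ v, ∃ e, Orth ψ b c e ∧ v = ψ c v • b + e + (-ψ b v) • c := by
    intro v
    refine ⟨v - ψ c v • b + ψ b v • c, ⟨?_, ?_⟩, ?_⟩
    · rw [map_add, map_sub, map_smul, map_smul, hself, hbc]
      simp
    · rw [map_add, map_sub, map_smul, map_smul, hself, hcb]
      simp
    · module
  have ind : ∀ {P : V → Prop}, (∀ v, (v = b ∨ Orth ψ b c v ∨ v = c) → P v) →
      (∀ x y, P x → P y → P (x + y)) → (∀ (r : F) x, P x → P (r • x)) → ∀ v, P v := by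
    intro P h1 h2 h3 v
    obtain ⟨e, he, hv⟩ := hdec v
    rw [hv]
    exact h2 _ _ (h2 _ _ (h3 _ _ (h1 b (Or.inl rfl))) (h1 e (Or.inr (Or.inl he))))
      (h3 _ _ (h1 c (Or.inr (Or.inr rfl))))
  refine ⟨H, fun x y v => ?_, hHb⟩
  rw [map_add, map_smul, map_smul]
  refine ind (P := fun v => S x y * H v = ψ x v • H y + ψ y v • H x) (fun v hv => ?_)
    (fun v v' h1 h2 => ?_) (fun r v h1 => ?_) v
  · refine ind (P := fun x => S x y * H v = ψ x v • H y + ψ y v • H x) (fun x hx => ?_)
      (fun x x' h1 h2 => ?_) (fun r x h1 => ?_) x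
    · refine ind (P := fun y => S x y * H v = ψ x v • H y + ψ y v • H x) (fun y hy => ?_)
        (fun y y' h1 h2 => ?_) (fun r y h1 => ?_) y
      · rcases hx with rfl | hx | rfl
        · rcases hy with rfl | hy | rfl
          · rw [key_bb v hv]
            module
          · exact key_be y v hy hv
          · exact key_bc v hv
        · rcases hy with rfl | hy | rfl
          · rw [h.symm, key_be x v hx hv]
            abel
          · exact key_ee x y v hx hy hv
          · exact key_ec x v hx hv
        · rcases hy with rfl | hy | rfl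
          · rw [h.symm, key_bc v hv]
            abel
          · rw [h.symm, key_ec y v hy hv]
            abel
          · rw [key_cc v hv]
            module
      · rw [map_add, add_mul, h1, h2, map_add, map_add, LinearMap.add_apply]
        module
      · rw [map_smul, smul_mul_assoc, h1, map_smul, map_smul, LinearMap.smul_apply, smul_eq_mul]
        module
    · rw [map_add, LinearMap.add_apply, add_mul, h1, h2, map_add, map_add, LinearMap.add_apply]
      module
    · rw [map_smul, LinearMap.smul_apply, smul_mul_assoc, h1, map_smul, map_smul,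
        LinearMap.smul_apply, smul_eq_mul]
      module
  · rw [map_add, mul_add, h1, h2, map_add, map_add]
    module
  · rw [map_smul, mul_smul_comm, h1, map_smul, map_smul, smul_eq_mul, smul_eq_mul]
    module

end SpRel

end

end Pool.Agent.U233.FG
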