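import Pool.Agent.U233.FG.Lev

/-!
# Structures with full Hodge group split off from structures of small level
-/

set_option autoImplicit false
set_option linter.unusedSectionVars false

open TensorProduct

namespace Pool.Agent.U233.HG

open Module Pool.Agent.N179.DB Pool.Agent.N179.GR Pool.Agent.U233.FG
open Pool.Agent.N179.GR.S (GRep fl semiS_endo)
open Pool.Agent.N179.DB.S (Cx tens gal bc cx_ind tens_add tens_smul smul_tens exists_tens
  inF_tens bx_apply bc_tens bc_gal gal_add gal_tens)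

noncomputable section

variable {K : Type} [Field K] [Algebra K ℂ]

/-- a homomorphism of type `(j, j)` -/
def IsTw {M N : HS K} (j : ℤ) (P : M.V →ₗ[K] N.V) : Prop :=
  ∀ p q, ∀ x ∈ M.pq p q, bc P x ∈ N.pq (p + j) (q + j)

/-- there are no nonzero homomorphisms of type `(j, j)` -/
def Apart (M N : HS K) : Prop :=
  ∀ (j : ℤ) (P : M.V →ₗ[K] N.V), IsTw (M := M) (N := N) j P → P = 0

theorem exists_tw {M U : HS K} {f : Cx K M.V →ₗ[ℂ] Cx K U.V} {j : ℤ} (hf : f ≠ 0)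
    (h : ∀ τ : ℂ ≃+* ℂ, FixK K τ → Typ (M.e.linearMap U.e) (th M.t U.t) (j, j)
        (sl (M.b.linearMap U.b) τ f)) : ¬Apart M U := by
  classical
  intro hap
  let N : Submodule ℂ (Cx K M.V →ₗ[ℂ] Cx K U.V) :=
    { carrier := {h | ∀ τ : ℂ ≃+* ℂ, FixK K τ →
        Typ (M.e.linearMap U.e) (th M.t U.t) (j, j) (sl (M.b.linearMap U.b) τ h)}
      zero_mem' := fun τ _ => by rw [map_zero]; exact Typ.zero
      add_mem' := fun hx hy τ hτ => by rw [map_add]; exact (hx τ hτ).add (hy τ hτ)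
      smul_mem' := fun c _ hx τ hτ => by rw [sl_smul]; exact (hx τ hτ).smul _ }
  have h3 := desc (M.b.linearMap U.b) (KF K) N (fun τ hτ x hx σ hσ => by
    rw [sl_comp]
    refine hx _ fun r => ?_
    rw [RingEquiv.coe_trans, Function.comp_apply, fixK_iff.2 hτ r, hσ r])
  apply hf
  have h4 : f ∈ (⊥ : Submodule ℂ (Cx K M.V →ₗ[ℂ] Cx K U.V)) := by
    refine (h3.trans (Submodule.span_le.2 ?_)) (show f ∈ N from h)
    rintro g ⟨hN, hb⟩
    rw [SetLike.mem_coe, Submodule.mem_bot]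
    have h1 : ∀ k, ∃ w : U.V, g (M.b k) = tens 1 w := fun k =>
      exists_tens U.bK ((inF_hom M.b U.b).1 hb k)
    choose w hw using h1
    let P : M.V →ₗ[K] U.V := M.bK.constr K w
    have hP : g = bc P := by
      refine M.b.ext fun k => ?_
      rw [hw]
      change _ = bc P (S.bx M.bK k)
      rw [bx_apply, bc_tens, Basis.constr_basis]
    have h5 : P = 0 := by
      refine hap j P fun p q x hx => ?_
      rw [← hP]
      have h6 := hN (RingEquiv.refl ℂ) (fun r => rfl)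
      rw [sl_refl] at h6
      have h2 := typ_hom h6 ((M.mem p q x).1 hx)
      refine (U.mem _ _ _).2 ?_
      have h7 : ((j, j) : ℤ × ℤ) + (p, q) = (p + j, q + j) :=
        Prod.ext (add_comm _ _) (add_comm _ _)
      rwa [h7] at h2
    rw [hP, h5]
    exact LinearMap.baseChange_zero
  exact (Submodule.mem_bot ℂ).1 h4

/-- the level is at most `d` -/
def Lvl (M : HS K) (d : ℤ) : Prop := ∀ k, (M.t k).1 - (M.t k).2 ≤ d ∧ -d ≤ (M.t k).1 - (M.t k).2

/-- A structure of weight `w` and level `d` with a form, such that the skew operators have only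
scalar endomorphisms. -/
structure FullL (M : HS K) (d : ℤ) (ψ : M.V →ₗ[K] M.V →ₗ[K] K) : Prop where
  pos : 0 < d
  lev : Lvl M d
  sim : ∃ w, Sim M w ψ
  pol : Polarisable M
  full : ∀ f : M.endo.V →ₗ[K] M.endo.V, IsHom (M := M.endo) (N := M.endo) f →
      (∀ X, f X ∈ skewK ψ) → ∃ c : K, ∀ X ∈ skewK ψ, f X = c • X
  top : (Odd d ∧ (∀ x y, ψ x y = -ψ y x) ∧ 1 ≤ finrank ℂ (DG M (RingEquiv.refl ℂ) d)) ∨
    ((∀ x y, ψ x y = ψ y x) ∧ 5 ≤ finrank ℂ (DG M (RingEquiv.refl ℂ) d))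

theorem pq_le_DG (M : HS K) (p q : ℤ) : M.pq p q ≤ DG M (RingEquiv.refl ℂ) (p - q) := by
  intro x hx
  refine (mem_EG' mon_diff).2 fun k hk => ?_
  rw [mv_refl_repr]
  refine (M.mem p q x).1 hx k fun h => hk ?_
  rw [h]

theorem FullL.irr [CharZero K] {M : HS K} {d : ℤ} {ψ : M.V →ₗ[K] M.V →ₗ[K] K} (h : FullL M d ψ)
    (A : Submodule ℂ (Module.End ℂ (Cx K M.V))) (hA : Stab (cj (hM M)) A) (hle : A ≤ skewC ψ) :
    A = ⊥ ∨ A = skewC ψ := by
  obtain ⟨w, hw⟩ := h.sim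
  have hss : SemiS (cj (hM M)) := semiS_endo h.pol.semisimple_endo
  rcases h.top with ⟨-, hs, -⟩ | ⟨hs, -⟩
  · exact HG.irr hw (ε := -1) (by norm_num) (fun x y => by rw [hs, neg_one_mul]) h.full hss A hA hle
  · exact HG.irr hw (ε := 1) (by norm_num) (fun x y => by rw [hs, one_mul]) h.full hss A hA hle

/-- the exact power of `-1` -/
theorem FullL.symm {M : HS K} {d : ℤ} {ψ : M.V →ₗ[K] M.V →ₗ[K] K} (h : FullL M d ψ) :
    (Odd d ∧ (∀ x y, formC ψ x y = -formC ψ y x) ∧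
      1 ≤ finrank ℂ (DG M (RingEquiv.refl ℂ) d)) ∨
    ((∀ x y, formC ψ x y = formC ψ y x) ∧ 5 ≤ finrank ℂ (DG M (RingEquiv.refl ℂ) d)) := by
  rcases h.top with ⟨h1, hs, h2⟩ | ⟨hs, h2⟩
  · refine Or.inl ⟨h1, fun x y => ?_, h2⟩
    have h3 := formC_symm (ε := (-1 : K)) (ψ := ψ) (fun x y => by rw [hs, neg_one_mul]) x y
    rw [h3, map_neg, map_one, neg_one_mul]
  · refine Or.inr ⟨fun x y => ?_, h2⟩
    have h3 := formC_symm (ε := (1 : K)) (ψ := ψ) (fun x y => by rw [hs, one_mul]) x y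
    rw [h3, map_one, one_mul]

/-- the types are off the diagonal in the odd case -/
theorem odd_ne {M : HS K} {d w : ℤ} {ψ : M.V →ₗ[K] M.V →ₗ[K] K} (hw : Sim M w ψ) (hd : Odd d)
    (h1 : 1 ≤ finrank ℂ (DG M (RingEquiv.refl ℂ) d)) (k : Fin M.n) :
    (M.t k).1 - (M.t k).2 ≠ 0 := by
  have h2 : DG M (RingEquiv.refl ℂ) d ≠ ⊥ := by
    intro h0
    rw [h0, finrank_bot] at h1
    omega
  obtain ⟨x, hx, hx0⟩ := Submodule.exists_mem_ne_zero_of_ne_bot h2
  obtain ⟨l, hl⟩ : ∃ l, (M.t l).1 - (M.t l).2 = d := by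
    by_contra hcon
    push Not at hcon
    apply hx0
    refine (mv M.b M.e (RingEquiv.refl ℂ)).ext_elem fun l => ?_
    rw [map_zero, Finsupp.zero_apply]
    exact (mem_EG' mon_diff).1 hx l (hcon l)
  have h3 := hw.weight l
  have h4 := hw.weight k
  obtain ⟨m, hm⟩ := hd
  omega

/-- **The level principle.** -/
theorem spl_level [CharZero K] {M U : HS K} {d : ℤ} {ψ : M.V →ₗ[K] M.V →ₗ[K] K} (h : FullL M d ψ)
    (hpU : Polarisable U) (hwU : Wt U) (hU : Lvl U d) (hap : Apart M U) :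
    Spl (full (Cx K M.V) (hM M)) {full (Cx K U.V) (hM U)} := by
  by_contra hn
  obtain ⟨w, hw⟩ := h.sim
  obtain ⟨Φ, hΦ1, hΦ2, hΦ3⟩ := exists_phi (r := hM M) (t := hM U)
    (semiS_endo hpU.semisimple_endo)
  obtain ⟨hcore, hinj⟩ := phi_inj hΦ1 (core_le_skew hw) h.irr hn
  rw [hcore] at hΦ2 hΦ3
  have hΦ3' : ∀ X ∈ skewC ψ, ∀ Y ∈ skewC ψ, Φ (X * Y - Y * X) = Φ X * Φ Y - Φ Y * Φ X := hΦ3
  rcases h.symm with ⟨hd, hs, h1⟩ | ⟨hs, h5⟩
  · have hs' : ∀ x y, formC ψ x y = (-1) * formC ψ y x := fun x y => by rw [hs, neg_one_mul]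
    obtain ⟨f, hf0, hf⟩ := exists_f_sp hw h.pos hs (odd_ne hw hd h1) h1 hU hΦ2 hΦ3' hinj
    obtain ⟨u, c, hD⟩ := exists_dual hw hs' d
    obtain ⟨f', j, h2, h3⟩ := IT_pure (by norm_num) hs' hΦ2 hw hwU hU hD
      (Or.inl ⟨rfl, h1⟩) (show f ∈ IT ψ (-1) Φ from hf) hf0
    exact exists_tw h2 h3 hap
  · have hs' : ∀ x y, formC ψ x y = 1 * formC ψ y x := fun x y => by rw [hs, one_mul]
    obtain ⟨f, hf0, hf⟩ := exists_f_so hw h.pos hs h.lev h5 hU hΦ2 hΦ3' hinj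
    obtain ⟨u, c, hD⟩ := exists_dual hw hs' d
    obtain ⟨f', j, h2, h3⟩ := IT_pure (by norm_num) hs' hΦ2 hw hwU hU hD
      (Or.inr (by omega)) (show f ∈ IT ψ 1 Φ from hf) hf0
    exact exists_tw h2 h3 hap

/-- two structures with full Hodge groups -/
theorem spl_full [CharZero K] {M U : HS K} {d d' : ℤ} {ψ : M.V →ₗ[K] M.V →ₗ[K] K}
    {ψ' : U.V →ₗ[K] U.V →ₗ[K] K} (h : FullL M d ψ) (h' : FullL U d' ψ') (hap : Apart M U)
    (hap' : Apart U M) : Spl (full (Cx K M.V) (hM M)) {full (Cx K U.V) (hM U)} := by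
  obtain ⟨w, hw⟩ := h.sim
  obtain ⟨w', hw'⟩ := h'.sim
  rcases le_total d' d with hd | hd
  · refine spl_level h h'.pol (wt_of_pure hw'.weight) (fun k => ?_) hap
    have h1 := h'.lev k
    omega
  · refine spl_symm (spl_level h' h.pol (wt_of_pure hw.weight) (fun k => ?_) hap')
    have h1 := h.lev k
    omega

end

end Pool.Agent.U233.HG
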