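import Pool.Agent.U233.FG.Nd
import Pool.Agent.U233.HG.Pow

/-!
# Varieties generated by a structure with full Hodge group and by Hodge classes
-/

set_option autoImplicit false
set_option linter.unusedSectionVars false

open CategoryTheory AlgebraicGeometry TensorProduct

universe u

namespace Pool.Agent.U233.HG

open Module Pool.Agent.N179 Pool.Agent.N179.DB Pool.Agent.N179.GR.S
open Pool.Agent.N179.DB.S (Cx tens gal bc cx_ind tens_add tens_smul smul_tens exists_tens
  inF_tens bx_apply bc_tens bc_gal gal_add gal_tens galB gal_mul gr' gr'_eq gal_gr' mem_of_base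
  span_alg algS algT base_mul GeneratesK)
open Pool.Agent.H914 Pool.Agent.H914.VarClass Pool.Agent.H914.VarClass.Obj
  Pool.Agent.H914.WeilCohomology Pool.Agent.TH125.Gal
open Pool.Agent.U233.HG.St (Theory coho prd)
open Pool.Agent.Y133.Per (Base baseMap baseTr tm base_ind baseTr_tm)
open Pool.Agent.N179.GR (algR SemiS inv InDer full Der Θ_mul Θ_one)

noncomputable section

theorem sl_tens {K : Type} [Field K] [Algebra K ℂ] {M : HS K} {τ : ℂ ≃+* ℂ} (hτ : FixK K τ)
    (c : M.V) : sl M.b τ (tens 1 c) = tens 1 c := by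
  rw [← M.gal_eq hτ, gal_tens, map_one]

theorem wt_span {K : Type} [Field K] [Algebra K ℂ] {M : HS K} {n : ℤ} {y : Cx K M.V}
    (hy : y ∈ Submodule.span ℂ {y | ∃ r s, r + s = n ∧ y ∈ M.pq r s}) (τ : ℂ ≃+* ℂ) :
    Dg M.b M.e M.t τ two two (sl M.b τ y) = ((two ^ n : ℂˣ) : ℂ) • sl M.b τ y := by
  induction hy using Submodule.span_induction with
  | mem y hy =>
    obtain ⟨r, s, hrs, hy⟩ := hy
    have h1 := ((M.mem r s y).1 hy).dg (b := M.b) τ two two
    rw [mon_sum] at h1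
    rw [h1, ← hrs]
  | zero =>
    rw [map_zero, map_zero, smul_zero]
  | add x y _ _ hx hy => rw [map_add, map_add, hx, hy, smul_add]
  | smul c x _ hx => rw [sl_smul, map_smul, hx, smul_comm]

/-- the weights from the subspaces of the types with a given sum -/
theorem wt_of_span {K : Type} [Field K] [Algebra K ℂ] {M : HS K}
    (h : ∀ (τ : ℂ ≃+* ℂ) (hτ : FixK K τ) (p q : ℤ), ∀ x ∈ M.pq p q, gal τ hτ x ∈
      Submodule.span ℂ {y | ∃ r s, r + s = p + q ∧ y ∈ M.pq r s}) : Wt M := by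
  have key : ∀ n : ℤ, ∀ y ∈ Submodule.span ℂ {y | ∃ r s, r + s = n ∧ y ∈ M.pq r s},
      Dg M.b M.e M.t (RingEquiv.refl ℂ) two two y = ((two ^ n : ℂˣ) : ℂ) • y := by
    intro n y hy
    induction hy using Submodule.span_induction with
    | mem y hy =>
      obtain ⟨r, s, hrs, hy⟩ := hy
      have h1 := ((M.mem r s y).1 hy).dg (b := M.b) (RingEquiv.refl ℂ) two two
      rw [sl_refl, mon_sum] at h1
      rw [h1, ← hrs]
    | zero => rw [map_zero, smul_zero]
    | add x y _ _ hx hy => rw [map_add, hx, hy, smul_add]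
    | smul c x _ hx => rw [map_smul, hx, smul_comm]
  intro τ hτ x
  have h3 : (Dg M.b M.e M.t τ two two : Cx K M.V →ₗ[ℂ] Cx K M.V) =
      Dg M.b M.e M.t (RingEquiv.refl ℂ) two two := by
    refine (mv M.b M.e τ).ext fun k => ?_
    change Dg M.b M.e M.t τ two two (mv M.b M.e τ k) =
      Dg M.b M.e M.t (RingEquiv.refl ℂ) two two (mv M.b M.e τ k)
    rw [Dg_mv, mon_sum, mv_apply, ← M.gal_eq hτ]
    exact (key _ _ (h τ hτ _ _ _ ((M.mem' _ _).2 (Typ.basis k)))).symm
  exact LinearMap.congr_fun h3 x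

variable {k : Type u} [Field k] {𝒱 : VarClass k} {ops : CycleOps 𝒱} (T : Theory ops)

/-- the weights of the cohomology -/
theorem gr_wt (X : 𝒱.Obj) (i : ℕ) {x : Cx T.W.K (T.W.H X)} (hx : x ∈ gr' T.W X i)
    {τ : ℂ ≃+* ℂ} (hτ : FixK T.W.K τ) :
    Dg (coh T X).b (coh T X).e (coh T X).t τ two two x = ((two ^ (i : ℤ) : ℂˣ) : ℂ) • x := by
  have h0 : ∀ c ∈ T.W.gr X i, Dg (coh T X).b (coh T X).e (coh T X).t τ two two
      (tens 1 c : Cx T.W.K (T.W.H X)) = ((two ^ (i : ℤ) : ℂˣ) : ℂ) • tens 1 c := by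
    intro c hc
    have h1 := sl_tens (M := coh T X) hτ c
    have h2 := wt_span (M := coh T X) (n := i) (y := tens 1 c) (T.deg X i c hc) τ
    rw [h1] at h2
    exact h2
  have h3 : x ∈ Submodule.span ℂ {x : Base T.W.K (T.W.H X) | ∃ s ∈ T.W.gr X i, x = tm 1 s} := by
    rw [← gr'_eq]
    exact hx
  have h4 : Submodule.span ℂ {x : Base T.W.K (T.W.H X) | ∃ s ∈ T.W.gr X i, x = tm 1 s} ≤
      (EG (coh T X).b (coh T X).e (coh T X).t τ two two i) := by
    refine Submodule.span_le.2 ?_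
    rintro _ ⟨s, hs, rfl⟩
    exact h0 s hs
  exact h4 h3

/-- the projection to a degree -/
def pjC (X : 𝒱.Obj) (i : ℕ) : Cx T.W.K (coh T X).V →ₗ[ℂ] Cx T.W.K (coh T X).V :=
  (show Cx T.W.K (T.W.H X) →ₗ[ℂ] Cx T.W.K (T.W.H X) from bc (pj T X i))

theorem pjC_sum (X : 𝒱.Obj) (x : Cx T.W.K (coh T X).V) :
    x = ∑ i ∈ Finset.range (2 * X.dim + 1), pjC T X i x := (sum_pj T X x).symm

theorem pjC_gr (X : 𝒱.Obj) (i : ℕ) (x : Cx T.W.K (coh T X).V) :
    (show Cx T.W.K (T.W.H X) from pjC T X i x) ∈ gr' T.W X i := pj_gr T X i x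

theorem wt_coh (X : 𝒱.Obj) : Wt (coh T X) := by
  intro τ hτ x
  have h3 : ∀ (σ : ℂ ≃+* ℂ), FixK T.W.K σ →
      Dg (coh T X).b (coh T X).e (coh T X).t σ two two x =
      ∑ i ∈ Finset.range (2 * X.dim + 1), ((two ^ (i : ℤ) : ℂˣ) : ℂ) • pjC T X i x := by
    intro σ hσ
    conv_lhs => rw [pjC_sum T X x]
    rw [map_sum]
    exact Finset.sum_congr rfl fun i _ => gr_wt T X i (pjC_gr T X i x) hσ
  rw [h3 τ hτ, h3 _ (fun _ => rfl)]

/-- the images of the homomorphisms -/
def homCl (V : HS T.W.K) (P : 𝒱.Obj) : Set (T.W.H P) :=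
  {x | ∃ (f : V.V →ₗ[T.W.K] T.W.H P) (v : V.V), IsHom (M := V) (N := coh T P) f ∧ x = f v}

/-- the cohomology is generated by the Hodge classes and the images of `V` -/
def Gens (V : HS T.W.K) (P : 𝒱.Obj) : Prop :=
  Algebra.adjoin T.W.K (hodgeCl T P ∪ homCl T V P) = ⊤

/-- a subalgebra which contains the generators -/
theorem gens_all {V : HS T.W.K} {P : 𝒱.Obj} (h : Gens T V P)
    (B : Subalgebra ℂ (Base T.W.K (T.W.H P)))
    (h1 : ∀ c ∈ hodgeCl T P, (tm 1 c : Base T.W.K (T.W.H P)) ∈ B)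
    (h2 : ∀ c ∈ homCl T V P, (tm 1 c : Base T.W.K (T.W.H P)) ∈ B) : B = ⊤ := by
  have key : ∀ c : T.W.H P, (tm 1 c : Base T.W.K (T.W.H P)) ∈ B := by
    intro c
    have hc : c ∈ Algebra.adjoin T.W.K (hodgeCl T P ∪ homCl T V P) := by
      rw [show Algebra.adjoin T.W.K (hodgeCl T P ∪ homCl T V P) = ⊤ from h]
      exact Algebra.mem_top
    have hone : (tm 1 (1 : T.W.H P) : Base T.W.K (T.W.H P)) = 1 := rfl
    induction hc using Algebra.adjoin_induction with
    | mem c hc =>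
      rcases hc with hc | hc
      · exact h1 c hc
      · exact h2 c hc
    | algebraMap r =>
      have h1 : (tm 1 (algebraMap T.W.K (T.W.H P) r) : Base T.W.K (T.W.H P)) =
          algebraMap T.W.K ℂ r • (1 : Base T.W.K (T.W.H P)) := by
        rw [Algebra.algebraMap_eq_smul_one]
        have h2 := tens_smul (K := T.W.K) r (1 : T.W.H P) 1
        have h3 := smul_tens (K := T.W.K) (algebraMap T.W.K ℂ r) 1 (1 : T.W.H P)
        exact h2.trans h3.symm
      rw [h1]
      exact B.smul_mem (one_mem _) _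
    | add a c _ _ ha hc =>
      have h1 : (tm 1 (a + c) : Base T.W.K (T.W.H P)) = tm 1 a + tm 1 c := tens_add 1 a c
      rw [h1]
      exact add_mem ha hc
    | mul a c _ _ ha hc =>
      have h1 : (tm 1 (a * c) : Base T.W.K (T.W.H P)) = tm 1 a * tm 1 c := by
        have h2 := Algebra.TensorProduct.tmul_mul_tmul (R := T.W.K) (A := ℂ) (B := T.W.H P) 1 1 a c
        rw [mul_one] at h2
        exact h2.symm
      rw [h1]
      exact mul_mem ha hc
  rw [eq_top_iff]
  intro x _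
  refine cx_ind (K := T.W.K) (V := T.W.H P)
    (p := fun x => (show Base T.W.K (T.W.H P) from x) ∈ B) ?_ ?_ ?_ x
  · exact zero_mem _
  · intro r c
    have h1 : (tens r c : Cx T.W.K (T.W.H P)) = r • tens 1 c := by rw [smul_tens, mul_one]
    rw [h1]
    exact B.smul_mem (key c) r
  · intro a b ha hb
    exact add_mem ha hb

/-- the generation in the sense of the representations -/
theorem gens_gen {V : HS T.W.K} {P : 𝒱.Obj} (h : Gens T V P) :
    GeneratedBy T (fun _ : Unit => V) P := by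
  refine gens_all T h _ (fun c hc => ?_) (fun c hc => ?_)
  · obtain ⟨j, hc⟩ := hc
    refine Algebra.subset_adjoin (Or.inl ?_)
    intro τ hτ
    refine ⟨j, j, ?_⟩
    have h1 : gal τ hτ (tens 1 c : Cx T.W.K (T.W.H P)) = tens 1 c := by
      rw [gal_tens, map_one]
    have h2 : gal τ hτ (tens 1 c : Cx T.W.K (T.W.H P)) ∈ pqC T P j j := by
      rw [h1]
      exact hc.2
    exact h2
  · obtain ⟨f, v, hf, rfl⟩ := hc
    exact Algebra.subset_adjoin (Or.inr ⟨(), f, v, hf, rfl⟩)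

/-- the operator on the cohomology -/
def NB (P : 𝒱.Obj) (τ : ℂ ≃+* ℂ) : Base T.W.K (T.W.H P) →ₗ[ℂ] Base T.W.K (T.W.H P) :=
  ND (coh T P).b (coh T P).e (coh T P).t τ

theorem NB_mul (X : 𝒱.Obj) {τ : ℂ ≃+* ℂ} (hτ : FixK T.W.K τ) (x y : Base T.W.K (T.W.H X)) :
    NB T X τ (x * y) = NB T X τ x * y + x * NB T X τ y := by
  let F := NB T X τ
  let B1 : Base T.W.K (T.W.H X) →ₗ[ℂ] Base T.W.K (T.W.H X) →ₗ[ℂ] Base T.W.K (T.W.H X) :=
    (LinearMap.mul ℂ (Base T.W.K (T.W.H X))).compr₂ F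
  let B2 : Base T.W.K (T.W.H X) →ₗ[ℂ] Base T.W.K (T.W.H X) →ₗ[ℂ] Base T.W.K (T.W.H X) :=
    (LinearMap.mul ℂ (Base T.W.K (T.W.H X))).comp F +
      (LinearMap.mul ℂ (Base T.W.K (T.W.H X))).compl₂ F
  have hD : ∀ (r : ℤ × ℤ) (v : Base T.W.K (T.W.H X)), Typ (coh T X).e (coh T X).t r v →
      NB T X τ (galB τ hτ v) = ((r.1 - r.2 : ℤ) : ℂ) • galB τ hτ v := by
    intro r v hv
    have h1 := hv.nd (b := (coh T X).b) τ
    have h2 : sl (coh T X).b τ v = galB τ hτ v := ((coh T X).gal_eq hτ v).symm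
    rw [h2] at h1
    exact h1
  have hB : B1 = B2 := by
    refine (mv (coh T X).b (coh T X).e τ).ext fun i => ?_
    refine (mv (coh T X).b (coh T X).e τ).ext fun j => ?_
    rw [mv_apply, mv_apply]
    change NB T X τ (cv T X τ i * cv T X τ j) =
      NB T X τ (cv T X τ i) * cv T X τ j + cv T X τ i * NB T X τ (cv T X τ j)
    have hi : Typ (coh T X).e (coh T X).t ((coh T X).t i) (ev T X i) := Typ.basis i
    have hj : Typ (coh T X).e (coh T X).t ((coh T X).t j) (ev T X j) := Typ.basis j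
    have hij : Typ (coh T X).e (coh T X).t ((coh T X).t i + (coh T X).t j)
        (ev T X i * ev T X j) :=
      ((coh T X).mem' _ _).1 (mul_typ T X (((coh T X).mem' _ _).2 hi) (((coh T X).mem' _ _).2 hj))
    rw [cv_eq T X hτ, cv_eq T X hτ, ← gal_mul, hD _ _ hij, hD _ _ hi, hD _ _ hj, gal_mul,
      smul_mul_assoc, mul_smul_comm, ← add_smul, Prod.fst_add, Prod.snd_add]
    congr 1
    push_cast
    ring
  exact LinearMap.congr_fun (LinearMap.congr_fun hB x) y

theorem NB_hodge {P : 𝒱.Obj} {τ : ℂ ≃+* ℂ} (hτ : FixK T.W.K τ) {c : T.W.H P}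
    (hc : c ∈ hodgeCl T P) : NB T P τ (tm 1 c) = 0 := by
  obtain ⟨j, hc⟩ := hc
  have h1 := sl_tens (M := coh T P) hτ c
  have h2 := (((coh T P).mem j j (show Cx T.W.K (coh T P).V from tens 1
    (show (coh T P).V from c))).1 hc.2).nd (b := (coh T P).b) τ
  rw [h1] at h2
  have h3 : NB T P τ (tm 1 c) = (((j : ℤ) - (j : ℤ) : ℤ) : ℂ) •
      (tm 1 c : Base T.W.K (T.W.H P)) := h2
  rw [h3, sub_self, Int.cast_zero, zero_smul]

/-- **The derivation on the cohomology.** -/
theorem der_coh {V : HS T.W.K} {P : 𝒱.Obj} (h : Gens T V P) {τ : ℂ ≃+* ℂ} (hτ : FixK T.W.K τ)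
    {D : Der ℂ (HGp T.W.K)} (hD : InDer 1 D)
    (hDV : D.Θ (full (Cx T.W.K V.V) (hM V)) = ND V.b V.e V.t τ) (x : Base T.W.K (T.W.H P)) :
    haveI := finB T P
    D.Θ (full (Base T.W.K (T.W.H P)) (algR (ta T P))) x = NB T P τ x := by
  have hfd := finB T P
  let B : Subalgebra ℂ (Base T.W.K (T.W.H P)) :=
    { carrier := {x | D.Θ (full (Base T.W.K (T.W.H P)) (algR (ta T P))) x = NB T P τ x}
      mul_mem' := fun {a b} ha hb => by
        rw [Set.mem_setOf_eq] at ha hb ⊢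
        rw [Θ_mul, ha, hb, NB_mul T P hτ]
      add_mem' := fun {a b} ha hb => by
        rw [Set.mem_setOf_eq] at ha hb ⊢
        have h1 : D.Θ (full (Base T.W.K (T.W.H P)) (algR (ta T P))) (a + b) =
          D.Θ (full (Base T.W.K (T.W.H P)) (algR (ta T P))) a +
            D.Θ (full (Base T.W.K (T.W.H P)) (algR (ta T P))) b := map_add _ a b
        rw [h1, ha, hb, map_add]
      algebraMap_mem' := fun r => by
        rw [Set.mem_setOf_eq, Algebra.algebraMap_eq_smul_one]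
        have h1 : D.Θ (full (Base T.W.K (T.W.H P)) (algR (ta T P)))
            (r • (1 : Base T.W.K (T.W.H P))) =
          r • D.Θ (full (Base T.W.K (T.W.H P)) (algR (ta T P))) 1 := map_smul _ r _
        have h2 : NB T P τ 1 = 0 := by
          have h3 := NB_mul T P hτ 1 1
          rw [mul_one, mul_one, one_mul] at h3
          exact left_eq_add.1 h3
        rw [h1, map_smul, h2, Θ_one] }
  have hB : B = ⊤ := by
    refine gens_all T h B (fun c hc => ?_) (fun c hc => ?_)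
    · change D.Θ (full (Base T.W.K (T.W.H P)) (algR (ta T P))) (tm 1 c) = NB T P τ (tm 1 c)
      rw [NB_hodge T hτ hc]
      obtain ⟨j, hc⟩ := hc
      exact hD.kill (M := full (Base T.W.K (T.W.H P)) (algR (ta T P)))
        ⟨⊤, inferInstance, fun g _ => ⟨_, ta_hodge T hc g⟩⟩
    · obtain ⟨f, v, hf, rfl⟩ := hc
      have h1 := D.lin (full (Cx T.W.K V.V) (hM V))
        (full (Base T.W.K (T.W.H P)) (algR (ta T P))) (bc f)
        ⟨⊤, inferInstance, fun g _ x => rho_lin (M := V) (N := coh T P) f hf g x⟩ (tens 1 v)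
      rw [hDV] at h1
      have h2 := ND_lin (M := V) (N := coh T P) f hf hτ (tens 1 v)
      exact h1.symm.trans h2
  have h1 : x ∈ B := by
    rw [hB]
    exact Algebra.mem_top
  exact h1

/-- a class all of whose conjugates have type `(j, j)` -/
theorem gr_of_diag {P : 𝒱.Obj} {j : ℤ} {z : Cx T.W.K (coh T P).V}
    (hz : (show Cx T.W.K (T.W.H P) from z) ∈ pqC T P j j)
    (h0 : z ≠ 0) : ∃ i : ℕ, (i : ℤ) = j ∧
      (show Cx T.W.K (T.W.H P) from z) ∈ gr' T.W P (2 * i) := by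
  have h1 := (pjC_sum T P z).symm
  have h2 : ∀ i : ℕ, (i : ℤ) ≠ 2 * j → pjC T P i z = 0 := by
    intro i hi
    refine (coh T P).e.ext_elem fun l => ?_
    rw [map_zero, Finsupp.zero_apply]
    change rp T P l _ = 0
    by_cases hl : (coh T P).t l = (j, j)
    · refine repr_of_gr T (pj_gr T P i z) ?_
      rw [hl]
      intro h3
      exact hi (by rw [← h3]; ring)
    · exact (mem_rp T P j j _).1 (pj_pq T P i j j z hz) l hl
  obtain ⟨i, hi, hi0⟩ : ∃ i ∈ Finset.range (2 * P.dim + 1), pjC T P i z ≠ 0 := by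
    by_contra hcon
    push Not at hcon
    exact h0 (by rw [← h1]; exact Finset.sum_eq_zero hcon)
  have hij : (i : ℤ) = 2 * j := by
    by_contra hcon
    exact hi0 (h2 i hcon)
  refine ⟨j.toNat, by omega, ?_⟩
  have h3 : 2 * j.toNat = i := by omega
  rw [h3]
  have h4 : (show Cx T.W.K (T.W.H P) from z) =
      ∑ l ∈ Finset.range (2 * P.dim + 1), (show Cx T.W.K (T.W.H P) from pjC T P l z) := h1.symm
  rw [h4]
  refine Submodule.sum_mem _ fun l _ => ?_
  by_cases hl : l = i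
  · subst hl
    exact pj_gr T P l z
  · rw [h2 l (by omega)]
    exact Submodule.zero_mem _

/-- **The semi-invariant classes are combinations of Hodge classes.** -/
theorem twisted_full [CharZero T.W.K] {V : HS T.W.K} {d : ℤ} {ψ : V.V →ₗ[T.W.K] V.V →ₗ[T.W.K] T.W.K}
    (h : FullL V d ψ) {P : 𝒱.Obj} (hg : Gens T V P) :
    GR.S.Twisted (W := baseW T.W ℂ) (ch T) (var T P) := by
  have hfd := finB T P
  intro z hz
  by_cases hz0 : (show Cx T.W.K (T.W.H P) from z) = 0
  · have h1 : z = 0 := hz0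
    rw [h1]
    exact Submodule.zero_mem _
  have hpure : Pure (coh T P).b (coh T P).e (coh T P).t T.W.K
      (show Cx T.W.K (T.W.H P) from z) := mem_pures.1 ((mem_pureCl T).2 hz)
  -- the types of the conjugates
  have h1 : ∀ τ : ℂ ≃+* ℂ, FixK T.W.K τ → ∃ j : ℤ, Typ (coh T P).e (coh T P).t (j, j)
      (sl (coh T P).b τ.symm (show Cx T.W.K (T.W.H P) from z)) := by
    intro τ hτ
    obtain ⟨r, hr⟩ := hpure τ.symm (FixK.symm hτ)
    obtain ⟨D, hD, hDV⟩ := exists_der h hτ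
    have h2 := der_coh T hg hτ hD hDV (show Base T.W.K (T.W.H P) from z)
    have h3 : D.Θ (full (Base T.W.K (T.W.H P)) (algR (ta T P)))
        (show Base T.W.K (T.W.H P) from z) = 0 :=
      hD.kill (M := full (Base T.W.K (T.W.H P)) (algR (ta T P))) hz
    have h4 := hr.nd (b := (coh T P).b) τ
    rw [sl_symm'] at h4
    have h5 : ND (coh T P).b (coh T P).e (coh T P).t τ (show Cx T.W.K (T.W.H P) from z) = 0 :=
      h2.symm.trans h3
    rw [h5] at h4
    have h6 := (smul_eq_zero.1 h4.symm).resolve_right hz0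
    have h7 : r.1 - r.2 = 0 := by exact_mod_cast h6
    refine ⟨r.1, ?_⟩
    have h8 : r = (r.1, r.1) := Prod.ext rfl (by simp only; omega)
    rwa [← h8]
  obtain ⟨j, hj⟩ := h1 (RingEquiv.refl ℂ) fun _ => rfl
  have h2 : ∀ τ : ℂ ≃+* ℂ, FixK T.W.K τ → Typ (coh T P).e (coh T P).t (j, j)
      (sl (coh T P).b τ (show Cx T.W.K (T.W.H P) from z)) := by
    intro τ hτ
    obtain ⟨i, hi⟩ := h1 τ.symm (FixK.symm hτ)
    have h3 := hi.dg (b := (coh T P).b) τ.symm two two
    rw [sl_symm', mon_sum] at h3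
    have h4 := hj.dg (b := (coh T P).b) (RingEquiv.refl ℂ) two two
    rw [sl_symm', mon_sum] at h4
    rw [wt_coh T P τ.symm (FixK.symm hτ), h4] at h3
    have h5 : (((two ^ (j + j) : ℂˣ) : ℂ) - ((two ^ (i + i) : ℂˣ) : ℂ)) •
        (show Cx T.W.K (T.W.H P) from z) = 0 := by
      rw [sub_smul, sub_eq_zero]
      exact h3
    have h6 := two_inj' (sub_eq_zero.1 ((smul_eq_zero.1 h5).resolve_right hz0))
    have h7 : i = j := by omega
    subst h7
    have h8 : τ.symm.symm = τ := RingEquiv.symm_symm τ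
    rwa [h8] at hi
  have h3 : (show Cx T.W.K (T.W.H P) from z) ∈ pqC T P j j := by
    have h4 := h2 (RingEquiv.refl ℂ) fun _ => rfl
    rw [sl_refl] at h4
    exact ((coh T P).mem j j _).2 h4
  obtain ⟨i, rfl, hi⟩ := gr_of_diag T h3 hz0
  refine Submodule.subset_span ⟨i, hi, ⊤, inferInstance, fun g _ => ?_⟩
  have h4 := rho_diag (K := T.W.K) (j := (i : ℤ)) (b := (coh T P).b) (e := (coh T P).e)
    (t := (coh T P).t) h2 g
  have h5 : ((chi T.W.K g ^ (i : ℤ) : ℂˣ) : ℂ) = (chi T.W.K g : ℂ) ^ i := by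
    rw [zpow_natCast, Units.val_pow_eq_pow_val]
  rw [h5] at h4
  exact h4

/-- **The type of a variety.** -/
theorem type_full [CharZero T.W.K] {V : HS T.W.K} {d : ℤ} {ψ : V.V →ₗ[T.W.K] V.V →ₗ[T.W.K] T.W.K}
    (h : FullL V d ψ) {P : 𝒱.Obj} (hg : Gens T V P) (hp : Polarisable (coh T P)) :
    TypeG T V P :=
  ⟨⟨gen_var T (gens_gen T hg), ss_var T hp⟩, twisted_full T h hg⟩

end

end Pool.Agent.U233.HG
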